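import Pool.Agent.W88.Lelek

set_option autoImplicit false

namespace Pool.Agent.W88.Lelek

open Set Metric unitInterval Topology Filter

/-! ### arcs from the top and arcs between points -/

/-- the straight path from the top -/
noncomputable def ray (x : X) : Path v x where
  toFun := fun l => sm l x
  continuous_toFun := sm_continuous.comp (continuous_id.prodMk continuous_const)
  source' := sm_zero x
  target' := sm_one x

lemma ray_apply (x : X) (l : I) : ray x l = sm l x := rfl

lemma ray_range (x : X) : range (ray x) = seg x := rfl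

lemma ray_inj {x : X} (hx : x ≠ v) : Function.Injective (ray x) := by
  intro s t hst
  have h1 : (sm s x).1.1 = (sm t x).1.1 := by
    have := congrArg (fun y : X => y.1.1) hst
    exact this
  rw [sm_fst, sm_fst] at h1
  exact Subtype.ext (mul_right_cancel₀ (r_pos hx).ne' h1)

instance : PathConnectedSpace X :=
  { nonempty := ⟨v⟩
    joined := fun x y => ⟨(ray x).symm.trans (ray y)⟩ }

instance : ConnectedSpace X := PathConnectedSpace.connectedSpace

lemma inj_trans {Y : Type} [TopologicalSpace Y] {x y z : Y} (γ : Path x y) (δ : Path y z)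
    (hγ : Function.Injective γ) (hδ : Function.Injective δ)
    (hi : ∀ s t : I, γ s = δ t → γ s = y) : Function.Injective (γ.trans δ) := by
  have key : ∀ s t : I, (s : ℝ) ≤ t → γ.trans δ s = γ.trans δ t → s = t := by
    intro s t hst heq
    rw [Path.trans_apply, Path.trans_apply] at heq
    split_ifs at heq with h1 h2 h2
    · have := congrArg Subtype.val (hγ heq)
      simp only at this
      apply Subtype.ext; linarith
    · have e1 := hi _ _ heq
      have e3 := heq.symm.trans e1
      have e4 := congrArg Subtype.val (hδ (e3.trans δ.source.symm))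
      simp only [Icc.coe_zero] at e4
      exact absurd (by linarith : (t : ℝ) ≤ 1 / 2) h2
    · exact absurd (hst.trans h2) h1
    · have := congrArg Subtype.val (hδ heq)
      simp only at this
      apply Subtype.ext; linarith
  intro s t heq
  rcases le_total (s : ℝ) t with h1 | h1
  · exact key s t h1 heq
  · exact (key t s h1 heq.symm).symm

/-- an arc between two points of the same leg -/
lemma arc_same {x y : X} (hx : x ≠ v) (hy : y ≠ v) (hs : sl x = sl y) (hr : x.1.1 < y.1.1) :
    ∃ γ : I → X, Continuous γ ∧ Function.Injective γ ∧ γ 0 = x ∧ γ 1 = y := by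
  obtain ⟨l, hl0, hl, _⟩ := eq_sm hy hx hs hr.le
  have hl1 : (l : ℝ) < 1 := by
    by_contra hcon
    have : l = 1 := Subtype.ext (le_antisymm l.2.2 (not_lt.1 hcon))
    rw [this, sm_one] at hl
    rw [hl] at hr
    exact lt_irrefl _ hr
  have hl0' : (0 : ℝ) < l := hl0
  refine ⟨fun s => sm ⟨(l : ℝ) + s * (1 - l), ?_, ?_⟩ y, ?_, ?_, ?_, ?_⟩
  · have := s.2.1
    have h2 : 0 ≤ (s : ℝ) * (1 - l) := mul_nonneg this (by linarith)
    linarith
  · have := s.2.2
    have h2 : (s : ℝ) * (1 - l) ≤ 1 * (1 - l) := mul_le_mul_of_nonneg_right this (by linarith)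
    linarith
  · refine sm_continuous.comp (Continuous.prodMk (Continuous.subtype_mk (by fun_prop) _)
      continuous_const)
  · intro s t hst
    have h1 := congrArg (fun y : X => y.1.1) hst
    simp only [sm_fst] at h1
    have h2 := mul_right_cancel₀ (r_pos hy).ne' h1
    have h3 : (s : ℝ) * (1 - l) = t * (1 - l) := by linarith
    exact Subtype.ext (mul_right_cancel₀ (by linarith : (1 - (l : ℝ)) ≠ 0) h3)
  · change sm _ y = x
    rw [hl]
    congr 1
    apply Subtype.ext
    simp
  · change sm _ y = y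
    conv_rhs => rw [← sm_one y]
    congr 1
    apply Subtype.ext
    simp

lemma arcwise {x y : X} (hxy : x ≠ y) :
    ∃ γ : I → X, Continuous γ ∧ Function.Injective γ ∧ γ 0 = x ∧ γ 1 = y := by
  by_cases hx : x = v
  · have hy : y ≠ v := fun h => hxy (hx.trans h.symm)
    exact ⟨ray y, (ray y).continuous, ray_inj hy, by rw [(ray y).source, hx], (ray y).target⟩
  by_cases hy : y = v
  · refine ⟨(ray x).symm, (ray x).symm.continuous, ?_, (ray x).symm.source, ?_⟩
    · intro s t hst
      rw [Path.symm_apply, Path.symm_apply] at hst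
      exact unitInterval.symm_bijective.injective (ray_inj hx hst)
    · rw [(ray x).symm.target, hy]
  by_cases hs : sl x = sl y
  · rcases lt_trichotomy x.1.1 y.1.1 with h | h | h
    · exact arc_same hx hy hs h
    · exact absurd (ext_leg hx hy hs h) hxy
    · obtain ⟨γ, h1, h2, h3, h4⟩ := arc_same hy hx hs.symm h
      refine ⟨γ ∘ unitInterval.symm, h1.comp unitInterval.continuous_symm,
        h2.comp unitInterval.symm_bijective.injective, ?_, ?_⟩
      · simp [h4]
      · simp [h3]
  · have hinj : Function.Injective ((ray x).symm.trans (ray y)) := by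
      refine inj_trans _ _ ?_ (ray_inj hy) ?_
      · intro s t hst
        rw [Path.symm_apply, Path.symm_apply] at hst
        exact unitInterval.symm_bijective.injective (ray_inj hx hst)
      · intro s t hst
        change sm (σ s) x = sm t y at hst
        change sm (σ s) x = v
        by_contra hcon
        have h0 : 0 < σ s := by
          rcases (σ s).2.1.lt_or_eq with h | h
          · exact h
          · exfalso
            apply hcon
            have : σ s = 0 := Subtype.ext h.symm
            rw [this, sm_zero]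
        have h1 : 0 < t := by
          rcases t.2.1.lt_or_eq with h | h
          · exact h
          · exfalso
            apply hcon
            have : t = 0 := Subtype.ext h.symm
            rw [hst, this, sm_zero]
        apply hs
        rw [← sl_sm h0 hx, ← sl_sm h1 hy, hst]
    exact ⟨(ray x).symm.trans (ray y), Path.continuous _, hinj, Path.source _, Path.target _⟩

/-! ### tips -/

lemma mk_fst (c : ℕ → Bool) (t : ℝ) (h0 : 0 ≤ t) (h1 : ∀ n, t ≤ P c n) : (mk c t h0 h1).1.1 = t :=
  rfl

lemma sl_mk (c : ℕ → Bool) (t : ℝ) (h0 : 0 < t) (h1 : ∀ n, t ≤ P c n) :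
    sl (mk c t h0.le h1) = phi c := by
  change t * phi c / t = _
  field_simp

lemma tip_of (c : ℕ → Bool) (m : ℕ) (h : ∀ n, P c m ≤ P c n) :
    IsTip (mk c (P c m) (P_pos c m).le h) := by
  refine ⟨ne_v (by rw [mk_fst]; exact P_pos c m), ?_⟩
  intro y hy hs
  rw [sl_mk _ _ (P_pos c m)] at hs
  obtain ⟨d, h2, h3, _⟩ := sl_eq hy
  have : d = c := phi_injective (by rw [← h3, hs])
  subst this
  rw [mk_fst]
  exact h2 m

/-- `c` up to `n`, then `true` up to `m`, then `false` -/
def cut (c : ℕ → Bool) (n m : ℕ) : ℕ → Bool := fun i => if i < n then c i else decide (i < m)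

lemma cut_lt {c : ℕ → Bool} {n m i : ℕ} (h : i < n) : cut c n m i = c i := by
  unfold cut; rw [if_pos h]

lemma P_cut_lt {c : ℕ → Bool} {n m k : ℕ} (h : k ≤ n) : P (cut c n m) k = P c k :=
  P_congr fun i hi => cut_lt (lt_of_lt_of_le hi h)

lemma P_cut_mid {c : ℕ → Bool} {n m : ℕ} (k : ℕ) (h : n + k ≤ m) :
    P (cut c n m) (n + k) * ((n : ℝ) + k + 1) = P c n * ((n : ℝ) + 1) := by
  induction k with
  | zero =>
    rw [Nat.add_zero, P_cut_lt le_rfl]
    simp
  | succ k ih =>
    have h1 : cut c n m (n + k) = true := by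
      unfold cut
      rw [if_neg (by omega)]
      simp; omega
    have h2 := ih (by omega)
    rw [← Nat.add_assoc, P_succ, h1, if_pos rfl]
    unfold wt
    push_cast
    rw [← h2]
    field_simp
    ring

lemma P_cut_after {c : ℕ → Bool} {n m : ℕ} (hnm : n ≤ m) (k : ℕ) :
    P (cut c n m) (m + k) = P (cut c n m) m := by
  induction k with
  | zero => rfl
  | succ k ih =>
    have h1 : cut c n m (m + k) = false := by
      unfold cut
      rw [if_neg (by omega)]
      simp
    rw [← Nat.add_assoc, P_succ, h1, ih]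
    simp

lemma P_cut_min {c : ℕ → Bool} {n m : ℕ} (hnm : n ≤ m) (k : ℕ) :
    P (cut c n m) m ≤ P (cut c n m) k := by
  rcases le_total k m with h | h
  · exact P_antitone _ h
  · obtain ⟨j, rfl⟩ := Nat.exists_eq_add_of_le h
    rw [P_cut_after hnm]

lemma exists_cut (c : ℕ → Bool) (n : ℕ) {t : ℝ} (h0 : 0 ≤ t) (h1 : t ≤ P c n) :
    ∃ m, n ≤ m ∧ |P (cut c n m) m - t| ≤ 1 / ((n : ℝ) + 1) := by
  classical
  have hn : (0 : ℝ) < (n : ℝ) + 1 := by positivity
  have hQ : ∃ k : ℕ, P c n * ((n : ℝ) + 1) / ((n : ℝ) + k + 1) ≤ t + 1 / ((n : ℝ) + 1) := by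
    obtain ⟨k, hk⟩ := exists_nat_gt (P c n * ((n : ℝ) + 1) * ((n : ℝ) + 1))
    refine ⟨k, ?_⟩
    rw [div_le_iff₀ (by positivity)]
    have h2 : P c n * ((n : ℝ) + 1) ≤ 1 / ((n : ℝ) + 1) * ((n : ℝ) + k + 1) := by
      rw [div_mul_eq_mul_div, one_mul, le_div_iff₀ hn]
      linarith
    have h3 : 0 ≤ t * ((n : ℝ) + k + 1) := by positivity
    linarith [add_mul t (1 / ((n : ℝ) + 1)) ((n : ℝ) + k + 1)]
  obtain ⟨k, hk, hmin⟩ : ∃ k : ℕ, P c n * ((n : ℝ) + 1) / ((n : ℝ) + k + 1) ≤
      t + 1 / ((n : ℝ) + 1) ∧ ∀ j < k, ¬ (P c n * ((n : ℝ) + 1) / ((n : ℝ) + j + 1) ≤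
      t + 1 / ((n : ℝ) + 1)) := ⟨Nat.find hQ, Nat.find_spec hQ, fun j hj => Nat.find_min hQ hj⟩
  have hval : P (cut c n (n + k)) (n + k) = P c n * ((n : ℝ) + 1) / ((n : ℝ) + k + 1) := by
    rw [eq_div_iff (by positivity)]
    exact P_cut_mid k le_rfl
  refine ⟨n + k, Nat.le_add_right _ _, ?_⟩
  rw [hval, abs_le]
  have hinv : 0 < 1 / ((n : ℝ) + 1) := by positivity
  refine ⟨?_, by linarith⟩
  rcases Nat.eq_zero_or_pos k with h | h
  · subst h
    have : P c n * ((n : ℝ) + 1) / ((n : ℝ) + ((0 : ℕ) : ℝ) + 1) = P c n := by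
      push_cast
      rw [add_zero]
      field_simp
    rw [this]
    linarith
  · obtain ⟨j, rfl⟩ : ∃ j, k = j + 1 := ⟨k - 1, by omega⟩
    have h2 := hmin j (Nat.lt_succ_self j)
    push Not at h2
    have h3 : P c n * ((n : ℝ) + 1) / ((n : ℝ) + (j + 1 : ℕ) + 1) =
        P c n * ((n : ℝ) + 1) / ((n : ℝ) + j + 1) * (((n : ℝ) + j + 1) / ((n : ℝ) + j + 2)) := by
      push_cast
      field_simp
      ring
    have h4 : P c n * ((n : ℝ) + 1) / ((n : ℝ) + j + 1) ≤ 1 := by
      rw [div_le_one (by positivity)]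
      have := P_le_one c n
      have hp := P_pos c n
      nlinarith [(Nat.cast_nonneg j : (0 : ℝ) ≤ j)]
    have h5 : ((n : ℝ) + j + 1) / ((n : ℝ) + j + 2) = 1 - 1 / ((n : ℝ) + j + 2) := by
      field_simp
      ring
    rw [h3, h5, mul_sub, mul_one]
    have h6 : 1 / ((n : ℝ) + j + 2) ≤ 1 / ((n : ℝ) + 1) :=
      one_div_le_one_div_of_le hn (by linarith [(Nat.cast_nonneg j : (0 : ℝ) ≤ j)])
    have h7 : 0 ≤ P c n * ((n : ℝ) + 1) / ((n : ℝ) + j + 1) := by
      have := P_pos c n
      positivity
    have h8 : P c n * ((n : ℝ) + 1) / ((n : ℝ) + j + 1) * (1 / ((n : ℝ) + j + 2)) ≤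
        1 * (1 / ((n : ℝ) + 1)) := by
      refine mul_le_mul h4 h6 (by positivity) zero_le_one
    linarith

theorem dense_tips : Dense {e : X | IsTip e} := by
  intro x
  obtain ⟨c, t, h0, h1, h2, h3⟩ := param x
  choose m hm1 hm2 using fun n => exists_cut c n h0 (h1 n)
  let e : ℕ → X := fun n => mk (cut c n (m n)) (P (cut c n (m n)) (m n)) (P_pos _ _).le
    (P_cut_min (hm1 n))
  have hc : Tendsto (fun n => cut c n (m n)) atTop (𝓝 c) := by
    rw [tendsto_pi_nhds]
    intro i
    refine tendsto_const_nhds.congr' ?_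
    filter_upwards [eventually_gt_atTop i] with n hn
    exact (cut_lt hn).symm
  have ht : Tendsto (fun n => P (cut c n (m n)) (m n)) atTop (𝓝 t) := by
    rw [tendsto_iff_norm_sub_tendsto_zero]
    refine squeeze_zero (fun n => norm_nonneg _) (fun n => ?_) tendsto_one_div_add_atTop_nhds_zero_nat
    rw [Real.norm_eq_abs]
    exact hm2 n
  have hF : Tendsto (fun n => F (cut c n (m n), P (cut c n (m n)) (m n))) atTop (𝓝 (F (c, t))) :=
    (F_continuous.tendsto _).comp (hc.prodMk_nhds ht)
  have he : Tendsto e atTop (𝓝 x) := by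
    rw [tendsto_subtype_rng]
    have : (x : ℝ × ℝ) = F (c, t) := Prod.ext h2 h3
    rw [this]
    exact hF
  exact mem_closure_of_tendsto he (Eventually.of_forall fun n => tip_of _ _ (P_cut_min (hm1 n)))

/-! ### the top is a ramification point -/

/-- three different sequences -/
def cc (i : Fin 3) : ℕ → Bool := fun n => decide (n < i.1)

lemma cc_inj : Function.Injective cc := by
  intro i j hij
  have h := fun n => congrFun hij n
  unfold cc at h
  have h0 := h 0
  have h1 := h 1
  fin_cases i <;> fin_cases j <;> simp_all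

lemma cc_P (i : Fin 3) (n : ℕ) : P (cc i) 2 ≤ P (cc i) n := by
  rcases le_total n 2 with h | h
  · exact P_antitone _ h
  · obtain ⟨k, rfl⟩ := Nat.exists_eq_add_of_le h
    induction k with
    | zero => exact le_rfl
    | succ k ih =>
      have h1 : cc i (2 + k) = false := by
        unfold cc
        have := i.2
        simp; omega
      rw [← Nat.add_assoc, P_succ (cc i) (2 + k), h1]
      simpa using ih (by omega)

/-- the three points -/
noncomputable def pt (i : Fin 3) : X := mk (cc i) (P (cc i) 2) (P_pos _ _).le (cc_P i)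

lemma pt_ne (i : Fin 3) : pt i ≠ v := ne_v (P_pos _ _)

lemma sl_pt (i : Fin 3) : sl (pt i) = phi (cc i) := sl_mk _ _ (P_pos _ _) _

lemma pt_inter {i j : Fin 3} (hij : i ≠ j) : range (ray (pt i)) ∩ range (ray (pt j)) = {v} := by
  apply Subset.antisymm
  · rintro z ⟨⟨s, hs⟩, ⟨t, ht⟩⟩
    rw [ray_apply] at hs ht
    by_contra hz
    have hz' : z ≠ v := hz
    have h0 : 0 < s := by
      rcases s.2.1.lt_or_eq with h | h
      · exact h
      · exfalso
        apply hz'
        have : s = 0 := Subtype.ext h.symm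
        rw [← hs, this, sm_zero]
    have h1 : 0 < t := by
      rcases t.2.1.lt_or_eq with h | h
      · exact h
      · exfalso
        apply hz'
        have : t = 0 := Subtype.ext h.symm
        rw [← ht, this, sm_zero]
    have h2 : sl z = phi (cc i) := by rw [← hs, sl_sm h0 (pt_ne i), sl_pt]
    have h3 : sl z = phi (cc j) := by rw [← ht, sl_sm h1 (pt_ne j), sl_pt]
    exact hij (cc_inj (phi_injective (h2.symm.trans h3)))
  · rintro _ rfl
    exact ⟨⟨0, sm_zero _⟩, ⟨0, sm_zero _⟩⟩

/-! ### smoothness -/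

lemma arc_eq {x : X} {A : Set X} (h : (x = v ∧ A = {v}) ∨ ∃ γ : I → X, Continuous γ ∧
    Function.Injective γ ∧ γ 0 = v ∧ γ 1 = x ∧ range γ = A) : A = seg x := by
  rcases h with ⟨rfl, rfl⟩ | ⟨γ, h1, h2, h3, rfl, rfl⟩
  · unfold seg
    simp only [sm_v, range_const]
  · exact arc_leg h1 h2 h3

lemma smooth {x : ℕ → X} {y : X} (h : Tendsto x atTop (𝓝 y)) :
    Tendsto (fun n => hausdorffDist (seg (x n)) (seg y)) atTop (𝓝 0) := by
  refine squeeze_zero (fun _ => hausdorffDist_nonneg) (fun n => hausdorff_seg (x n) y) ?_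
  exact tendsto_iff_dist_tendsto_zero.1 h

end Pool.Agent.W88.Lelek
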