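import Mathlib

set_option autoImplicit false

namespace Pool.Agent.W88.Kup

open Set Metric unitInterval

/-! A planar continuum that is uniformly pathwise connected but not uniformly arcwise connected. -/

/-- the height of the connector between the rays `k` and `k+1` -/
noncomputable def h (k : ℕ) : ℝ := if Even k then 1 / 4 else 3 / 4

lemma h_even {k : ℕ} (hk : Even k) : h k = 1 / 4 := by simp [h, hk]
lemma h_odd {k : ℕ} (hk : ¬ Even k) : h k = 3 / 4 := by simp [h, hk]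
lemma h_pos (k : ℕ) : 1 / 4 ≤ h k := by unfold h; split_ifs <;> norm_num
lemma h_le (k : ℕ) : h k ≤ 3 / 4 := by unfold h; split_ifs <;> norm_num
lemma h_succ (k : ℕ) : |h k - h (k + 1)| = 1 / 2 := by
  unfold h
  by_cases hk : Even k
  · have : ¬ Even (k + 1) := by rw [Nat.even_add_one]; exact fun h => h hk
    rw [if_pos hk, if_neg this]; norm_num
  · have : Even (k + 1) := by rw [Nat.even_add_one]; exact hk
    rw [if_neg hk, if_pos this]; norm_num

/-- `k + 1` is a power of two -/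
def P2 (k : ℕ) : Prop := ∃ m : ℕ, k + 1 = 2 ^ m

/-- the ray number `k` -/
def Ray (k : ℕ) : Set (ℝ × ℝ) := {p | 1 ≤ k ∧ (k : ℝ) * p.1 = p.2 ∧ (p.2 ≤ 3 / 4 ∨ P2 k)}

/-- the connector number `k` -/
def Con (k : ℕ) : Set (ℝ × ℝ) :=
  {p | 1 ≤ k ∧ ¬ P2 k ∧ p.2 = h k ∧ p.2 ≤ ((k : ℝ) + 1) * p.1 ∧ (k : ℝ) * p.1 ≤ p.2}

/-- the continuum -/
def S : Set (ℝ × ℝ) := {p | (0 ≤ p.1 ∧ p.1 ≤ p.2 ∧ p.2 ≤ 1) ∧
  (p.1 = 0 ∨ p.2 = 1 ∨ ∃ k, p ∈ Ray k ∨ p ∈ Con k)}

lemma isClosed_ray (k : ℕ) : IsClosed (Ray k) := by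
  have h1 : Ray k = {_p : ℝ × ℝ | 1 ≤ k} ∩ ({p : ℝ × ℝ | (k : ℝ) * p.1 = p.2} ∩
      ({p : ℝ × ℝ | p.2 ≤ 3 / 4} ∪ {_p : ℝ × ℝ | P2 k})) := by
    ext p; simp only [Ray, mem_inter_iff, mem_union, mem_ofPred_eq]
  rw [h1]
  refine (isClosed_const).inter ?_
  refine (isClosed_eq (by fun_prop) (by fun_prop)).inter ?_
  exact (isClosed_le (by fun_prop) (by fun_prop)).union isClosed_const

lemma isClosed_con (k : ℕ) : IsClosed (Con k) := by
  have h1 : Con k = {_p : ℝ × ℝ | 1 ≤ k} ∩ ({_p : ℝ × ℝ | ¬ P2 k} ∩ ({p : ℝ × ℝ | p.2 = h k} ∩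
      ({p : ℝ × ℝ | p.2 ≤ ((k : ℝ) + 1) * p.1} ∩ {p : ℝ × ℝ | (k : ℝ) * p.1 ≤ p.2}))) := by
    ext p; simp only [Con, mem_inter_iff, mem_ofPred_eq]
  rw [h1]
  refine (isClosed_const).inter ?_
  refine (isClosed_const).inter ?_
  refine (isClosed_eq (by fun_prop) (by fun_prop)).inter ?_
  exact (isClosed_le (by fun_prop) (by fun_prop)).inter (isClosed_le (by fun_prop) (by fun_prop))

lemma box_closed : IsClosed {p : ℝ × ℝ | 0 ≤ p.1 ∧ p.1 ≤ p.2 ∧ p.2 ≤ 1} := by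
  have h1 : {p : ℝ × ℝ | 0 ≤ p.1 ∧ p.1 ≤ p.2 ∧ p.2 ≤ 1} = {p : ℝ × ℝ | 0 ≤ p.1} ∩
      ({p : ℝ × ℝ | p.1 ≤ p.2} ∩ {p : ℝ × ℝ | p.2 ≤ 1}) := by
    ext p; simp only [mem_inter_iff, mem_ofPred_eq]
  rw [h1]
  exact (isClosed_le (by fun_prop) (by fun_prop)).inter
    ((isClosed_le (by fun_prop) (by fun_prop)).inter (isClosed_le (by fun_prop) (by fun_prop)))

lemma S_eq : S = {p : ℝ × ℝ | 0 ≤ p.1 ∧ p.1 ≤ p.2 ∧ p.2 ≤ 1} ∩
    ⋂ N : ℕ, ({p : ℝ × ℝ | (N : ℝ) * p.1 ≤ 1} ∪ ({p : ℝ × ℝ | p.2 = 1} ∪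
      ⋃ k ∈ Finset.range N, (Ray k ∪ Con k))) := by
  ext p
  constructor
  · rintro ⟨hb, hp⟩
    refine ⟨hb, ?_⟩
    rw [mem_iInter]
    intro N
    rcases hp with hp | hp | ⟨k, hk⟩
    · left; simp [hp]
    · right; left; exact hp
    · by_cases hkN : k < N
      · right; right
        rw [mem_iUnion₂]
        exact ⟨k, Finset.mem_range.2 hkN, hk⟩
      · left
        push Not at hkN
        have h1 : (N : ℝ) ≤ k := by exact_mod_cast hkN
        have h2 : (k : ℝ) * p.1 ≤ p.2 := by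
          rcases hk with hk | hk
          · exact hk.2.1.le
          · exact hk.2.2.2.2
        have h3 : (N : ℝ) * p.1 ≤ k * p.1 := mul_le_mul_of_nonneg_right h1 hb.1
        exact h3.trans (h2.trans hb.2.2)
  · rintro ⟨hb, hp⟩
    refine ⟨hb, ?_⟩
    by_contra hcon
    push Not at hcon
    obtain ⟨h0, h1, h2⟩ := hcon
    have hpos : 0 < p.1 := lt_of_le_of_ne hb.1 (Ne.symm h0)
    obtain ⟨N, hN⟩ := exists_nat_gt (1 / p.1)
    rw [mem_iInter] at hp
    rcases hp N with h3 | h3 | h3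
    · rw [div_lt_iff₀ hpos] at hN
      exact absurd h3 (not_le.2 hN)
    · exact h1 h3
    · rw [mem_iUnion₂] at h3
      obtain ⟨k, _, h3⟩ := h3
      rcases h3 with h3 | h3
      · exact (h2 k).1 h3
      · exact (h2 k).2 h3

lemma isClosed_S : IsClosed S := by
  rw [S_eq]
  refine box_closed.inter (isClosed_iInter fun N => ?_)
  refine IsClosed.union (isClosed_le (by fun_prop) (by fun_prop)) ?_
  refine IsClosed.union (isClosed_eq (by fun_prop) (by fun_prop)) ?_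
  exact isClosed_biUnion_finset fun k _ => (isClosed_ray k).union (isClosed_con k)

lemma S_subset : S ⊆ Icc (0 : ℝ) 1 ×ˢ Icc (0 : ℝ) 1 := by
  rintro p ⟨⟨h1, h2, h3⟩, _⟩
  exact ⟨⟨h1, h2.trans h3⟩, ⟨h1.trans h2, h3⟩⟩

lemma isCompact_S : IsCompact S :=
  (isCompact_Icc.prod isCompact_Icc).of_isClosed_subset isClosed_S S_subset

abbrev X : Type := S

instance : CompactSpace X := isCompact_iff_compactSpace.1 isCompact_S

/-- the base point -/
def pa : X := ⟨(0, 0), ⟨by norm_num, Or.inl rfl⟩⟩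

/-- the end point -/
def pb : X := ⟨(0, 1), ⟨by norm_num, Or.inl rfl⟩⟩

lemma dist_le_one (x y : X) : dist x y ≤ 1 := by
  have h1 := S_subset x.2
  have h2 := S_subset y.2
  rw [Subtype.dist_eq, Prod.dist_eq, max_le_iff, Real.dist_eq, Real.dist_eq, abs_le, abs_le]
  obtain ⟨⟨a1, a2⟩, ⟨a3, a4⟩⟩ := h1
  obtain ⟨⟨b1, b2⟩, ⟨b3, b4⟩⟩ := h2
  constructor <;> constructor <;> linarith

/-- straight segments as paths -/
lemma exists_seg (x y : X) (hs : ∀ t : ℝ, 0 ≤ t → t ≤ 1 →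
    ((1 - t) * x.1.1 + t * y.1.1, (1 - t) * x.1.2 + t * y.1.2) ∈ S) :
    ∃ γ : Path x y, (∀ s : I, (γ s).1 = ((1 - (s : ℝ)) * x.1.1 + s * y.1.1,
      (1 - (s : ℝ)) * x.1.2 + s * y.1.2)) ∧
      ∀ s t : I, dist (γ s) (γ t) ≤ 1 * |(s : ℝ) - t| := by
  refine ⟨⟨⟨fun s => ⟨((1 - (s : ℝ)) * x.1.1 + s * y.1.1, (1 - (s : ℝ)) * x.1.2 + s * y.1.2),
    hs s s.2.1 s.2.2⟩, ?_⟩, ?_, ?_⟩, ?_, ?_⟩
  · exact Continuous.subtype_mk (by fun_prop) _
  · apply Subtype.ext; simp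
  · apply Subtype.ext; simp
  · intro s; rfl
  · intro s t
    have hd := dist_le_one x y
    rw [Subtype.dist_eq, Prod.dist_eq, max_le_iff, Real.dist_eq, Real.dist_eq] at hd
    change dist (_ : X) (_ : X) ≤ _
    rw [Subtype.dist_eq, Prod.dist_eq, max_le_iff, Real.dist_eq, Real.dist_eq]
    constructor
    · have : (1 - (s : ℝ)) * x.1.1 + s * y.1.1 - ((1 - (t : ℝ)) * x.1.1 + t * y.1.1) =
        (x.1.1 - y.1.1) * (t - s) := by ring
      change |(1 - (s : ℝ)) * x.1.1 + s * y.1.1 - ((1 - (t : ℝ)) * x.1.1 + t * y.1.1)| ≤ _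
      rw [this, abs_mul, abs_sub_comm (t : ℝ) s]
      exact mul_le_mul_of_nonneg_right hd.1 (abs_nonneg _)
    · have : (1 - (s : ℝ)) * x.1.2 + s * y.1.2 - ((1 - (t : ℝ)) * x.1.2 + t * y.1.2) =
        (x.1.2 - y.1.2) * (t - s) := by ring
      change |(1 - (s : ℝ)) * x.1.2 + s * y.1.2 - ((1 - (t : ℝ)) * x.1.2 + t * y.1.2)| ≤ _
      rw [this, abs_mul, abs_sub_comm (t : ℝ) s]
      exact mul_le_mul_of_nonneg_right hd.2 (abs_nonneg _)

lemma lip_symm {Y : Type} [MetricSpace Y] {x y : Y} (γ : Path x y) (K : ℝ)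
    (hγ : ∀ s t : I, dist (γ s) (γ t) ≤ K * |(s : ℝ) - t|) :
    ∀ s t : I, dist (γ.symm s) (γ.symm t) ≤ K * |(s : ℝ) - t| := by
  intro s t
  rw [Path.symm_apply, Path.symm_apply]
  refine (hγ _ _).trans (le_of_eq ?_)
  simp only [unitInterval.coe_symm_eq]
  congr 1
  rw [show (1 - (s : ℝ)) - (1 - t) = -(s - t) by ring, abs_neg]

lemma lip_trans {Y : Type} [MetricSpace Y] {x y z : Y} (γ : Path x y) (δ : Path y z) (K : ℝ)
    (hK : 0 ≤ K)
    (hγ : ∀ s t : I, dist (γ s) (γ t) ≤ K * |(s : ℝ) - t|)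
    (hδ : ∀ s t : I, dist (δ s) (δ t) ≤ K * |(s : ℝ) - t|) :
    ∀ s t : I, dist (γ.trans δ s) (γ.trans δ t) ≤ 2 * K * |(s : ℝ) - t| := by
  have key : ∀ s t : I, (s : ℝ) ≤ t →
      dist (γ.trans δ s) (γ.trans δ t) ≤ 2 * K * |(s : ℝ) - t| := by
    intro s t hst
    rw [Path.trans_apply, Path.trans_apply]
    split_ifs with h1 h2 h2
    · refine (hγ _ _).trans (le_of_eq ?_)
      change K * |2 * (s : ℝ) - 2 * t| = _
      rw [show 2 * (s : ℝ) - 2 * t = 2 * (s - t) by ring, abs_mul, abs_two]; ring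
    · refine (dist_triangle _ y _).trans ?_
      have e1 : dist (γ ⟨2 * (s : ℝ), (unitInterval.mul_pos_mem_iff zero_lt_two).2 ⟨s.2.1, h1⟩⟩) y
          ≤ K * (1 - 2 * s) := by
        have := hγ ⟨2 * (s : ℝ), (unitInterval.mul_pos_mem_iff zero_lt_two).2 ⟨s.2.1, h1⟩⟩ 1
        rw [γ.target] at this
        refine this.trans (le_of_eq ?_)
        change K * |2 * (s : ℝ) - 1| = _
        rw [abs_of_nonpos (by linarith)]; ring
      have e2 : dist y (δ ⟨2 * (t : ℝ) - 1,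
          unitInterval.two_mul_sub_one_mem_iff.2 ⟨(not_le.1 h2).le, t.2.2⟩⟩)
          ≤ K * (2 * t - 1) := by
        have := hδ 0 ⟨2 * (t : ℝ) - 1,
          unitInterval.two_mul_sub_one_mem_iff.2 ⟨(not_le.1 h2).le, t.2.2⟩⟩
        rw [δ.source] at this
        refine this.trans (le_of_eq ?_)
        change K * |(0 : ℝ) - (2 * (t : ℝ) - 1)| = _
        rw [abs_of_nonpos (by linarith [not_le.1 h2])]; ring
      refine (add_le_add e1 e2).trans (le_of_eq ?_)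
      rw [abs_of_nonpos (by linarith)]; ring
    · exact absurd (hst.trans h2) h1
    · refine (hδ _ _).trans (le_of_eq ?_)
      change K * |2 * (s : ℝ) - 1 - (2 * t - 1)| = _
      rw [show 2 * (s : ℝ) - 1 - (2 * t - 1) = 2 * (s - t) by ring, abs_mul, abs_two]; ring
  intro s t
  rcases le_total (s : ℝ) t with h1 | h1
  · exact key s t h1
  · rw [dist_comm, abs_sub_comm]; exact key t s h1

/-- uniform subdivision of Lipschitz paths -/
lemma subdiv {Y : Type} [MetricSpace Y] {x y : Y} (K : ℝ) (ε : ℝ) (hε : 0 < ε) :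
    ∃ n : ℕ, ∀ p : Path x y, (∀ s t : I, dist (p s) (p t) ≤ K * |(s : ℝ) - t|) →
      ∃ t : Fin (n + 1) → unitInterval,
              t 0 = 0 ∧ t (Fin.last n) = 1 ∧ StrictMono t ∧
              ∀ i : Fin n, Metric.diam (⇑p '' Set.Icc (t i.castSucc) (t i.succ)) ≤ ε := by
  obtain ⟨n, hn⟩ := exists_nat_gt (|K| / ε)
  have hn0 : 0 < (n : ℝ) := lt_of_le_of_lt (div_nonneg (abs_nonneg K) hε.le) hn
  refine ⟨n, fun p hp => ⟨fun i => ⟨(i : ℕ) / (n : ℝ), ⟨by positivity, ?_⟩⟩, ?_, ?_, ?_, ?_⟩⟩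
  · rw [div_le_one hn0]
    exact_mod_cast Nat.lt_succ_iff.1 i.2
  · apply Subtype.ext; simp
  · apply Subtype.ext
    simp [hn0.ne']
  · intro i j hij
    change (_ : I) < _
    rw [← Subtype.coe_lt_coe]
    change ((i : ℕ) : ℝ) / n < ((j : ℕ) : ℝ) / n
    rw [div_lt_div_iff_of_pos_right hn0]
    exact_mod_cast hij
  · intro i
    refine Metric.diam_le_of_forall_dist_le hε.le ?_
    rintro _ ⟨s, hs, rfl⟩ _ ⟨t, ht, rfl⟩
    refine (hp s t).trans ?_
    have h1 : ((i : ℕ) : ℝ) / n ≤ s := by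
      have := hs.1
      rw [← Subtype.coe_le_coe] at this
      simpa using this
    have h2 : (s : ℝ) ≤ (((i : ℕ) : ℝ) + 1) / n := by
      have := hs.2
      rw [← Subtype.coe_le_coe] at this
      simpa using this
    have h3 : ((i : ℕ) : ℝ) / n ≤ t := by
      have := ht.1
      rw [← Subtype.coe_le_coe] at this
      simpa using this
    have h4 : (t : ℝ) ≤ (((i : ℕ) : ℝ) + 1) / n := by
      have := ht.2
      rw [← Subtype.coe_le_coe] at this
      simpa using this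
    have h5 : |(s : ℝ) - t| ≤ 1 / n := by
      rw [abs_le]
      rw [add_div] at h2 h4
      constructor <;> linarith
    have h6 : |K| / n ≤ ε := by
      rw [div_lt_iff₀ hε] at hn
      rw [div_le_iff₀ hn0]
      linarith
    calc K * |(s : ℝ) - t| ≤ |K| * |(s : ℝ) - t| :=
          mul_le_mul_of_nonneg_right (le_abs_self K) (abs_nonneg _)
      _ ≤ |K| * (1 / n) := mul_le_mul_of_nonneg_left h5 (abs_nonneg _)
      _ = |K| / n := by ring
      _ ≤ ε := h6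

/-- every point is joined to `pa` by a Lipschitz path -/
lemma exists_path (x : X) : ∃ γ : Path pa x, ∀ s t : I, dist (γ s) (γ t) ≤ 2 * |(s : ℝ) - t| := by
  obtain ⟨⟨u, v⟩, ⟨⟨h1, h2, h3⟩, hx⟩⟩ := x
  simp only at h1 h2 h3 hx
  -- a point `y` such that the segments `[pa, y]` and `[y, x]` lie in `S`
  have key : ∃ y : X, (∀ t : ℝ, 0 ≤ t → t ≤ 1 →
      ((1 - t) * (pa : X).1.1 + t * y.1.1, (1 - t) * (pa : X).1.2 + t * y.1.2) ∈ S) ∧
      (∀ t : ℝ, 0 ≤ t → t ≤ 1 →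
      ((1 - t) * y.1.1 + t * u, (1 - t) * y.1.2 + t * v) ∈ S) := by
    rcases hx with hx | hx | ⟨k, hx | hx⟩
    · refine ⟨⟨(0, v), ⟨⟨le_refl _, ?_, h3⟩, Or.inl rfl⟩⟩, ?_, ?_⟩
      · exact h1.trans h2
      · intro t ht0 ht1
        refine ⟨⟨?_, ?_, ?_⟩, Or.inl ?_⟩ <;> simp only [pa] <;> nlinarith
      · intro t ht0 ht1
        refine ⟨⟨?_, ?_, ?_⟩, Or.inl ?_⟩ <;> simp only [hx] <;> nlinarith
    · refine ⟨⟨(0, 1), ⟨⟨le_refl _, ?_, le_refl _⟩, Or.inl rfl⟩⟩, ?_, ?_⟩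
      · norm_num
      · intro t ht0 ht1
        refine ⟨⟨?_, ?_, ?_⟩, Or.inl ?_⟩ <;> simp only [pa] <;> nlinarith
      · intro t ht0 ht1
        refine ⟨⟨?_, ?_, ?_⟩, Or.inr (Or.inl ?_)⟩ <;> simp only [hx] <;> nlinarith
    · obtain ⟨hk1, hk2, hk3⟩ := hx
      simp only at hk2 hk3
      refine ⟨⟨(u, v), ⟨⟨h1, h2, h3⟩, Or.inr (Or.inr ⟨k, Or.inl ⟨hk1, hk2, hk3⟩⟩)⟩⟩, ?_, ?_⟩
      · intro t ht0 ht1
        refine ⟨⟨?_, ?_, ?_⟩, Or.inr (Or.inr ⟨k, Or.inl ⟨hk1, ?_, ?_⟩⟩)⟩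
        · simp only [pa]; nlinarith
        · simp only [pa]; nlinarith
        · simp only [pa]; nlinarith
        · simp only [pa]; linear_combination t * hk2
        · rcases hk3 with hk3 | hk3
          · left; simp only [pa]; nlinarith
          · right; exact hk3
      · intro t ht0 ht1
        have e1 : (1 - t) * u + t * u = u := by ring
        have e2 : (1 - t) * v + t * v = v := by ring
        simp only [e1, e2]
        exact ⟨⟨h1, h2, h3⟩, Or.inr (Or.inr ⟨k, Or.inl ⟨hk1, hk2, hk3⟩⟩)⟩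
    · obtain ⟨hk1, hk2, hk3, hk4, hk5⟩ := hx
      simp only at hk3 hk4 hk5
      have hkpos : (1 : ℝ) ≤ k := by exact_mod_cast hk1
      have hk0 : (0 : ℝ) < k := by linarith
      have hv0 : 0 ≤ v := h1.trans h2
      have hv34 : v ≤ 3 / 4 := by rw [hk3]; exact h_le k
      have huk : u ≤ v / k := by rw [le_div_iff₀ hk0]; linarith
      have hvk : v / k ≤ v := div_le_self hv0 hkpos
      have hvk2 : (k : ℝ) * (v / k) = v := by field_simp
      have hvk0 : 0 ≤ v / k := div_nonneg hv0 hk0.le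
      refine ⟨⟨(v / k, v), ⟨⟨hvk0, hvk, h3⟩,
        Or.inr (Or.inr ⟨k, Or.inl ⟨hk1, hvk2, Or.inl hv34⟩⟩)⟩⟩, ?_, ?_⟩
      · intro t ht0 ht1
        refine ⟨⟨?_, ?_, ?_⟩, Or.inr (Or.inr ⟨k, Or.inl ⟨hk1, ?_, ?_⟩⟩)⟩
        · simp only [pa]; nlinarith
        · simp only [pa]; nlinarith
        · simp only [pa]; nlinarith
        · simp only [pa]; linear_combination t * hvk2
        · left; simp only [pa]; nlinarith
      · intro t ht0 ht1
        have e2 : (1 - t) * v + t * v = v := by ring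
        simp only [e2]
        refine ⟨⟨?_, ?_, h3⟩, Or.inr (Or.inr ⟨k, Or.inr ⟨hk1, hk2, hk3, ?_, ?_⟩⟩)⟩
        · change 0 ≤ (1 - t) * (v / k) + t * u
          have := mul_nonneg (sub_nonneg.2 ht1) hvk0
          have := mul_nonneg ht0 h1
          linarith
        · change (1 - t) * (v / k) + t * u ≤ v
          nlinarith
        · change v ≤ ((k : ℝ) + 1) * ((1 - t) * (v / k) + t * u)
          have e3 : ((k : ℝ) + 1) * ((1 - t) * (v / k) + t * u) =
            (1 - t) * ((k : ℝ) * (v / k) + v / k) + t * (((k : ℝ) + 1) * u) := by ring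
          rw [e3, hvk2]
          nlinarith
        · change (k : ℝ) * ((1 - t) * (v / k) + t * u) ≤ v
          have e3 : (k : ℝ) * ((1 - t) * (v / k) + t * u) =
            (1 - t) * ((k : ℝ) * (v / k)) + t * ((k : ℝ) * u) := by ring
          rw [e3, hvk2]
          nlinarith
  obtain ⟨y, hy1, hy2⟩ := key
  obtain ⟨γ, _, hγ⟩ := exists_seg pa y hy1
  obtain ⟨δ, _, hδ⟩ := exists_seg y ⟨(u, v), ⟨⟨h1, h2, h3⟩, hx⟩⟩ hy2
  refine ⟨γ.trans δ, ?_⟩
  have := lip_trans γ δ 1 zero_le_one hγ hδ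
  simpa using this

instance : PathConnectedSpace X := by
  refine ⟨⟨pa⟩, fun x y => ?_⟩
  obtain ⟨γ, _⟩ := exists_path x
  obtain ⟨δ, _⟩ := exists_path y
  exact ⟨γ.symm.trans δ⟩

/-- `X` is uniformly pathwise connected -/
theorem upc : ∀ a b : X, ∃ P : Set (Path a b),
          (∀ ε : ℝ, ε > 0 → ∃ n : ℕ, ∀ p ∈ P, ∃ t : Fin (n + 1) → unitInterval,
              t 0 = 0 ∧ t (Fin.last n) = 1 ∧ StrictMono t ∧
              ∀ i : Fin n, Metric.diam (⇑p '' Set.Icc (t i.castSucc) (t i.succ)) ≤ ε) ∧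
          (⋃ p ∈ P, Set.range ⇑p) = Set.univ := by
  intro a b
  refine ⟨{p | ∀ s t : I, dist (p s) (p t) ≤ 8 * |(s : ℝ) - t|}, ?_, ?_⟩
  · intro ε hε
    obtain ⟨n, hn⟩ := subdiv (x := a) (y := b) 8 ε hε
    exact ⟨n, fun p hp => hn p hp⟩
  · rw [eq_univ_iff_forall]
    intro z
    obtain ⟨γa, ha⟩ := exists_path a
    obtain ⟨γb, hb⟩ := exists_path b
    obtain ⟨γz, hz⟩ := exists_path z
    have e1 := lip_trans γa.symm γz 2 zero_le_two (lip_symm γa 2 ha) hz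
    have e2 := lip_trans γz.symm γb 2 zero_le_two (lip_symm γz 2 hz) hb
    have e3 := lip_trans (γa.symm.trans γz) (γz.symm.trans γb) (2 * 2) (by norm_num) e1 e2
    rw [mem_iUnion₂]
    refine ⟨(γa.symm.trans γz).trans (γz.symm.trans γb), ?_, ?_⟩
    · intro s t
      have := e3 s t
      norm_num at this
      exact this
    · refine ⟨⟨1 / 2, by norm_num, by norm_num⟩, ?_⟩
      rw [Path.trans_apply]
      norm_num

/-! ### separation -/

/-- the cut point on the connector `k` -/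
def IsZ (k : ℕ) (z : X) : Prop := z.1.2 = h k ∧ 2 * z.1.2 = (2 * (k : ℝ) + 1) * z.1.1

/-- the part of the block `[N, 2N)` before the cut point number `k` -/
def V (N k : ℕ) : Set X := {p | 2 * p.1.2 < (2 * (k : ℝ) + 1) * p.1.1 ∧
  (2 * (N : ℝ) - 1) * p.1.1 < 2 * p.1.2 ∧ p.1.2 < 7 / 8}

lemma isOpen_V (N k : ℕ) : IsOpen (V N k) := by
  have h1 : V N k = {p : X | 2 * p.1.2 < (2 * (k : ℝ) + 1) * p.1.1} ∩
      ({p : X | (2 * (N : ℝ) - 1) * p.1.1 < 2 * p.1.2} ∩ {p : X | p.1.2 < 7 / 8}) := by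
    ext p; simp only [V, mem_inter_iff, mem_ofPred_eq]
  rw [h1]
  exact (isOpen_lt (by fun_prop) (by fun_prop)).inter
    ((isOpen_lt (by fun_prop) (by fun_prop)).inter (isOpen_lt (by fun_prop) (by fun_prop)))

/-- closed set containing `V` -/
def W (N k : ℕ) : Set X := {p | 2 * p.1.2 ≤ (2 * (k : ℝ) + 1) * p.1.1 ∧
  (2 * (N : ℝ) - 1) * p.1.1 ≤ 2 * p.1.2 ∧ p.1.2 ≤ 3 / 4}

lemma isClosed_W (N k : ℕ) : IsClosed (W N k) := by
  have h1 : W N k = {p : X | 2 * p.1.2 ≤ (2 * (k : ℝ) + 1) * p.1.1} ∩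
      ({p : X | (2 * (N : ℝ) - 1) * p.1.1 ≤ 2 * p.1.2} ∩ {p : X | p.1.2 ≤ 3 / 4}) := by
    ext p; simp only [W, mem_inter_iff, mem_ofPred_eq]
  rw [h1]
  exact (isClosed_le (by fun_prop) (by fun_prop)).inter
    ((isClosed_le (by fun_prop) (by fun_prop)).inter (isClosed_le (by fun_prop) (by fun_prop)))

lemma not_P2 {m k : ℕ} (h1 : 2 ^ m ≤ k) (h2 : k + 1 < 2 ^ (m + 1)) : ¬ P2 k := by
  rintro ⟨r, hr⟩
  rw [hr] at h2
  have h3 : 2 ^ m < 2 ^ r := by omega
  have h4 := (Nat.pow_lt_pow_iff_right (by norm_num : 1 < 2)).1 h2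
  have h5 := (Nat.pow_lt_pow_iff_right (by norm_num : 1 < 2)).1 h3
  omega

lemma V_subset_W {m k : ℕ} (h2 : k + 1 < 2 ^ (m + 1)) : V (2 ^ m) k ⊆ W (2 ^ m) k := by
  rintro ⟨⟨u, v⟩, ⟨⟨b1, b2, b3⟩, hS⟩⟩ ⟨hv1, hv2, hv3⟩
  refine ⟨hv1.le, hv2.le, ?_⟩
  simp only at b1 b2 b3 hS hv1 hv2 hv3 ⊢
  push_cast at hv2
  rcases hS with hS | hS | ⟨j, hS | hS⟩
  · rw [hS] at hv1; nlinarith
  · linarith
  · obtain ⟨c1, c2, c3⟩ := hS
    simp only at c2 c3
    have hu : 0 < u := by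
      rcases b1.lt_or_eq with h | h
      · exact h
      · rw [← h] at hv1 c2; nlinarith
    have j1 : 2 * (j : ℝ) < 2 * k + 1 := by
      rw [← c2] at hv1
      have : (2 * (j : ℝ)) * u < (2 * k + 1) * u := by linarith
      exact lt_of_mul_lt_mul_right this hu.le
    have j2 : 2 * (2 : ℝ) ^ m - 1 < 2 * j := by
      rw [← c2] at hv2
      have : (2 * (2 : ℝ) ^ m - 1) * u < (2 * j) * u := by linarith
      exact lt_of_mul_lt_mul_right this hu.le
    have j3 : 2 * j < 2 * k + 1 := by exact_mod_cast j1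
    have j4 : 2 * 2 ^ m < 2 * j + 1 := by
      have : 2 * (2 : ℝ) ^ m < 2 * j + 1 := by linarith
      exact_mod_cast this
    rcases c3 with c3 | c3
    · exact c3
    · exact absurd c3 (not_P2 (m := m) (by omega) (by omega))
  · have := hS.2.2.1
    simp only at this
    rw [this]; exact h_le j

lemma W_cases {m k : ℕ} (p : X) (hp : p ∈ W (2 ^ m) k) :
    p ∈ V (2 ^ m) k ∨ p = pa ∨ IsZ k p := by
  obtain ⟨⟨u, v⟩, ⟨⟨b1, b2, b3⟩, hS⟩⟩ := p
  obtain ⟨w1, w2, w3⟩ := hp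
  simp only at b1 b2 b3 hS w1 w2 w3
  push_cast at w2
  have hzero : u = 0 → (⟨(u, v), ⟨⟨b1, b2, b3⟩, hS⟩⟩ : X) = pa := by
    intro hu
    have hv : v = 0 := by rw [hu] at w1; nlinarith
    apply Subtype.ext
    simp only [pa, hu, hv]
  rcases hS with hS' | hS' | ⟨j, hS' | hS'⟩
  · exact Or.inr (Or.inl (hzero hS'))
  · linarith
  · by_cases hu0 : u = 0
    · exact Or.inr (Or.inl (hzero hu0))
    have hu : 0 < u := lt_of_le_of_ne b1 (Ne.symm hu0)
    obtain ⟨c1, c2, c3⟩ := hS'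
    simp only at c2 c3
    left
    have j1 : 2 * (j : ℝ) ≤ 2 * k + 1 := by
      rw [← c2] at w1
      have : (2 * (j : ℝ)) * u ≤ (2 * k + 1) * u := by linarith
      exact le_of_mul_le_mul_right this hu
    have j2 : 2 * (2 : ℝ) ^ m - 1 ≤ 2 * j := by
      rw [← c2] at w2
      have : (2 * (2 : ℝ) ^ m - 1) * u ≤ (2 * j) * u := by linarith
      exact le_of_mul_le_mul_right this hu
    have j3 : 2 * j ≤ 2 * k + 1 := by exact_mod_cast j1
    have j4 : 2 * 2 ^ m ≤ 2 * j + 1 := by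
      have : 2 * (2 : ℝ) ^ m ≤ 2 * j + 1 := by linarith
      exact_mod_cast this
    have j5 : 2 * j + 1 ≤ 2 * k + 1 := by omega
    have j6 : 2 * 2 ^ m ≤ 2 * j := by omega
    have j7 : 2 * (j : ℝ) + 1 ≤ 2 * k + 1 := by exact_mod_cast j5
    have j8 : 2 * (2 : ℝ) ^ m ≤ 2 * j := by exact_mod_cast j6
    refine ⟨?_, ?_, ?_⟩
    · change 2 * v < (2 * (k : ℝ) + 1) * u
      nlinarith
    · change (2 * ((2 ^ m : ℕ) : ℝ) - 1) * u < 2 * v
      push_cast
      nlinarith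
    · change v < 7 / 8
      linarith
  · obtain ⟨c1, c2, c3, c4, c5⟩ := hS'
    simp only at c3 c4 c5
    have hv : 0 < v := by rw [c3]; linarith [h_pos j]
    have hu : 0 < u := by
      by_contra hcon
      have : u = 0 := le_antisymm (not_lt.1 hcon) b1
      rw [this] at c4; linarith
    by_cases e1 : 2 * v = (2 * (k : ℝ) + 1) * u
    · right; right
      have j1 : 2 * (j : ℝ) ≤ 2 * k + 1 := by
        have : (2 * (j : ℝ)) * u ≤ (2 * k + 1) * u := by linarith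
        exact le_of_mul_le_mul_right this hu
      have j2 : 2 * (k : ℝ) + 1 ≤ 2 * j + 2 := by
        have : (2 * (k : ℝ) + 1) * u ≤ (2 * j + 2) * u := by linarith
        exact le_of_mul_le_mul_right this hu
      have j3 : 2 * j ≤ 2 * k + 1 := by exact_mod_cast j1
      have j4 : 2 * k + 1 ≤ 2 * j + 2 := by exact_mod_cast j2
      have j5 : j = k := by omega
      subst j5
      exact ⟨c3, e1⟩
    · by_cases e2 : (2 * (2 : ℝ) ^ m - 1) * u = 2 * v
      · exfalso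
        have j1 : 2 * (j : ℝ) ≤ 2 * (2 : ℝ) ^ m - 1 := by
          have : (2 * (j : ℝ)) * u ≤ (2 * (2 : ℝ) ^ m - 1) * u := by linarith
          exact le_of_mul_le_mul_right this hu
        have j2 : 2 * (2 : ℝ) ^ m - 1 ≤ 2 * j + 2 := by
          have : (2 * (2 : ℝ) ^ m - 1) * u ≤ (2 * j + 2) * u := by linarith
          exact le_of_mul_le_mul_right this hu
        have j3 : 2 * j + 1 ≤ 2 * 2 ^ m := by
          have : 2 * (j : ℝ) + 1 ≤ 2 * (2 : ℝ) ^ m := by linarith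
          exact_mod_cast this
        have j4 : 2 * 2 ^ m ≤ 2 * j + 3 := by
          have : 2 * (2 : ℝ) ^ m ≤ 2 * j + 3 := by linarith
          exact_mod_cast this
        exact c2 ⟨m, by omega⟩
      · left
        refine ⟨lt_of_le_of_ne w1 e1, ?_, ?_⟩
        · change (2 * ((2 ^ m : ℕ) : ℝ) - 1) * u < 2 * v
          push_cast
          exact lt_of_le_of_ne w2 e2
        · change v < 7 / 8
          linarith

lemma closure_V {m k : ℕ} (h2 : k + 1 < 2 ^ (m + 1)) (p : X)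
    (hp : p ∈ closure (V (2 ^ m) k)) : p ∈ V (2 ^ m) k ∨ p = pa ∨ IsZ k p :=
  W_cases p ((closure_minimal (V_subset_W h2) (isClosed_W _ _)) hp)

/-- crossing lemma -/
lemma crossing {m k : ℕ} (h2 : k + 1 < 2 ^ (m + 1)) (q : I → X) (hq : Continuous q) (u v : I)
    (huv : u ≤ v) (hu : q u ∈ V (2 ^ m) k) (hv : q v ∉ V (2 ^ m) k)
    (hpa : ∀ s ∈ Icc u v, q s ≠ pa) : ∃ s ∈ Icc u v, IsZ k (q s) := by
  by_contra hcon
  push Not at hcon
  have hsplit : ∀ s ∈ Icc u v, q s ∈ closure (V (2 ^ m) k) → q s ∈ V (2 ^ m) k := by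
    intro s hs hcl
    rcases closure_V h2 _ hcl with h | h | h
    · exact h
    · exact absurd h (hpa s hs)
    · exact absurd h (hcon s hs)
  have hpre : IsPreconnected (Icc u v) := isPreconnected_Icc
  have := hpre (q ⁻¹' (V (2 ^ m) k)) (q ⁻¹' (closure (V (2 ^ m) k))ᶜ)
    ((isOpen_V _ _).preimage hq) (isClosed_closure.isOpen_compl.preimage hq)
    (by
      intro s hs
      by_cases hc : q s ∈ closure (V (2 ^ m) k)
      · left; exact hsplit s hs hc
      · right; exact hc)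
    ⟨u, left_mem_Icc.2 huv, hu⟩
    ⟨v, right_mem_Icc.2 huv, fun hc => hv (hsplit v (right_mem_Icc.2 huv) hc)⟩
  obtain ⟨s, _, hs1, hs2⟩ := this
  exact hs2 (subset_closure hs1)

/-! ### the snake -/

lemma inj_trans {Y : Type} [TopologicalSpace Y] {x y z : Y} (γ : Path x y) (δ : Path y z)
    (hγ : Function.Injective γ) (hδ : Function.Injective δ)
    (hi : ∀ s t : I, γ s = δ t → γ s = y) : Function.Injective (γ.trans δ) := by
  have key : ∀ s t : I, (s : ℝ) ≤ t → γ.trans δ s = γ.trans δ t → s = t := by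
    intro s t hst heq
    rw [Path.trans_apply, Path.trans_apply] at heq
    split_ifs at heq with h1 h2 h2
    · have := congrArg Subtype.val (hγ heq)
      simp only at this
      apply Subtype.ext; linarith
    · have e1 := hi _ _ heq
      have e3 := heq.symm.trans e1
      have e4 := congrArg Subtype.val (hδ (e3.trans δ.source.symm))
      simp only [Icc.coe_zero] at e4
      exact absurd (by linarith : (t : ℝ) ≤ 1 / 2) h2
    · exact absurd (hst.trans h2) h1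
    · have := congrArg Subtype.val (hδ heq)
      simp only at this
      apply Subtype.ext; linarith
  intro s t heq
  rcases le_total (s : ℝ) t with h1 | h1
  · exact key s t h1 heq
  · exact (key t s h1 heq.symm).symm

lemma seg_inj (x y : X) (hs : ∀ t : ℝ, 0 ≤ t → t ≤ 1 →
    ((1 - t) * x.1.1 + t * y.1.1, (1 - t) * x.1.2 + t * y.1.2) ∈ S)
    (hne : x.1.1 ≠ y.1.1 ∨ x.1.2 ≠ y.1.2) :
    ∃ γ : Path x y, Function.Injective γ ∧
      ∀ s : I, (γ s).1 = ((1 - (s : ℝ)) * x.1.1 + s * y.1.1,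
      (1 - (s : ℝ)) * x.1.2 + s * y.1.2) := by
  obtain ⟨γ, h1, _⟩ := exists_seg x y hs
  refine ⟨γ, ?_, h1⟩
  intro s t hst
  have h2 := congrArg Subtype.val hst
  rw [h1 s, h1 t, Prod.mk.injEq] at h2
  apply Subtype.ext
  rcases hne with hne | hne
  · have e : (y.1.1 - x.1.1) * ((s : ℝ) - t) = 0 := by linarith [h2.1]
    rcases mul_eq_zero.1 e with e | e
    · exact absurd (by linarith) hne
    · linarith
  · have e : (y.1.2 - x.1.2) * ((s : ℝ) - t) = 0 := by linarith [h2.2]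
    rcases mul_eq_zero.1 e with e | e
    · exact absurd (by linarith) hne
    · linarith

lemma mem_ray {k : ℕ} {u v : ℝ} (hk : 1 ≤ k) (hu : (k : ℝ) * u = v) (hv0 : 0 ≤ v) (hv1 : v ≤ 1)
    (hc : v ≤ 3 / 4 ∨ P2 k) : ((u, v) : ℝ × ℝ) ∈ S := by
  have hk1 : (1 : ℝ) ≤ k := by exact_mod_cast hk
  have hu0 : 0 ≤ u := by
    by_contra hcon
    push Not at hcon
    nlinarith
  refine ⟨⟨hu0, ?_, hv1⟩, Or.inr (Or.inr ⟨k, Or.inl ⟨hk, hu, hc⟩⟩)⟩
  change u ≤ v
  nlinarith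

lemma mem_con {k : ℕ} {u v : ℝ} (hk : 1 ≤ k) (hP : ¬ P2 k) (hv : v = h k)
    (h1 : v ≤ ((k : ℝ) + 1) * u) (h2 : (k : ℝ) * u ≤ v) : ((u, v) : ℝ × ℝ) ∈ S := by
  have hk1 : (1 : ℝ) ≤ k := by exact_mod_cast hk
  have hv0 : 0 < v := by rw [hv]; linarith [h_pos k]
  have hv1 : v ≤ 3 / 4 := by rw [hv]; exact h_le k
  have hu0 : 0 ≤ u := by
    by_contra hcon
    push Not at hcon
    nlinarith
  refine ⟨⟨hu0, ?_, ?_⟩, Or.inr (Or.inr ⟨k, Or.inr ⟨hk, hP, hv, h1, h2⟩⟩)⟩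
  · change u ≤ v
    nlinarith
  · change v ≤ 1
    linarith

/-- first extension: from the top of the ray `k` along the connector `k` -/
lemma ext1 {k : ℕ} (hk : 1 ≤ k) (hP : ¬ P2 k) (x0 : X) (e : X) (he : e.1 = (h k / k, h k))
    (γ : Path pa e) (hγ : Function.Injective γ)
    (hle : ∀ s, (γ s).1.2 ≤ (k : ℝ) * (γ s).1.1) (hx : x0 ∈ range γ) :
    ∃ c : X, c.1 = (h k / (k + 1), h k) ∧ ∃ δ : Path pa c, Function.Injective δ ∧
      (∀ s, (δ s).1.2 < ((k : ℝ) + 1) * (δ s).1.1 ∨ δ s = c ∨ δ s = pa) ∧ x0 ∈ range δ := by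
  have hk1 : (1 : ℝ) ≤ k := by exact_mod_cast hk
  have hk0 : (0 : ℝ) < k := by linarith
  have hh := h_pos k
  have a1 : ((k : ℝ) + 1) * (h k / (k + 1)) = h k := by field_simp
  have a2 : (k : ℝ) * (h k / k) = h k := by field_simp
  have a3 : h k / ((k : ℝ) + 1) < h k / k := by
    apply div_lt_div_of_pos_left (by linarith) hk0 (by linarith)
  have a4 : 0 < h k / ((k : ℝ) + 1) := by positivity
  have a5 : 0 < h k / (k : ℝ) := by positivity
  have hmem : ((h k / ((k : ℝ) + 1), h k) : ℝ × ℝ) ∈ S := by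
    refine mem_con hk hP rfl a1.ge ?_
    have : (k : ℝ) * (h k / (k + 1)) ≤ (k : ℝ) * (h k / k) :=
      mul_le_mul_of_nonneg_left a3.le hk0.le
    linarith
  have he1 : e.1.1 = h k / k := by rw [he]
  have he2 : e.1.2 = h k := by rw [he]
  obtain ⟨ρ, r1, r2⟩ := seg_inj e ⟨_, hmem⟩ (by
    intro t ht0 ht1
    rw [he1, he2]
    refine mem_con hk hP ?_ ?_ ?_
    · ring
    · have : ((k : ℝ) + 1) * ((1 - t) * (h k / k) + t * (h k / (k + 1))) =
        (1 - t) * ((k : ℝ) * (h k / k) + h k / k) + t * (((k : ℝ) + 1) * (h k / (k + 1))) := by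
        ring
      change (1 - t) * h k + t * h k ≤ ((k : ℝ) + 1) * ((1 - t) * (h k / k) + t * (h k / (k + 1)))
      rw [this, a1, a2]
      nlinarith
    · have : (k : ℝ) * ((1 - t) * (h k / k) + t * (h k / (k + 1))) =
        (1 - t) * ((k : ℝ) * (h k / k)) + t * (((k : ℝ) + 1) * (h k / (k + 1)) - h k / (k + 1)) := by
        ring
      change (k : ℝ) * ((1 - t) * (h k / k) + t * (h k / (k + 1))) ≤ (1 - t) * h k + t * h k
      rw [this, a1, a2]
      nlinarith) (by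
    left
    rw [he1]
    exact a3.ne')
  have r3 : ∀ s, (ρ s).1.1 = (1 - (s : ℝ)) * (h k / k) + s * (h k / (k + 1)) := by
    intro s; rw [r2 s, he1]
  have r4 : ∀ s, (ρ s).1.2 = h k := by
    intro s; rw [r2 s, he2]; change (1 - (s : ℝ)) * h k + s * h k = h k; ring
  refine ⟨⟨_, hmem⟩, rfl, γ.trans ρ, ?_, ?_, ?_⟩
  · refine inj_trans γ ρ hγ r1 ?_
    intro s t hst
    have g1 := hle s
    rw [hst, r3, r4] at g1
    have e1 : (k : ℝ) * ((1 - (t : ℝ)) * (h k / k) + t * (h k / (k + 1))) =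
        (1 - (t : ℝ)) * ((k : ℝ) * (h k / k)) +
          t * (((k : ℝ) + 1) * (h k / (k + 1)) - h k / (k + 1)) := by
        ring
    rw [e1, a1, a2] at g1
    have ht : (t : ℝ) = 0 := by
      have := t.2.1
      by_contra hne
      have : 0 < (t : ℝ) := lt_of_le_of_ne this (Ne.symm hne)
      nlinarith
    have ht' : t = 0 := Subtype.ext ht
    rw [hst, ht', ρ.source]
  · intro s
    rw [Path.trans_apply]
    split_ifs with h1
    · generalize (⟨2 * (s : ℝ), (unitInterval.mul_pos_mem_iff zero_lt_two).2 ⟨s.2.1, h1⟩⟩ : I) = s'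
      have g1 := hle s'
      have g2 := (γ s').2.1.1
      rcases g2.lt_or_eq with g3 | g3
      · left; nlinarith
      · right; right
        apply Subtype.ext
        have g4 := (γ s').2.1.2.1
        have g5 : (γ s').1.2 = 0 := by
          rw [← g3] at g1 g4
          exact le_antisymm (by linarith) g4
        exact Prod.ext g3.symm g5
    · generalize (⟨2 * (s : ℝ) - 1, unitInterval.two_mul_sub_one_mem_iff.2
        ⟨(not_le.1 h1).le, s.2.2⟩⟩ : I) = t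
      rcases t.2.2.lt_or_eq with g3 | g3
      · left
        rw [r3, r4]
        have : ((k : ℝ) + 1) * ((1 - (t : ℝ)) * (h k / k) + t * (h k / (k + 1))) =
          (1 - (t : ℝ)) * ((k : ℝ) * (h k / k) + h k / k) +
            t * (((k : ℝ) + 1) * (h k / (k + 1))) := by
          ring
        rw [this, a1, a2]
        nlinarith
      · right; left
        have : t = 1 := Subtype.ext g3
        rw [this, ρ.target]
  · rw [Path.trans_range]; exact Or.inl hx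

/-- second extension: along the ray `k`, from height `h (k-1)` to any height -/
lemma ext2 {k : ℕ} (hk : 1 ≤ k) (x0 : X) (c : X) (hc : (k : ℝ) * c.1.1 = c.1.2) (hc0 : 0 < c.1.2)
    (γ : Path pa c) (hγ : Function.Injective γ)
    (hle : ∀ s, (γ s).1.2 < (k : ℝ) * (γ s).1.1 ∨ γ s = c ∨ γ s = pa) (hx : x0 ∈ range γ)
    (e : X) (he : (k : ℝ) * e.1.1 = e.1.2) (he0 : 0 < e.1.2) (hne : c.1.2 ≠ e.1.2)
    (h34 : (c.1.2 ≤ 3 / 4 ∧ e.1.2 ≤ 3 / 4) ∨ P2 k) :
    ∃ δ : Path pa e, Function.Injective δ ∧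
      (∀ s, (δ s).1.2 ≤ (k : ℝ) * (δ s).1.1) ∧ x0 ∈ range δ := by
  have hk1 : (1 : ℝ) ≤ k := by exact_mod_cast hk
  have hk0 : (0 : ℝ) < k := by linarith
  have hc1 := c.2.1.2.2
  have he1 := e.2.1.2.2
  obtain ⟨ρ, r1, r2⟩ := seg_inj c e (by
    intro t ht0 ht1
    refine mem_ray hk ?_ ?_ ?_ ?_
    · rw [← hc, ← he]; ring
    · nlinarith
    · nlinarith
    · rcases h34 with h34 | h34
      · left; nlinarith [h34.1, h34.2]
      · right; exact h34) (Or.inr hne)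
  have r3 : ∀ s, (ρ s).1.2 = (k : ℝ) * (ρ s).1.1 := by
    intro s; rw [r2 s]
    change (1 - (s : ℝ)) * c.1.2 + s * e.1.2 = k * ((1 - (s : ℝ)) * c.1.1 + s * e.1.1)
    rw [← hc, ← he]; ring
  have r4 : ∀ s, 0 < (ρ s).1.2 := by
    intro s; rw [r2 s]
    change 0 < (1 - (s : ℝ)) * c.1.2 + s * e.1.2
    have := s.2.1
    have := s.2.2
    rcases s.2.1.lt_or_eq with g | g
    · have := mul_pos g he0
      have := mul_nonneg (sub_nonneg.2 s.2.2) hc0.le
      linarith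
    · rw [← g]; linarith
  refine ⟨γ.trans ρ, ?_, ?_, ?_⟩
  · refine inj_trans γ ρ hγ r1 ?_
    intro s t hst
    rcases hle s with g | g | g
    · rw [hst, r3] at g; exact absurd g (lt_irrefl _)
    · exact g
    · have := r4 t
      rw [← hst, g] at this
      exact absurd this (lt_irrefl _)
  · intro s
    rw [Path.trans_apply]
    split_ifs with h1
    · rcases hle ⟨2 * (s : ℝ), (unitInterval.mul_pos_mem_iff zero_lt_two).2 ⟨s.2.1, h1⟩⟩
        with g | g | g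
      · exact g.le
      · rw [g]; exact hc.ge
      · rw [g]; simp [pa]
    · exact (r3 _).le
  · rw [Path.trans_range]; exact Or.inl hx

lemma e_mem {k : ℕ} (hk : 1 ≤ k) : ((h k / k, h k) : ℝ × ℝ) ∈ S := by
  have hk1 : (1 : ℝ) ≤ k := by exact_mod_cast hk
  have hh := h_pos k
  have hh2 := h_le k
  exact mem_ray hk (by field_simp) (by linarith) (by linarith) (Or.inl hh2)

/-- the point at height `1/8` on the ray `k` -/
noncomputable def x8 (k : ℕ) (hk : 1 ≤ k) : X := ⟨((1 / 8) / k, 1 / 8), by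
  have hk1 : (1 : ℝ) ≤ k := by exact_mod_cast hk
  exact mem_ray hk (by field_simp) (by norm_num) (by norm_num) (Or.inl (by norm_num))⟩

lemma snake {m : ℕ} (hm : 1 ≤ m) (j : ℕ) (hj : 2 ^ m + j + 1 < 2 ^ (m + 1)) :
    ∃ c : X, c.1 = (h (2 ^ m + j) / (((2 ^ m + j : ℕ) : ℝ) + 1), h (2 ^ m + j)) ∧
      ∃ δ : Path pa c, Function.Injective δ ∧
      (∀ s, (δ s).1.2 < (((2 ^ m + j : ℕ) : ℝ) + 1) * (δ s).1.1 ∨ δ s = c ∨ δ s = pa) ∧
      x8 (2 ^ m) Nat.one_le_two_pow ∈ range δ := by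
  have h2m : 1 ≤ 2 ^ m := Nat.one_le_two_pow
  induction j with
  | zero =>
    have hk : 1 ≤ 2 ^ m + 0 := by omega
    have heven : Even (2 ^ m + 0) := by
      rw [add_zero, Nat.even_pow]; exact ⟨by norm_num, by omega⟩
    have hh := h_pos (2 ^ m + 0)
    have hk1 : (1 : ℝ) ≤ ((2 ^ m + 0 : ℕ) : ℝ) := by exact_mod_cast hk
    have hk0 : (0 : ℝ) < ((2 ^ m + 0 : ℕ) : ℝ) := by linarith
    have a2 : ((2 ^ m + 0 : ℕ) : ℝ) * (h (2 ^ m + 0) / ((2 ^ m + 0 : ℕ) : ℝ)) = h (2 ^ m + 0) := by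
      field_simp
    obtain ⟨γ, g1, g2⟩ := seg_inj pa ⟨_, e_mem hk⟩ (by
      intro t ht0 ht1
      refine mem_ray hk ?_ ?_ ?_ (Or.inl ?_)
      · simp only [pa]; linear_combination t * a2
      · simp only [pa]; nlinarith
      · simp only [pa]; nlinarith [h_le (2 ^ m + 0)]
      · simp only [pa]; nlinarith [h_le (2 ^ m + 0)]) (by
      right
      change (0 : ℝ) ≠ h (2 ^ m + 0)
      linarith)
    refine ext1 hk (not_P2 (m := m) (by omega) hj) _ _ rfl γ g1 ?_ ?_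
    · intro s
      rw [g2 s]
      simp only [pa]
      refine le_of_eq ?_
      linear_combination (-(s : ℝ)) * a2
    · refine ⟨⟨1 / 2, by norm_num, by norm_num⟩, ?_⟩
      apply Subtype.ext
      rw [g2]
      simp only [pa, x8]
      rw [h_even heven]
      apply Prod.ext
      · push_cast; ring
      · norm_num
  | succ j ih =>
    obtain ⟨c, hc, δ, d1, d2, d3⟩ := ih (by omega)
    have hk : 1 ≤ 2 ^ m + (j + 1) := by omega
    have hcast : (((2 ^ m + j : ℕ) : ℝ) + 1) = ((2 ^ m + (j + 1) : ℕ) : ℝ) := by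
      push_cast; ring
    rw [hcast] at hc d2
    have hk1 : (1 : ℝ) ≤ ((2 ^ m + (j + 1) : ℕ) : ℝ) := by exact_mod_cast hk
    have hk0 : (0 : ℝ) < ((2 ^ m + (j + 1) : ℕ) : ℝ) := by linarith
    have hh1 := h_pos (2 ^ m + j)
    have hh2 := h_pos (2 ^ m + (j + 1))
    have hs := h_succ (2 ^ m + j)
    obtain ⟨ρ, r1, r2, r3⟩ := ext2 hk _ c (by rw [hc]; field_simp) (by rw [hc]; linarith) δ d1 d2
      d3 ⟨_, e_mem hk⟩ (by field_simp) (by simp only; linarith) (by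
        rw [hc]
        intro heq
        have : h (2 ^ m + j) = h (2 ^ m + j + 1) := heq
        rw [this, sub_self, abs_zero] at hs
        norm_num at hs) (Or.inl ⟨by rw [hc]; exact h_le _, h_le _⟩)
    exact ext1 hk (not_P2 (m := m) (by omega) hj) _ _ rfl ρ r1 r2 r3

/-- there is an arc from `pa` to `pb` through the point at height `1/8` of the ray `2^m` -/
lemma exists_arc {m : ℕ} (hm : 1 ≤ m) : ∃ q : Path pa pb, Function.Injective q ∧
    x8 (2 ^ m) Nat.one_le_two_pow ∈ range q := by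
  have h2m : 2 ≤ 2 ^ m := by
    calc 2 = 2 ^ 1 := by norm_num
      _ ≤ 2 ^ m := Nat.pow_le_pow_right (by norm_num) hm
  have h2m1 : 2 ^ (m + 1) = 2 * 2 ^ m := by ring
  obtain ⟨c, hc, δ, d1, d2, d3⟩ := snake hm (2 ^ m - 2) (by omega)
  have hkk : 2 ^ m + (2 ^ m - 2) + 1 = 2 ^ (m + 1) - 1 := by omega
  have hcast : (((2 ^ m + (2 ^ m - 2) : ℕ) : ℝ) + 1) = ((2 ^ (m + 1) - 1 : ℕ) : ℝ) := by
    rw [← hkk]; push_cast; ring
  rw [hcast] at hc d2
  generalize hK : 2 ^ (m + 1) - 1 = K at hc d2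
  have hk : 1 ≤ K := by omega
  have hP : P2 K := ⟨m + 1, by omega⟩
  have hk1 : (1 : ℝ) ≤ (K : ℝ) := by exact_mod_cast hk
  have hk0 : (0 : ℝ) < (K : ℝ) := by linarith
  have hh1 := h_pos (2 ^ m + (2 ^ m - 2))
  have hh2 := h_le (2 ^ m + (2 ^ m - 2))
  have hdmem : ((1 / (K : ℝ), 1) : ℝ × ℝ) ∈ S :=
    mem_ray hk (by field_simp) (by norm_num) le_rfl (Or.inr hP)
  obtain ⟨ρ, r1, r2, r3⟩ := ext2 hk _ c (by rw [hc]; field_simp) (by rw [hc]; linarith) δ d1 d2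
      d3 ⟨_, hdmem⟩ (by field_simp) (by norm_num) (by
        rw [hc]
        intro heq
        have : h (2 ^ m + (2 ^ m - 2)) = 1 := heq
        linarith) (Or.inr hP)
  have hKinv : 0 < 1 / (K : ℝ) := by positivity
  have hKinv1 : 1 / (K : ℝ) ≤ 1 := by rw [div_le_one hk0]; exact hk1
  obtain ⟨τ, s1, s2⟩ := seg_inj ⟨_, hdmem⟩ pb (by
    intro t ht0 ht1
    refine ⟨⟨?_, ?_, ?_⟩, Or.inr (Or.inl ?_)⟩
    · simp only [pb]; nlinarith
    · simp only [pb]; nlinarith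
    · simp only [pb]; linarith
    · simp only [pb]; linarith) (by
    left
    change 1 / (K : ℝ) ≠ 0
    exact hKinv.ne')
  refine ⟨ρ.trans τ, ?_, ?_⟩
  · refine inj_trans ρ τ r1 s1 ?_
    intro s t hst
    have g1 := r2 s
    rw [hst, s2] at g1
    simp only [pb] at g1
    have e1 : (K : ℝ) * ((1 - (t : ℝ)) * (1 / (K : ℝ)) + t * 0) = 1 - t := by field_simp; ring
    rw [e1] at g1
    have ht : (t : ℝ) = 0 := by
      have := t.2.1
      linarith
    have ht' : t = 0 := Subtype.ext ht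
    rw [hst, ht', τ.source]
  · rw [Path.trans_range]; exact Or.inl r3


/-! ### counting -/

lemma x8_mem_V (m : ℕ) (k : ℕ) (hk : 2 ^ m ≤ k) : x8 (2 ^ m) Nat.one_le_two_pow ∈ V (2 ^ m) k := by
  have h0 : (0 : ℝ) < ((2 ^ m : ℕ) : ℝ) := by positivity
  have h1 : ((2 ^ m : ℕ) : ℝ) ≤ k := by exact_mod_cast hk
  have h2 : (0 : ℝ) < 1 / 8 / ((2 ^ m : ℕ) : ℝ) := by positivity
  have h3 : ((2 ^ m : ℕ) : ℝ) * (1 / 8 / ((2 ^ m : ℕ) : ℝ)) = 1 / 8 := by field_simp
  refine ⟨?_, ?_, ?_⟩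
  · change 2 * (1 / 8 : ℝ) < (2 * (k : ℝ) + 1) * (1 / 8 / ((2 ^ m : ℕ) : ℝ))
    nlinarith [mul_le_mul_of_nonneg_right h1 h2.le]
  · change (2 * ((2 ^ m : ℕ) : ℝ) - 1) * (1 / 8 / ((2 ^ m : ℕ) : ℝ)) < 2 * (1 / 8 : ℝ)
    nlinarith
  · change (1 / 8 : ℝ) < 7 / 8
    norm_num

lemma z_mem_V {m k : ℕ} (hk : 2 ^ m ≤ k) (z : X) (hz : IsZ k z) : z ∈ V (2 ^ m) (k + 1) := by
  have h1 : ((2 ^ m : ℕ) : ℝ) ≤ k := by exact_mod_cast hk
  have hh := h_pos k
  have hh2 := h_le k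
  obtain ⟨z1, z2⟩ := hz
  have hk0 : (0 : ℝ) ≤ (k : ℝ) := Nat.cast_nonneg k
  have hu : 0 < z.1.1 := by
    by_contra hcon
    push Not at hcon
    nlinarith
  refine ⟨?_, ?_, ?_⟩
  · rw [z2]; push_cast; nlinarith
  · rw [z2]; nlinarith
  · rw [z1]; linarith

lemma pb_not_mem_V (m k : ℕ) : pb ∉ V (2 ^ m) k := by
  rintro ⟨_, _, h3⟩
  have : (1 : ℝ) < 7 / 8 := h3
  norm_num at this

lemma z_dist {k : ℕ} (z w : X) (hz : IsZ k z) (hw : IsZ (k + 1) w) : 1 / 2 ≤ dist z w := by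
  have h1 : |z.1.2 - w.1.2| ≤ dist z w := by
    rw [Subtype.dist_eq, Prod.dist_eq, ← Real.dist_eq]
    exact le_max_right _ _
  rw [hz.1, hw.1, h_succ] at h1
  exact h1

lemma counting {m n : ℕ} (hmn : n + 1 < 2 ^ m) (q : Path pa pb) (hq : Function.Injective q)
    (hx : x8 (2 ^ m) Nat.one_le_two_pow ∈ range q) (t : Fin (n + 1) → I) (ht0 : t 0 = 0)
    (ht1 : t (Fin.last n) = 1)
    (hd : ∀ i : Fin n, Metric.diam (⇑q '' Set.Icc (t i.castSucc) (t i.succ)) ≤ 1 / 4) : False := by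
  obtain ⟨s0, hs0⟩ := hx
  have h2m1 : 2 ^ (m + 1) = 2 * 2 ^ m := by ring
  have hs00 : 0 < s0 := by
    rcases s0.2.1.lt_or_eq with g | g
    · exact g
    · exfalso
      have : s0 = 0 := Subtype.ext g.symm
      rw [this, q.source] at hs0
      have h3 := congrArg (fun x : X => x.1.2) hs0
      change (0 : ℝ) = 1 / 8 at h3
      norm_num at h3
  have hnpa : ∀ s : I, s0 ≤ s → q s ≠ pa := by
    intro s hs hcon
    have := hq (hcon.trans q.source.symm)
    rw [this] at hs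
    exact absurd hs (not_le.2 hs00)
  have key : ∀ j (hj : j < n + 1), ∃ u : I, s0 ≤ u ∧ IsZ (2 ^ m + j) (q u) ∧ t ⟨j, hj⟩ < u := by
    intro j
    induction j with
    | zero =>
      intro hj
      obtain ⟨u, hu, hz⟩ := crossing (m := m) (k := 2 ^ m) (by omega) q q.continuous s0 1
        s0.2.2 (by rw [hs0]; exact x8_mem_V m _ le_rfl)
        (by rw [q.target]; exact pb_not_mem_V m _) (fun s hs => hnpa s hs.1)
      refine ⟨u, hu.1, hz, ?_⟩
      have : t ⟨0, hj⟩ = 0 := ht0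
      rw [this]
      exact lt_of_lt_of_le hs00 hu.1
    | succ j ih =>
      intro hj
      obtain ⟨u, hu, hz, htu⟩ := ih (by omega)
      obtain ⟨v, hv, hzv⟩ := crossing (m := m) (k := 2 ^ m + j + 1) (by omega) q q.continuous u 1
        u.2.2 (z_mem_V (by omega) _ hz)
        (by rw [q.target]; exact pb_not_mem_V m _) (fun s hs => hnpa s (hu.trans hs.1))
      refine ⟨v, hu.trans hv.1, hzv, ?_⟩
      by_contra hcon
      push Not at hcon
      have hd' := hd ⟨j, by omega⟩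
      have hdist : dist (q u) (q v) ≤ 1 / 4 := by
        refine le_trans (Metric.dist_le_diam_of_mem ?_ ?_ ?_) hd'
        · exact (isCompact_Icc.image q.continuous).isBounded
        · exact mem_image_of_mem _ ⟨htu.le, hv.1.trans hcon⟩
        · exact mem_image_of_mem _ ⟨htu.le.trans hv.1, hcon⟩
      have := z_dist _ _ hz hzv
      linarith
  obtain ⟨u, _, _, hu⟩ := key n (by omega)
  have h1 : t ⟨n, by omega⟩ = 1 := ht1
  rw [h1] at hu
  exact absurd u.2.2 (not_le.2 hu)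

end Pool.Agent.W88.Kup
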