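import Mathlib

set_option autoImplicit false

namespace Pool.Agent.W88.LSys

open Classical

/-- One parallel rewriting step with the substitution `h`: every occurrence of every letter `c` is
replaced, independently of the other occurrences, by a word of `h c`. -/
inductive Rew {A : Type} (h : A → Set (List A)) : List A → List A → Prop
  | nil : Rew h [] []
  | cons {c : A} {x w y : List A} : w ∈ h c → Rew h x y → Rew h (c :: x) (w ++ y)

namespace Rew

variable {A : Type} {h : A → Set (List A)}

theorem mem {x y : List A} (hr : Rew h x y) {c d : A} (hc : c ∈ x) (hd : ∀ w ∈ h c, d ∈ w) :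
    d ∈ y := by
  induction hr with
  | nil => simp at hc
  | cons hw _ ih =>
    rcases List.mem_cons.mp hc with rfl | hc
    · exact List.mem_append_left _ (hd _ hw)
    · exact List.mem_append_right _ (ih hc)

theorem eq_of_id {x y : List A} (hr : Rew h x y) (hx : ∀ c ∈ x, h c = {[c]}) : y = x := by
  induction hr with
  | nil => rfl
  | @cons c x w y hw _ ih =>
    have h1 : w = [c] := by
      have := hx c (by simp)
      rw [this] at hw
      exact hw
    rw [h1, ih (fun d hd => hx d (by simp [hd]))]
    rfl

theorem id_of {x : List A} (hx : ∀ c ∈ x, [c] ∈ h c) : Rew h x x := by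
  induction x with
  | nil => exact .nil
  | cons c x ih =>
    exact Rew.cons (w := [c]) (hx c (by simp)) (ih (fun d hd => hx d (by simp [hd])))

theorem append {x₁ x₂ y₁ y₂ : List A} (h1 : Rew h x₁ y₁) (h2 : Rew h x₂ y₂) :
    Rew h (x₁ ++ x₂) (y₁ ++ y₂) := by
  induction h1 with
  | nil => exact h2
  | cons hw _ ih =>
    rw [List.cons_append, List.append_assoc]
    exact Rew.cons hw ih

theorem mem_inv {x y : List A} (hr : Rew h x y) {d : A} (hd : d ∈ y) :
    ∃ c ∈ x, ∃ w ∈ h c, d ∈ w := by
  induction hr with
  | nil => simp at hd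
  | @cons c x w y hw _ ih =>
    rcases List.mem_append.mp hd with h1 | h1
    · exact ⟨c, by simp, w, hw, h1⟩
    · obtain ⟨c', hc', w', hw', h2⟩ := ih h1
      exact ⟨c', by simp [hc'], w', hw', h2⟩

theorem append_inv {x₁ x₂ y : List A} (hr : Rew h (x₁ ++ x₂) y) :
    ∃ y₁ y₂, Rew h x₁ y₁ ∧ Rew h x₂ y₂ ∧ y = y₁ ++ y₂ := by
  induction x₁ generalizing y with
  | nil => exact ⟨[], y, .nil, hr, rfl⟩
  | cons c x ih =>
    rw [List.cons_append] at hr
    cases hr with
    | cons hw hr' =>
      obtain ⟨y₁, y₂, h1, h2, rfl⟩ := ih hr'
      exact ⟨_ ++ y₁, y₂, .cons hw h1, h2, by rw [List.append_assoc]⟩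

end Rew

/-- An ET0L system with letters in a finite type `A`, tables indexed by a finite nonempty type `I`;
the terminal letters are those with `term a ≠ none`, and `term a = some t` says that the terminal
letter `a` is the symbol `t`. -/
structure Sys (T : Type) where
  A : Type
  finA : Finite A
  I : Type
  finI : Finite I
  neI : Nonempty I
  h : I → A → Set (List A)
  fin_h : ∀ i a, (h i a).Finite
  ne_h : ∀ i a, (h i a).Nonempty
  ax : List A
  ax_ne : ax ≠ []
  term : A → Option T
  inj : ∀ a b t, term a = some t → term b = some t → a = b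

namespace Sys

variable {T : Type} (G : Sys T)

def Step (x y : List G.A) : Prop := ∃ i, Rew (G.h i) x y

def Der : List G.A → List G.A → Prop := Relation.ReflTransGen G.Step

def lang : Set (List T) := {w | ∃ x, G.Der G.ax x ∧ x.map G.term = w.map some}

def Restr (k : ℕ) : Prop := ∀ i, {a | G.h i a ≠ {[a]}}.encard ≤ k

end Sys

/-- A system in which one letter is rewritten at a time, with forbidding context. -/
structure FSys (T : Type) where
  B : Type
  finB : Finite B
  M : Type
  finM : Finite M
  R : Type
  finR : Finite R
  neR : Nonempty R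
  lhs : R → B
  rhs : R → Set (List (B ⊕ M))
  fin_rhs : ∀ r, (rhs r).Finite
  ne_rhs : ∀ r, (rhs r).Nonempty
  forb : R → List B
  ax : List (B ⊕ M)
  ax_ne : ax ≠ []
  term : M → Option T
  inj : ∀ a b t, term a = some t → term b = some t → a = b

namespace FSys

variable {T : Type} (F : FSys T)

noncomputable def sub (r : F.R) (c : F.B ⊕ F.M) : Set (List (F.B ⊕ F.M)) :=
  if c = Sum.inl (F.lhs r) then F.rhs r else {[c]}

def Step (x y : List (F.B ⊕ F.M)) : Prop :=
  ∃ r, Rew (F.sub r) x y ∧ (Sum.inl (F.lhs r) ∈ x → ∀ z ∈ F.forb r, Sum.inl z ∉ y)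

def Der : List (F.B ⊕ F.M) → List (F.B ⊕ F.M) → Prop := Relation.ReflTransGen F.Step

def lang : Set (List T) :=
  {w | ∃ x : List F.M, F.Der F.ax (x.map Sum.inr) ∧ x.map F.term = w.map some}

/-- letters of the simulating system -/
inductive D (B M : Type)
  | b (z : B)
  | m (t : M)
  | H (z : B)
  | C (z : B)
  | dead

open D

instance (B M : Type) [Finite B] [Finite M] : Finite (D B M) := by
  let f : D B M → (B ⊕ M) ⊕ (B ⊕ B) ⊕ Unit := fun d => match d with
    | b z => Sum.inl (Sum.inl z)
    | m t => Sum.inl (Sum.inr t)
    | H z => Sum.inr (Sum.inl (Sum.inl z))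
    | C z => Sum.inr (Sum.inl (Sum.inr z))
    | dead => Sum.inr (Sum.inr ())
  refine Finite.of_injective f ?_
  intro d d' hdd
  cases d <;> cases d' <;> simp_all [f]

def emb {B M : Type} : B ⊕ M → D B M
  | Sum.inl z => b z
  | Sum.inr t => m t

def prj {B M : Type} : D B M → Option (B ⊕ M)
  | b z => some (Sum.inl z)
  | m t => some (Sum.inr t)
  | _ => none

def del (l : List F.B) : List (D F.B F.M) := l.flatMap (fun z => [H z, C z])

theorem filterMap_del (l : List F.B) : (F.del l).filterMap prj = [] := by
  rw [List.filterMap_eq_nil_iff]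
  intro d hd
  simp only [del, List.mem_flatMap, List.mem_cons, List.not_mem_nil, or_false] at hd
  obtain ⟨z, _, rfl | rfl⟩ := hd <;> rfl

theorem mem_del_H {l : List F.B} {z : F.B} : (H z : D F.B F.M) ∈ F.del l ↔ z ∈ l := by
  simp [del]

theorem mem_del_C {l : List F.B} {z : F.B} : (C z : D F.B F.M) ∈ F.del l ↔ z ∈ l := by
  simp [del]

/-- the tables of the simulating system -/
noncomputable def tab : F.R ⊕ (F.B ⊕ F.B) → D F.B F.M → Set (List (D F.B F.M))
  | Sum.inl r, b z => if z = F.lhs r then (fun w => w.map emb ++ F.del (F.forb r)) '' F.rhs r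
      else {[b z]}
  | Sum.inl r, H z => if z = F.lhs r then {[dead]} else {[H z]}
  | Sum.inl _, m t => {[m t]}
  | Sum.inl _, C z => {[C z]}
  | Sum.inl _, dead => {[dead]}
  | Sum.inr (Sum.inl z'), H z => if z = z' then {[]} else {[H z]}
  | Sum.inr (Sum.inl z'), C z => if z = z' then {[dead]} else {[C z]}
  | Sum.inr (Sum.inl _), b z => {[b z]}
  | Sum.inr (Sum.inl _), m t => {[m t]}
  | Sum.inr (Sum.inl _), dead => {[dead]}
  | Sum.inr (Sum.inr z'), C z => if z = z' then {[]} else {[C z]}
  | Sum.inr (Sum.inr z'), b z => if z = z' then {[dead]} else {[b z]}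
  | Sum.inr (Sum.inr _), H z => {[H z]}
  | Sum.inr (Sum.inr _), m t => {[m t]}
  | Sum.inr (Sum.inr _), dead => {[dead]}

theorem tab_fin (i : F.R ⊕ (F.B ⊕ F.B)) (d : D F.B F.M) : (F.tab i d).Finite := by
  rcases i with r | z' | z' <;> cases d <;> simp only [tab] <;> (try split_ifs) <;>
    first
    | exact Set.finite_singleton _
    | exact (F.fin_rhs r).image _

theorem tab_ne (i : F.R ⊕ (F.B ⊕ F.B)) (d : D F.B F.M) : (F.tab i d).Nonempty := by
  rcases i with r | z' | z' <;> cases d <;> simp only [tab] <;> (try split_ifs) <;>
    first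
    | exact Set.singleton_nonempty _
    | exact (F.ne_rhs r).image _

/-- the simulating ET0L system -/
noncomputable def toSys : Sys T where
  A := D F.B F.M
  finA := by
    have := F.finB
    have := F.finM
    infer_instance
  I := F.R ⊕ (F.B ⊕ F.B)
  finI := by
    have := F.finB
    have := F.finR
    infer_instance
  neI := by
    have := F.neR
    infer_instance
  h := F.tab
  fin_h := F.tab_fin
  ne_h := F.tab_ne
  ax := F.ax.map emb
  ax_ne := by simpa using F.ax_ne
  term d := match d with
    | m t => F.term t
    | _ => none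
  inj := by
    intro d d' t h1 h2
    cases d <;> cases d' <;> simp at h1 h2 ⊢
    exact F.inj _ _ t h1 h2

theorem toSys_restr : F.toSys.Restr 2 := by
  intro i
  have key : ∀ p q : D F.B F.M, (∀ d, d ≠ p → d ≠ q → F.tab i d = {[d]}) →
      {a | F.tab i a ≠ {[a]}}.encard ≤ 2 := by
    intro p q hpq
    calc {a | F.tab i a ≠ {[a]}}.encard ≤ ({p, q} : Set (D F.B F.M)).encard := by
          apply Set.encard_le_encard
          intro d hd
          by_contra hcon
          simp only [Set.mem_insert_iff, Set.mem_singleton_iff, not_or] at hcon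
          exact hd (hpq d hcon.1 hcon.2)
      _ ≤ 2 := by
          calc ({p, q} : Set (D F.B F.M)).encard ≤ ({q} : Set (D F.B F.M)).encard + 1 :=
                Set.encard_insert_le _ _
            _ = 2 := by rw [Set.encard_singleton]; rfl
  rcases i with r | z' | z'
  · refine key (b (F.lhs r)) (H (F.lhs r)) ?_
    intro d h1 h2
    cases d <;> simp_all [tab]
  · refine key (H z') (C z') ?_
    intro d h1 h2
    cases d <;> simp_all [tab]
  · refine key (C z') (b z') ?_
    intro d h1 h2
    cases d <;> simp_all [tab]

/-- derivations of the simulating system -/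
def SDer : List (D F.B F.M) → List (D F.B F.M) → Prop :=
  Relation.ReflTransGen (fun x y => ∃ i, Rew (F.tab i) x y)

/-! ### Soundness -/

/-- a word from which no terminal word can be derived -/
def Bad (x : List (D F.B F.M)) : Prop :=
  dead ∈ x ∨ ∃ z, b z ∈ x ∧ H z ∈ x ∧ C z ∈ x

theorem keep {i : F.R ⊕ (F.B ⊕ F.B)} {x y : List (D F.B F.M)} (hr : Rew (F.tab i) x y)
    {d : D F.B F.M} (hd : d ∈ x) (h : F.tab i d = {[d]}) : d ∈ y :=
  hr.mem hd (by rw [h]; intro w hw; rw [Set.mem_singleton_iff.mp hw]; simp)

theorem kill {i : F.R ⊕ (F.B ⊕ F.B)} {x y : List (D F.B F.M)} (hr : Rew (F.tab i) x y)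
    {d : D F.B F.M} (hd : d ∈ x) (h : F.tab i d = {[dead]}) : dead ∈ y :=
  hr.mem hd (by rw [h]; intro w hw; rw [Set.mem_singleton_iff.mp hw]; simp)

theorem bad_step {i : F.R ⊕ (F.B ⊕ F.B)} {x y : List (D F.B F.M)} (hr : Rew (F.tab i) x y)
    (hx : F.Bad x) : F.Bad y := by
  rcases hx with hd | ⟨z, hb, hH, hC⟩
  · left
    refine F.keep hr hd ?_
    rcases i with r | z' | z' <;> rfl
  · rcases i with r | z' | z'
    · by_cases hz : z = F.lhs r
      · left
        exact F.kill hr hH (by simp [tab, hz])
      · right
        exact ⟨z, F.keep hr hb (by simp [tab, hz]), F.keep hr hH (by simp [tab, hz]),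
          F.keep hr hC (by simp [tab])⟩
    · by_cases hz : z = z'
      · left
        exact F.kill hr hC (by simp [tab, hz])
      · right
        exact ⟨z, F.keep hr hb (by simp [tab]), F.keep hr hH (by simp [tab, hz]),
          F.keep hr hC (by simp [tab, hz])⟩
    · by_cases hz : z = z'
      · left
        exact F.kill hr hb (by simp [tab, hz])
      · right
        exact ⟨z, F.keep hr hb (by simp [tab, hz]), F.keep hr hH (by simp [tab]),
          F.keep hr hC (by simp [tab, hz])⟩

theorem filterMap_emb (w : List (F.B ⊕ F.M)) : (w.map emb).filterMap prj = w := by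
  rw [List.filterMap_map]
  have : (prj ∘ emb : F.B ⊕ F.M → _) = some := by
    funext c
    cases c <;> rfl
  rw [this, List.filterMap_some]

/-- projection of a step with a rule table -/
theorem prj_rule {r : F.R} {x y : List (D F.B F.M)} (hr : Rew (F.tab (Sum.inl r)) x y) :
    Rew (F.sub r) (x.filterMap prj) (y.filterMap prj) := by
  induction hr with
  | nil => exact .nil
  | @cons c x w y hw _ ih =>
    rw [List.filterMap_append]
    cases c with
    | b z =>
      change Rew (F.sub r) (Sum.inl z :: x.filterMap prj) _
      refine Rew.cons ?_ ih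
      by_cases hz : z = F.lhs r
      · simp only [tab, hz, if_true] at hw
        obtain ⟨v, hv, rfl⟩ := hw
        rw [List.filterMap_append, F.filterMap_emb, F.filterMap_del, List.append_nil]
        simp only [sub, hz, if_true]
        exact hv
      · simp only [tab, hz, if_false] at hw
        rw [Set.mem_singleton_iff.mp hw]
        have : (Sum.inl z : F.B ⊕ F.M) ≠ Sum.inl (F.lhs r) := fun h => hz (Sum.inl.inj h)
        simp only [sub, this, if_false]
        rfl
    | m t =>
      change Rew (F.sub r) (Sum.inr t :: x.filterMap prj) _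
      refine Rew.cons ?_ ih
      simp only [tab] at hw
      rw [Set.mem_singleton_iff.mp hw]
      have : (Sum.inr t : F.B ⊕ F.M) ≠ Sum.inl (F.lhs r) := fun h => by cases h
      simp only [sub, this, if_false]
      rfl
    | H z =>
      rw [List.filterMap_cons_none rfl]
      have : w.filterMap prj = [] := by
        simp only [tab] at hw
        split_ifs at hw <;> rw [Set.mem_singleton_iff.mp hw] <;> rfl
      rw [this]
      exact ih
    | C z =>
      rw [List.filterMap_cons_none rfl]
      have : w.filterMap prj = [] := by
        simp only [tab] at hw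
        rw [Set.mem_singleton_iff.mp hw]; rfl
      rw [this]
      exact ih
    | dead =>
      rw [List.filterMap_cons_none rfl]
      have : w.filterMap prj = [] := by
        simp only [tab] at hw
        rw [Set.mem_singleton_iff.mp hw]; rfl
      rw [this]
      exact ih

theorem prj_H {z' : F.B} {x y : List (D F.B F.M)} (hr : Rew (F.tab (Sum.inr (Sum.inl z'))) x y) :
    y.filterMap prj = x.filterMap prj := by
  induction hr with
  | nil => rfl
  | @cons c x w y hw _ ih =>
    rw [List.filterMap_append, ih]
    cases c <;> simp only [tab] at hw <;> (try split_ifs at hw) <;>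
      (rw [Set.mem_singleton_iff.mp hw]; rfl)

theorem prj_C {z' : F.B} {x y : List (D F.B F.M)} (hr : Rew (F.tab (Sum.inr (Sum.inr z'))) x y)
    (hx : b z' ∉ x) : y.filterMap prj = x.filterMap prj := by
  induction hr with
  | nil => rfl
  | @cons c x w y hw _ ih =>
    rw [List.filterMap_append, ih (fun h => hx (by simp [h]))]
    cases c with
    | b z =>
      have hz : z ≠ z' := by
        rintro rfl
        exact hx (by simp)
      simp only [tab, hz, if_false] at hw
      rw [Set.mem_singleton_iff.mp hw]
      rfl
    | m t =>
      simp only [tab] at hw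
      rw [Set.mem_singleton_iff.mp hw]
      rfl
    | H z =>
      simp only [tab] at hw
      rw [Set.mem_singleton_iff.mp hw]
      rfl
    | C z =>
      simp only [tab] at hw
      split_ifs at hw <;> (rw [Set.mem_singleton_iff.mp hw]; rfl)
    | dead =>
      simp only [tab] at hw
      rw [Set.mem_singleton_iff.mp hw]
      rfl

theorem mem_prj_b {x : List (D F.B F.M)} {z : F.B} :
    (Sum.inl z : F.B ⊕ F.M) ∈ x.filterMap prj ↔ b z ∈ x := by
  rw [List.mem_filterMap]
  constructor
  · rintro ⟨d, hd, h⟩
    cases d <;> simp [prj] at h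
    subst h
    exact hd
  · intro h
    exact ⟨_, h, rfl⟩

theorem sound_step {x y : List (D F.B F.M)} (hs : ∃ i, Rew (F.tab i) x y)
    (hx : F.Bad x ∨ F.Der F.ax (x.filterMap prj)) :
    F.Bad y ∨ F.Der F.ax (y.filterMap prj) := by
  obtain ⟨i, hr⟩ := hs
  rcases hx with hx | hx
  · exact Or.inl (F.bad_step hr hx)
  · by_cases hy : F.Bad y
    · exact Or.inl hy
    · right
      rcases i with r | z' | z'
      · refine hx.tail ⟨r, F.prj_rule hr, ?_⟩
        intro hl z hz hzy
        rw [F.mem_prj_b] at hl hzy
        apply hy
        right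
        refine ⟨z, hzy, ?_, ?_⟩
        · refine hr.mem hl ?_
          simp only [tab, if_true]
          rintro w ⟨v, -, rfl⟩
          exact List.mem_append_right _ (F.mem_del_H.mpr hz)
        · refine hr.mem hl ?_
          simp only [tab, if_true]
          rintro w ⟨v, -, rfl⟩
          exact List.mem_append_right _ (F.mem_del_C.mpr hz)
      · rw [F.prj_H hr]
        exact hx
      · rw [F.prj_C hr ?_]
        · exact hx
        · intro hb
          exact hy (Or.inl (F.kill hr hb (by simp [tab])))

theorem sound {x : List (D F.B F.M)} (hs : F.SDer (F.ax.map emb) x) :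
    F.Bad x ∨ F.Der F.ax (x.filterMap prj) := by
  induction hs with
  | refl =>
    right
    rw [F.filterMap_emb]
    exact Relation.ReflTransGen.refl
  | tail _ h ih => exact F.sound_step h ih

/-! ### Completeness -/

theorem rew_C {x : List (D F.B F.M)} {z : F.B} (hx : b z ∉ x) :
    Rew (F.tab (Sum.inr (Sum.inr z))) x (x.filter (fun d => d ≠ C z)) := by
  induction x with
  | nil => exact .nil
  | cons c x ih =>
    have ih' := ih (fun h => hx (by simp [h]))
    by_cases hc : c = C z
    · subst hc
      rw [List.filter_cons_of_neg (by simp)]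
      exact Rew.cons (w := []) (by simp [tab]) ih'
    · rw [List.filter_cons_of_pos (by simpa using hc)]
      refine Rew.cons (w := [c]) ?_ ih'
      cases c with
      | b z2 =>
        have : z2 ≠ z := by
          rintro rfl
          exact hx (by simp)
        simp [tab, this]
      | m t => simp [tab]
      | H z2 => simp [tab]
      | C z2 =>
        have : z2 ≠ z := by
          rintro rfl
          exact hc rfl
        simp [tab, this]
      | dead => simp [tab]

theorem rew_H {x : List (D F.B F.M)} {z : F.B} (hx : C z ∉ x) :
    Rew (F.tab (Sum.inr (Sum.inl z))) x (x.filter (fun d => d ≠ H z)) := by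
  induction x with
  | nil => exact .nil
  | cons c x ih =>
    have ih' := ih (fun h => hx (by simp [h]))
    by_cases hc : c = H z
    · subst hc
      rw [List.filter_cons_of_neg (by simp)]
      exact Rew.cons (w := []) (by simp [tab]) ih'
    · rw [List.filter_cons_of_pos (by simpa using hc)]
      refine Rew.cons (w := [c]) ?_ ih'
      cases c with
      | C z2 =>
        have : z2 ≠ z := by
          rintro rfl
          exact hx (by simp)
        simp [tab, this]
      | m t => simp [tab]
      | b z2 => simp [tab]
      | H z2 =>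
        have : z2 ≠ z := by
          rintro rfl
          exact hc rfl
        simp [tab, this]
      | dead => simp [tab]

theorem der_C (l : List F.B) {x : List (D F.B F.M)} (hx : ∀ z ∈ l, b z ∉ x) :
    F.SDer x (x.filter (fun d => ∀ z ∈ l, d ≠ C z)) := by
  induction l generalizing x with
  | nil =>
    have : x.filter (fun d => decide (∀ z ∈ ([] : List F.B), d ≠ C z)) = x := by
      rw [List.filter_eq_self]
      intro d _
      simp
    rw [this]
    exact Relation.ReflTransGen.refl
  | cons z l ih =>
    have h1 : ∃ i, Rew (F.tab i) x (x.filter (fun d => d ≠ C z)) :=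
      ⟨Sum.inr (Sum.inr z), F.rew_C (hx z (by simp))⟩
    have h2 := ih (x := x.filter (fun d => d ≠ C z)) (by
      intro z' hz' hmem
      exact hx z' (by simp [hz']) (List.mem_of_mem_filter hmem))
    have h3 : (x.filter (fun d => decide (d ≠ C z))).filter
        (fun d => decide (∀ z' ∈ l, d ≠ C z')) =
        x.filter (fun d => decide (∀ z' ∈ z :: l, d ≠ C z')) := by
      rw [List.filter_filter]
      apply List.filter_congr
      intro d _
      rw [← Bool.decide_and, decide_eq_decide]
      simp [and_comm]
    rw [h3] at h2
    exact (Relation.ReflTransGen.single h1).trans h2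

theorem der_H (l : List F.B) {x : List (D F.B F.M)} (hx : ∀ z ∈ l, C z ∉ x) :
    F.SDer x (x.filter (fun d => ∀ z ∈ l, d ≠ H z)) := by
  induction l generalizing x with
  | nil =>
    have : x.filter (fun d => decide (∀ z ∈ ([] : List F.B), d ≠ H z)) = x := by
      rw [List.filter_eq_self]
      intro d _
      simp
    rw [this]
    exact Relation.ReflTransGen.refl
  | cons z l ih =>
    have h1 : ∃ i, Rew (F.tab i) x (x.filter (fun d => d ≠ H z)) :=
      ⟨Sum.inr (Sum.inl z), F.rew_H (hx z (by simp))⟩
    have h2 := ih (x := x.filter (fun d => d ≠ H z)) (by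
      intro z' hz' hmem
      exact hx z' (by simp [hz']) (List.mem_of_mem_filter hmem))
    have h3 : (x.filter (fun d => decide (d ≠ H z))).filter
        (fun d => decide (∀ z' ∈ l, d ≠ H z')) =
        x.filter (fun d => decide (∀ z' ∈ z :: l, d ≠ H z')) := by
      rw [List.filter_filter]
      apply List.filter_congr
      intro d _
      rw [← Bool.decide_and, decide_eq_decide]
      simp [and_comm]
    rw [h3] at h2
    exact (Relation.ReflTransGen.single h1).trans h2

theorem map_emb_prj {x : List (D F.B F.M)} (hx : ∀ d ∈ x, (∃ z, d = b z) ∨ ∃ t, d = m t) :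
    (x.filterMap prj).map emb = x := by
  induction x with
  | nil => rfl
  | cons c x ih =>
    have ih' := ih (fun d hd => hx d (by simp [hd]))
    rcases hx c (by simp) with ⟨z, rfl⟩ | ⟨t, rfl⟩
    · change (Sum.inl z :: x.filterMap prj).map emb = _
      rw [List.map_cons, ih']
      rfl
    · change (Sum.inr t :: x.filterMap prj).map emb = _
      rw [List.map_cons, ih']
      rfl

theorem prj_filter {x : List (D F.B F.M)} {p : D F.B F.M → Prop} [DecidablePred p]
    (hp : ∀ d, (prj d).isSome → p d) :
    (x.filter (fun d => decide (p d))).filterMap prj = x.filterMap prj := by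
  induction x with
  | nil => rfl
  | cons c x ih =>
    by_cases hc : p c
    · rw [List.filter_cons_of_pos (by simpa using hc), List.filterMap_cons, List.filterMap_cons, ih]
    · rw [List.filter_cons_of_neg (by simpa using hc), ih]
      have : prj c = none := by
        by_contra hcon
        exact hc (hp c (Option.isSome_iff_ne_none.mpr hcon))
      rw [List.filterMap_cons_none this]

/-- lifting a rule application -/
theorem lift_rule {r : F.R} {x y : List (F.B ⊕ F.M)} (hr : Rew (F.sub r) x y) :
    ∃ y' : List (D F.B F.M), Rew (F.tab (Sum.inl r)) (x.map emb) y' ∧ y'.filterMap prj = y ∧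
      (∀ z, H z ∈ y' → z ∈ F.forb r) ∧ (∀ z, C z ∈ y' → z ∈ F.forb r) ∧ dead ∉ y' := by
  induction hr with
  | nil => exact ⟨[], .nil, rfl, by simp, by simp, by simp⟩
  | @cons c x w y hw _ ih =>
    obtain ⟨y', h1, h2, h3, h4, h5⟩ := ih
    have key : ∃ w' : List (D F.B F.M), w' ∈ F.tab (Sum.inl r) (emb c) ∧ w'.filterMap prj = w ∧
        (∀ z, H z ∈ w' → z ∈ F.forb r) ∧ (∀ z, C z ∈ w' → z ∈ F.forb r) ∧ dead ∉ w' := by
      by_cases hc : c = Sum.inl (F.lhs r)
      · subst hc
        simp only [sub, if_true] at hw
        refine ⟨w.map emb ++ F.del (F.forb r), ?_, ?_, ?_, ?_, ?_⟩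
        · simp only [emb, tab, if_true]
          exact ⟨w, hw, rfl⟩
        · rw [List.filterMap_append, F.filterMap_emb, F.filterMap_del, List.append_nil]
        · intro z hz
          rcases List.mem_append.mp hz with hz | hz
          · rw [List.mem_map] at hz
            obtain ⟨a, _, ha⟩ := hz
            cases a <;> simp [emb] at ha
          · exact F.mem_del_H.mp hz
        · intro z hz
          rcases List.mem_append.mp hz with hz | hz
          · rw [List.mem_map] at hz
            obtain ⟨a, _, ha⟩ := hz
            cases a <;> simp [emb] at ha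
          · exact F.mem_del_C.mp hz
        · intro hz
          rcases List.mem_append.mp hz with hz | hz
          · rw [List.mem_map] at hz
            obtain ⟨a, _, ha⟩ := hz
            cases a <;> simp [emb] at ha
          · simp [del] at hz
      · simp only [sub, hc, if_false] at hw
        rw [Set.mem_singleton_iff.mp hw]
        refine ⟨[emb c], ?_, ?_, ?_, ?_, ?_⟩
        · cases c with
          | inl z =>
            have : z ≠ F.lhs r := by
              rintro rfl
              exact hc rfl
            simp [emb, tab, this]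
          | inr t => simp [emb, tab]
        · cases c <;> rfl
        · intro z hz
          cases c <;> simp [emb] at hz
        · intro z hz
          cases c <;> simp [emb] at hz
        · intro hz
          cases c <;> simp [emb] at hz
    obtain ⟨w', k1, k2, k3, k4, k5⟩ := key
    refine ⟨w' ++ y', Rew.cons k1 h1, ?_, ?_, ?_, ?_⟩
    · rw [List.filterMap_append, k2, h2]
    · intro z hz
      rcases List.mem_append.mp hz with hz | hz
      · exact k3 z hz
      · exact h3 z hz
    · intro z hz
      rcases List.mem_append.mp hz with hz | hz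
      · exact k4 z hz
      · exact h4 z hz
    · intro hz
      rcases List.mem_append.mp hz with hz | hz
      · exact k5 hz
      · exact h5 hz

theorem complete_step {x y : List (F.B ⊕ F.M)} (hs : F.Step x y) :
    F.SDer (x.map emb) (y.map emb) := by
  obtain ⟨r, hr, hf⟩ := hs
  by_cases hl : Sum.inl (F.lhs r) ∈ x
  · obtain ⟨y', h1, h2, h3, h4, h5⟩ := F.lift_rule hr
    have hfz := hf hl
    have s1 : F.SDer (x.map emb) y' := Relation.ReflTransGen.single ⟨Sum.inl r, h1⟩
    have s2 := F.der_C (F.forb r) (x := y') (by
      intro z hz hb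
      apply hfz z hz
      rw [← h2, F.mem_prj_b]
      exact hb)
    set y2 := y'.filter (fun d => decide (∀ z ∈ F.forb r, d ≠ C z)) with hy2
    have hC2 : ∀ z, C z ∉ y2 := by
      intro z hz
      rw [hy2, List.mem_filter] at hz
      have := h4 z hz.1
      simp only [decide_eq_true_eq] at hz
      exact hz.2 z this rfl
    have s3 := F.der_H (F.forb r) (x := y2) (fun z _ => hC2 z)
    set y3 := y2.filter (fun d => decide (∀ z ∈ F.forb r, d ≠ H z)) with hy3
    have hC3 : ∀ z, C z ∉ y3 := by
      intro z hz
      rw [hy3, List.mem_filter] at hz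
      exact hC2 z hz.1
    have hH3 : ∀ z, H z ∉ y3 := by
      intro z hz
      rw [hy3, List.mem_filter] at hz
      have h6 := hz.1
      rw [hy2, List.mem_filter] at h6
      have := h3 z h6.1
      simp only [decide_eq_true_eq] at hz
      exact hz.2 z this rfl
    have hd3 : dead ∉ y3 := by
      intro hz
      rw [hy3, List.mem_filter] at hz
      have h6 := hz.1
      rw [hy2, List.mem_filter] at h6
      exact h5 h6.1
    have hp3 : y3.filterMap prj = y := by
      rw [hy3, F.prj_filter (p := fun d => ∀ z ∈ F.forb r, d ≠ H z), hy2,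
        F.prj_filter (p := fun d => ∀ z ∈ F.forb r, d ≠ C z), h2]
      · intro d hd z _ hdz
        rw [hdz] at hd
        simp [prj] at hd
      · intro d hd z _ hdz
        rw [hdz] at hd
        simp [prj] at hd
    have hfin : y.map emb = y3 := by
      rw [← hp3]
      apply F.map_emb_prj
      intro d hd
      cases d with
      | b z => exact Or.inl ⟨z, rfl⟩
      | m t => exact Or.inr ⟨t, rfl⟩
      | H z => exact absurd hd (hH3 z)
      | C z => exact absurd hd (hC3 z)
      | dead => exact absurd hd hd3
    rw [hfin]
    exact (s1.trans s2).trans s3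
  · have : y = x := by
      apply hr.eq_of_id
      intro c hc
      have : c ≠ Sum.inl (F.lhs r) := by
        rintro rfl
        exact hl hc
      simp [sub, this]
    rw [this]
    exact Relation.ReflTransGen.refl

theorem complete {x y : List (F.B ⊕ F.M)} (hs : F.Der x y) :
    F.SDer (x.map emb) (y.map emb) := by
  induction hs with
  | refl => exact Relation.ReflTransGen.refl
  | tail _ h ih => exact ih.trans (F.complete_step h)

theorem toSys_lang : F.toSys.lang = F.lang := by
  ext w
  constructor
  · rintro ⟨x, hx, hw⟩
    have hall : ∀ d ∈ x, ∃ t, d = m t := by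
      intro d hd
      have h1 : F.toSys.term d ∈ x.map F.toSys.term := List.mem_map_of_mem hd
      rw [hw, List.mem_map] at h1
      obtain ⟨s, _, hs⟩ := h1
      change D F.B F.M at d
      cases d with
      | m t => exact ⟨t, rfl⟩
      | b z => cases hs
      | H z => cases hs
      | C z => cases hs
      | dead => cases hs
    have hex : ∃ xs : List F.M, x = xs.map m := by
      clear hx hw
      change List (D F.B F.M) at x
      change ∀ d ∈ (x : List (D F.B F.M)), ∃ t, d = m t at hall
      induction x with
      | nil => exact ⟨[], rfl⟩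
      | cons c x ih =>
        obtain ⟨xs, rfl⟩ := ih (fun d hd => hall d (by simp [hd]))
        obtain ⟨t, rfl⟩ := hall c (by simp)
        exact ⟨t :: xs, rfl⟩
    obtain ⟨xs, rfl⟩ := hex
    have hx' : F.SDer (F.ax.map emb) (xs.map m) := hx
    have hnb : ¬ F.Bad (xs.map m) := by
      rintro (h | ⟨z, h, _, _⟩)
      · obtain ⟨t, _, ht⟩ := List.mem_map.mp h
        cases ht
      · obtain ⟨t, _, ht⟩ := List.mem_map.mp h
        cases ht
    have hx2 := (F.sound hx').resolve_left hnb
    refine ⟨xs, ?_, ?_⟩
    · have : (xs.map m : List (D F.B F.M)).filterMap prj = xs.map Sum.inr := by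
        clear hx hw hall hx' hnb hx2
        induction xs with
        | nil => rfl
        | cons c xs ih =>
          change Sum.inr c :: (xs.map m).filterMap prj = _
          rw [ih]
          rfl
      rw [this] at hx2
      exact hx2
    · rw [← hw]
      clear hx hw hall hx' hnb hx2
      induction xs with
      | nil => rfl
      | cons c xs ih =>
        rw [List.map_cons, ih]
        rfl
  · rintro ⟨xs, hx, hw⟩
    refine ⟨(xs.map Sum.inr).map emb, F.complete hx, ?_⟩
    rw [← hw]
    clear hx hw
    induction xs with
    | nil => rfl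
    | cons c xs ih =>
      rw [List.map_cons (f := F.term), ← ih]
      rfl

end FSys

end Pool.Agent.W88.LSys
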