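import Pool.Agent.W88.ET0LA

set_option autoImplicit false

namespace Pool.Agent.W88.LSys

open Classical

namespace Sys

variable {T : Type} (G : Sys T)

/-- base letters: coloured letters of `G` and modes -/
abbrev BB : Type := (G.A × Bool) ⊕ (Option G.I × Bool)

/-- all letters -/
abbrev LL : Type := G.BB ⊕ G.A

/-- coloured letter -/
abbrev u (c : Bool) (a : G.A) : G.LL := Sum.inl (Sum.inl (a, c))

/-- mode letter -/
abbrev k (o : Option G.I) (c : Bool) : G.LL := Sum.inl (Sum.inr (o, c))

/-- final letter -/
abbrev t (a : G.A) : G.LL := Sum.inr a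

/-- what the letter `a` becomes in the mode `(o, c)` -/
def res (o : Option G.I) (c : Bool) (a : G.A) : Set (List G.LL) :=
  match o with
  | some i => (fun w => w.map (G.u (!c))) '' G.h i a
  | none => {[G.t a]}

theorem res_fin (o : Option G.I) (c : Bool) (a : G.A) : (G.res o c a).Finite := by
  cases o with
  | some i => exact (G.fin_h i a).image _
  | none => exact Set.finite_singleton _

theorem res_ne (o : Option G.I) (c : Bool) (a : G.A) : (G.res o c a).Nonempty := by
  cases o with
  | some i => exact (G.ne_h i a).image _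
  | none => exact Set.singleton_nonempty _

/-- words of `res` contain no letter of colour `c` and no mode -/
theorem res_mem {o : Option G.I} {c : Bool} {a : G.A} {w : List G.LL} (hw : w ∈ G.res o c a)
    {d : G.LL} (hd : d ∈ w) : (∃ a', d = G.u (!c) a') ∨ ∃ a', d = G.t a' := by
  cases o with
  | some i =>
    obtain ⟨v, _, rfl⟩ := hw
    obtain ⟨a', _, rfl⟩ := List.mem_map.mp hd
    exact Or.inl ⟨a', rfl⟩
  | none =>
    rw [res, Set.mem_singleton_iff] at hw
    subst hw
    rw [List.mem_singleton] at hd
    exact Or.inr ⟨a, hd⟩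

/-- what the mode `(o, c)` becomes -/
def mv (o : Option G.I) (c : Bool) : Set (List G.LL) :=
  match o with
  | some _ => Set.range (fun o' => [G.k o' (!c)])
  | none => {[]}

theorem mv_fin (o : Option G.I) (c : Bool) : (G.mv o c).Finite := by
  have := G.finI
  cases o with
  | some i => exact Set.finite_range _
  | none => exact Set.finite_singleton _

theorem mv_ne (o : Option G.I) (c : Bool) : (G.mv o c).Nonempty := by
  cases o with
  | some i => exact Set.range_nonempty _
  | none => exact Set.singleton_nonempty _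

/-- all modes -/
noncomputable def modes : List (Option G.I × Bool) :=
  haveI := G.finI
  (Set.finite_univ : (Set.univ : Set (Option G.I × Bool)).Finite).toFinset.toList

theorem mem_modes (p : Option G.I × Bool) : p ∈ G.modes := by
  simp [modes]

/-- all letters -/
noncomputable def letters : List G.A :=
  haveI := G.finA
  (Set.finite_univ : (Set.univ : Set G.A).Finite).toFinset.toList

theorem mem_letters (a : G.A) : a ∈ G.letters := by
  simp [letters]

theorem nodup_letters : G.letters.Nodup := Finset.nodup_toList _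

/-- the simulating system with forbidding context -/
noncomputable def toF : FSys T where
  B := G.BB
  finB := by
    have := G.finA
    have := G.finI
    infer_instance
  M := G.A
  finM := G.finA
  R := (G.A × Bool × Option G.I) ⊕ (Option G.I × Bool)
  finR := by
    have := G.finA
    have := G.finI
    infer_instance
  neR := ⟨Sum.inr (none, false)⟩
  lhs r := match r with
    | Sum.inl (a, c, _) => Sum.inl (a, c)
    | Sum.inr p => Sum.inr p
  rhs r := match r with
    | Sum.inl (a, c, o) => G.res o c a
    | Sum.inr (o, c) => G.mv o c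
  fin_rhs r := match r with
    | Sum.inl (a, c, o) => G.res_fin o c a
    | Sum.inr (o, c) => G.mv_fin o c
  ne_rhs r := match r with
    | Sum.inl (a, c, o) => G.res_ne o c a
    | Sum.inr (o, c) => G.mv_ne o c
  forb r := match r with
    | Sum.inl (_, c, o) => (G.modes.filter (fun p => p ≠ (o, c))).map Sum.inr
    | Sum.inr (_, c) => G.letters.map (fun a => Sum.inl (a, c))
  ax := G.k (some (Classical.choice G.neI)) true :: G.ax.map (G.u false)
  ax_ne := by simp
  term := G.term
  inj := G.inj

/-- derivations of `toF` -/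
def FStep (x y : List G.LL) : Prop :=
  (∃ a c o, Rew (fun d => if d = G.u c a then G.res o c a else {[d]}) x y ∧
    (G.u c a ∈ x → ∀ o' c', (o', c') ≠ (o, c) → G.k o' c' ∉ y)) ∨
  (∃ o c, Rew (fun d => if d = G.k o c then G.mv o c else {[d]}) x y ∧
    (G.k o c ∈ x → ∀ a, G.u c a ∉ y))

theorem sub_inl (a : G.A) (c : Bool) (o : Option G.I) :
    G.toF.sub (Sum.inl (a, c, o)) = fun d => if d = G.u c a then G.res o c a else {[d]} := by
  funext d
  by_cases h : d = G.u c a
  · exact (if_pos h).trans (if_pos h).symm
  · exact (if_neg h).trans (if_neg h).symm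

theorem sub_inr (o : Option G.I) (c : Bool) :
    G.toF.sub (Sum.inr (o, c)) = fun d => if d = G.k o c then G.mv o c else {[d]} := by
  funext d
  by_cases h : d = G.k o c
  · exact (if_pos h).trans (if_pos h).symm
  · exact (if_neg h).trans (if_neg h).symm

theorem mem_forb_inl (a : G.A) (c : Bool) (o : Option G.I) (z : G.BB) :
    z ∈ G.toF.forb (Sum.inl (a, c, o)) ↔ ∃ o' c', (o', c') ≠ (o, c) ∧ z = Sum.inr (o', c') := by
  constructor
  · intro hz
    obtain ⟨⟨o', c'⟩, hp, h⟩ := List.mem_map.mp hz
    exact ⟨o', c', of_decide_eq_true (List.mem_filter.mp hp).2, h.symm⟩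
  · rintro ⟨o', c', hne, rfl⟩
    exact List.mem_map.mpr ⟨(o', c'), List.mem_filter.mpr
      ⟨G.mem_modes _, decide_eq_true hne⟩, rfl⟩

theorem mem_forb_inr (o : Option G.I) (c : Bool) (z : G.BB) :
    z ∈ G.toF.forb (Sum.inr (o, c)) ↔ ∃ a, z = Sum.inl (a, c) := by
  constructor
  · intro hz
    obtain ⟨a, _, h⟩ := List.mem_map.mp hz
    exact ⟨a, h.symm⟩
  · rintro ⟨a, rfl⟩
    exact List.mem_map.mpr ⟨a, G.mem_letters a, rfl⟩

theorem step_iff (x y : List G.LL) : G.toF.Step x y ↔ G.FStep x y := by
  constructor
  · rintro ⟨r, h1, h2⟩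
    rcases r with ⟨a, c, o⟩ | ⟨o, c⟩
    · left
      rw [sub_inl] at h1
      refine ⟨a, c, o, h1, ?_⟩
      intro hx o' c' hne
      exact h2 hx (Sum.inr (o', c')) ((G.mem_forb_inl a c o _).mpr ⟨o', c', hne, rfl⟩)
    · right
      rw [sub_inr] at h1
      refine ⟨o, c, h1, ?_⟩
      intro hx a
      exact h2 hx (Sum.inl (a, c)) ((G.mem_forb_inr o c _).mpr ⟨a, rfl⟩)
  · rintro (⟨a, c, o, h1, h2⟩ | ⟨o, c, h1, h2⟩)
    · rw [← sub_inl] at h1
      refine ⟨Sum.inl (a, c, o), h1, ?_⟩
      intro hx z hz
      obtain ⟨o', c', hne, rfl⟩ := (G.mem_forb_inl a c o z).mp hz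
      exact h2 hx o' c' hne
    · rw [← sub_inr] at h1
      refine ⟨Sum.inr (o, c), h1, ?_⟩
      intro hx z hz
      obtain ⟨a, rfl⟩ := (G.mem_forb_inr o c z).mp hz
      exact h2 hx a

/-! ### Soundness -/

/-- `x` is obtained from `v` (coloured `c`) by rewriting some letters in the mode `(o, c)` -/
inductive Part (o : Option G.I) (c : Bool) : List G.A → List G.LL → Prop
  | nil : Part o c [] []
  | keep {a : G.A} {v : List G.A} {x : List G.LL} : Part o c v x → Part o c (a :: v) (G.u c a :: x)
  | done {a : G.A} {v : List G.A} {w x : List G.LL} : w ∈ G.res o c a → Part o c v x →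
      Part o c (a :: v) (w ++ x)

theorem part_start (o : Option G.I) (c : Bool) (v : List G.A) : G.Part o c v (v.map (G.u c)) := by
  induction v with
  | nil => exact .nil
  | cons a v ih => exact .keep ih

theorem part_mem {o : Option G.I} {c : Bool} {v : List G.A} {x : List G.LL} (h : G.Part o c v x)
    {d : G.LL} (hd : d ∈ x) : (∃ c' a', d = G.u c' a') ∨ ∃ a', d = G.t a' := by
  induction h with
  | nil => simp at hd
  | @keep b _ _ _ ih =>
    rcases List.mem_cons.mp hd with hd | hd
    · exact Or.inl ⟨c, b, hd⟩
    · exact ih hd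
  | done hw _ ih =>
    rcases List.mem_append.mp hd with hd | hd
    · rcases G.res_mem hw hd with ⟨a', h⟩ | ⟨a', h⟩
      · exact Or.inl ⟨_, a', h⟩
      · exact Or.inr ⟨a', h⟩
    · exact ih hd

theorem part_step {o : Option G.I} {c : Bool} {v : List G.A} {x : List G.LL} (h : G.Part o c v x)
    (a : G.A) {y : List G.LL}
    (hr : Rew (fun d => if d = G.u c a then G.res o c a else {[d]}) x y) : G.Part o c v y := by
  induction h generalizing y with
  | nil => cases hr; exact .nil
  | @keep b v x _ ih =>
    cases hr with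
    | @cons _ _ w y hw hr =>
      by_cases hb : G.u c b = G.u c a
      · have : b = a := by
          have := Sum.inl.inj (Sum.inl.inj hb)
          exact (Prod.mk.inj this).1
        subst this
        rw [if_pos rfl] at hw
        exact .done hw (ih hr)
      · rw [if_neg hb] at hw
        rw [Set.mem_singleton_iff.mp hw]
        exact .keep (ih hr)
  | @done b v w x hw _ ih =>
    obtain ⟨y₁, y₂, h1, h2, rfl⟩ := hr.append_inv
    have : y₁ = w := by
      apply h1.eq_of_id
      intro d hd
      have : d ≠ G.u c a := by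
        rintro rfl
        rcases G.res_mem hw hd with ⟨a', h⟩ | ⟨a', h⟩
        · have := Sum.inl.inj (Sum.inl.inj h)
          have := (Prod.mk.inj this).2
          cases c <;> simp at this
        · cases h
      simp [this]
    rw [this]
    exact .done hw (ih h2)

theorem part_full_some {i : G.I} {c : Bool} {v : List G.A} {x : List G.LL}
    (h : G.Part (some i) c v x) (hx : ∀ a, G.u c a ∉ x) :
    ∃ v', Rew (G.h i) v v' ∧ x = v'.map (G.u (!c)) := by
  induction h with
  | nil => exact ⟨[], .nil, rfl⟩
  | @keep b v x _ ih => exact absurd (by simp) (hx b)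
  | @done b v w x hw _ ih =>
    obtain ⟨v', h1, rfl⟩ := ih (fun a ha => hx a (by simp [ha]))
    obtain ⟨w', hw', rfl⟩ := hw
    exact ⟨w' ++ v', .cons hw' h1, by simp⟩

theorem part_full_none {c : Bool} {v : List G.A} {x : List G.LL}
    (h : G.Part none c v x) (hx : ∀ a, G.u c a ∉ x) : x = v.map G.t := by
  induction h with
  | nil => rfl
  | @keep b v x _ ih => exact absurd (by simp) (hx b)
  | @done b v w x hw _ ih =>
    rw [ih (fun a ha => hx a (by simp [ha]))]
    rw [res, Set.mem_singleton_iff] at hw
    rw [hw]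
    rfl

/-- the invariant -/
def Inv (x : List G.LL) : Prop :=
  (∃ i, x = G.k (some i) true :: G.ax.map (G.u false)) ∨
  ∃ v, G.Der G.ax v ∧ ((∃ o c x', x = G.k o c :: x' ∧ G.Part o c v x') ∨ x = v.map G.t)

theorem inv_step_init {i : G.I} {y : List G.LL}
    (hs : G.FStep (G.k (some i) true :: G.ax.map (G.u false)) y) : G.Inv y := by
  rcases hs with ⟨a, c1, o1, hr, hf⟩ | ⟨o1, c1, hr, hf⟩
  · by_cases hl : G.u c1 a ∈ G.k (some i) true :: G.ax.map (G.u false)
    · exfalso
      have hk : G.k (some i) true ∈ y := by
        apply hr.mem (c := G.k (some i) true) (by simp)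
        intro w hw
        have hne : G.k (some i) true ≠ G.u c1 a := by
          intro h; cases Sum.inl.inj h
        simp only [hne, if_false] at hw
        rw [Set.mem_singleton_iff.mp hw]
        simp
      have h2 : (some i, true) = (o1, c1) := by
        by_contra hcon
        exact hf hl (some i) true hcon hk
      obtain ⟨rfl, rfl⟩ := Prod.mk.inj h2
      rcases List.mem_cons.mp hl with h | h
      · cases Sum.inl.inj h
      · obtain ⟨a', _, h⟩ := List.mem_map.mp h
        have := (Prod.mk.inj (Sum.inl.inj (Sum.inl.inj h))).2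
        simp at this
    · left
      refine ⟨i, ?_⟩
      apply hr.eq_of_id
      intro d hd
      have : d ≠ G.u c1 a := by
        rintro rfl
        exact hl hd
      simp [this]
  · cases hr with
    | @cons _ _ w y' hw hr =>
      have h3 : y' = G.ax.map (G.u false) := by
        apply hr.eq_of_id
        intro d hd
        have : d ≠ G.k o1 c1 := by
          rintro rfl
          obtain ⟨a', _, h⟩ := List.mem_map.mp hd
          cases Sum.inl.inj h
        simp [this]
      subst h3
      by_cases hk : G.k (some i) true = G.k o1 c1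
      · have h2 : (some i, true) = (o1, c1) := Sum.inr.inj (Sum.inl.inj hk)
        obtain ⟨rfl, rfl⟩ := Prod.mk.inj h2
        simp only [if_true] at hw
        obtain ⟨o', rfl⟩ := hw
        right
        exact ⟨G.ax, Relation.ReflTransGen.refl, Or.inl ⟨o', false, _, rfl, G.part_start _ _ _⟩⟩
      · simp only [hk, if_false] at hw
        rw [Set.mem_singleton_iff.mp hw]
        left
        exact ⟨i, rfl⟩

theorem inv_step {x y : List G.LL} (hs : G.FStep x y) (hx : G.Inv x) : G.Inv y := by
  rcases hx with ⟨i, rfl⟩ | hx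
  · exact G.inv_step_init hs
  right
  obtain ⟨v, hv, ⟨o, c, x', rfl, hp⟩ | rfl⟩ := hx
  · rcases hs with ⟨a, c1, o1, hr, hf⟩ | ⟨o1, c1, hr, hf⟩
    · cases hr with
      | @cons _ _ w y' hw hr =>
        have hne : G.k o c ≠ G.u c1 a := by
          intro h; cases Sum.inl.inj h
        simp only [hne, if_false] at hw
        rw [Set.mem_singleton_iff.mp hw] at hf ⊢
        by_cases hl : G.u c1 a ∈ G.k o c :: x'
        · have h1 := hf hl
          have h2 : (o, c) = (o1, c1) := by
            by_contra hcon
            exact h1 o c hcon (by simp)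
          obtain ⟨rfl, rfl⟩ := Prod.mk.inj h2
          exact ⟨v, hv, Or.inl ⟨o, c, y', rfl, G.part_step hp a hr⟩⟩
        · have h3 : y' = x' := by
            apply hr.eq_of_id
            intro d hd
            have : d ≠ G.u c1 a := by
              rintro rfl
              exact hl (by simp [hd])
            simp [this]
          rw [h3]
          exact ⟨v, hv, Or.inl ⟨o, c, x', rfl, hp⟩⟩
    · cases hr with
      | @cons _ _ w y' hw hr =>
        have h3 : y' = x' := by
          apply hr.eq_of_id
          intro d hd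
          have : d ≠ G.k o1 c1 := by
            rintro rfl
            rcases G.part_mem hp hd with ⟨c', a', h⟩ | ⟨a', h⟩
            · cases Sum.inl.inj h
            · cases h
          simp [this]
        subst h3
        by_cases hk : G.k o c = G.k o1 c1
        · have h2 : (o, c) = (o1, c1) := Sum.inr.inj (Sum.inl.inj hk)
          obtain ⟨rfl, rfl⟩ := Prod.mk.inj h2
          simp only [if_true] at hw
          have hno : ∀ a, G.u c a ∉ y' := by
            intro a ha
            exact hf (by simp) a (by simp [ha])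
          cases o with
          | some i =>
            obtain ⟨o', rfl⟩ := hw
            obtain ⟨v', hv', hy'⟩ := G.part_full_some hp hno
            refine ⟨v', hv.tail ⟨i, hv'⟩, Or.inl ⟨o', !c, y', rfl, ?_⟩⟩
            rw [hy']
            exact G.part_start _ _ _
          | none =>
            rw [mv, Set.mem_singleton_iff] at hw
            subst hw
            exact ⟨v, hv, Or.inr (G.part_full_none hp hno)⟩
        · simp only [hk, if_false] at hw
          rw [Set.mem_singleton_iff.mp hw]
          exact ⟨v, hv, Or.inl ⟨o, c, y', rfl, hp⟩⟩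
  · have : y = v.map G.t := by
      rcases hs with ⟨a, c1, o1, hr, hf⟩ | ⟨o1, c1, hr, hf⟩
      · apply hr.eq_of_id
        intro d hd
        obtain ⟨a', _, rfl⟩ := List.mem_map.mp hd
        have : G.t a' ≠ G.u c1 a := by intro h; cases h
        simp [this]
      · apply hr.eq_of_id
        intro d hd
        obtain ⟨a', _, rfl⟩ := List.mem_map.mp hd
        have : G.t a' ≠ G.k o1 c1 := by intro h; cases h
        simp [this]
    exact ⟨v, hv, Or.inr this⟩

/-- derivations with `FStep` -/
def FDer : List G.LL → List G.LL → Prop := Relation.ReflTransGen G.FStep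

theorem fder_iff (x y : List G.LL) : G.toF.Der x y ↔ G.FDer x y := by
  have : G.toF.Step = G.FStep := by
    funext x y
    exact propext (G.step_iff x y)
  unfold FSys.Der FDer
  rw [this]
  exact Iff.rfl

theorem inv_der {x : List G.LL} (h : G.FDer G.toF.ax x) : G.Inv x := by
  induction h with
  | refl => exact Or.inl ⟨_, rfl⟩
  | tail _ h ih => exact G.inv_step h ih

/-! ### Completeness -/

/-- partially processed word: the letters of `l` have been processed -/
inductive PW (o : Option G.I) (c : Bool) (l : List G.A) : List G.A → List (List G.LL) →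
    List G.LL → Prop
  | nil : PW o c l [] [] []
  | keep {a : G.A} {v : List G.A} {w : List G.LL} {ws : List (List G.LL)} {x : List G.LL} :
      a ∉ l → w ∈ G.res o c a → PW o c l v ws x → PW o c l (a :: v) (w :: ws) (G.u c a :: x)
  | done {a : G.A} {v : List G.A} {w : List G.LL} {ws : List (List G.LL)} {x : List G.LL} :
      a ∈ l → w ∈ G.res o c a → PW o c l v ws x → PW o c l (a :: v) (w :: ws) (w ++ x)

theorem pw_step {o : Option G.I} {c : Bool} {l : List G.A} {v : List G.A}
    {ws : List (List G.LL)} {x : List G.LL} (h : G.PW o c l v ws x) (a : G.A) (ha : a ∉ l) :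
    ∃ y, Rew (fun d => if d = G.u c a then G.res o c a else {[d]}) x y ∧
      G.PW o c (a :: l) v ws y := by
  induction h with
  | nil => exact ⟨[], .nil, .nil⟩
  | @keep b v w ws x hb hw _ ih =>
    obtain ⟨y, h1, h2⟩ := ih
    by_cases hab : b = a
    · subst hab
      exact ⟨w ++ y, .cons (by simpa using hw) h1, .done (by simp) hw h2⟩
    · have hne : G.u c b ≠ G.u c a := by
        intro h
        exact hab (Prod.mk.inj (Sum.inl.inj (Sum.inl.inj h))).1
      refine ⟨[G.u c b] ++ y, .cons (by simp [hab]) h1, ?_⟩
      exact .keep (by simp [hab, hb]) hw h2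
  | @done b v w ws x hb hw _ ih =>
    obtain ⟨y, h1, h2⟩ := ih
    refine ⟨w ++ y, Rew.append (Rew.id_of ?_) h1, .done (by simp [hb]) hw h2⟩
    intro d hd
    have : d ≠ G.u c a := by
      rintro rfl
      rcases G.res_mem hw hd with ⟨a', h⟩ | ⟨a', h⟩
      · have := Sum.inl.inj (Sum.inl.inj h)
        have := (Prod.mk.inj this).2
        cases c <;> simp at this
      · cases h
    simp [this]

theorem pw_mem {o : Option G.I} {c : Bool} {l : List G.A} {v : List G.A}
    {ws : List (List G.LL)} {x : List G.LL} (h : G.PW o c l v ws x) {d : G.LL} (hd : d ∈ x) :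
    (∃ c' a', d = G.u c' a') ∨ ∃ a', d = G.t a' := by
  induction h with
  | nil => simp at hd
  | @keep b _ _ _ _ _ _ _ ih =>
    rcases List.mem_cons.mp hd with hd | hd
    · exact Or.inl ⟨c, b, hd⟩
    · exact ih hd
  | done _ hw _ ih =>
    rcases List.mem_append.mp hd with hd | hd
    · rcases G.res_mem hw hd with ⟨a', h⟩ | ⟨a', h⟩
      · exact Or.inl ⟨_, a', h⟩
      · exact Or.inr ⟨a', h⟩
    · exact ih hd

theorem pw_der {o : Option G.I} {c : Bool} (m : List G.A) (hm : m.Nodup) {l : List G.A}
    {v : List G.A} {ws : List (List G.LL)} {x : List G.LL} (h : G.PW o c l v ws x)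
    (hl : ∀ a ∈ m, a ∉ l) :
    ∃ y l', G.FDer (G.k o c :: x) (G.k o c :: y) ∧ G.PW o c l' v ws y ∧
      (∀ a, a ∈ m → a ∈ l') ∧ (∀ a ∈ l, a ∈ l') := by
  induction m generalizing l x with
  | nil => exact ⟨x, l, Relation.ReflTransGen.refl, h, by simp, fun a ha => ha⟩
  | cons a m ih =>
    rw [List.nodup_cons] at hm
    obtain ⟨y, h1, h2⟩ := G.pw_step h a (hl a (by simp))
    have hne : G.k o c ≠ G.u c a := by
      intro h; cases Sum.inl.inj h
    have s1 : G.FStep (G.k o c :: x) (G.k o c :: y) := by
      left
      refine ⟨a, c, o, Rew.cons (w := [G.k o c]) (by simp) h1, ?_⟩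
      intro _ o' c' hne' hmem
      rcases List.mem_cons.mp hmem with h | h
      · exact hne' (Sum.inr.inj (Sum.inl.inj h))
      · rcases G.pw_mem h2 h with ⟨c', a', h⟩ | ⟨a', h⟩
        · cases Sum.inl.inj h
        · cases h
    obtain ⟨z, l', h3, h4, h5, h6⟩ := ih hm.2 h2 (by
      intro b hb
      rw [List.mem_cons, not_or]
      exact ⟨fun h => hm.1 (h ▸ hb), hl b (by simp [hb])⟩)
    refine ⟨z, l', (Relation.ReflTransGen.single s1).trans h3, h4, ?_, ?_⟩
    · intro b hb
      rcases List.mem_cons.mp hb with rfl | hb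
      · exact h6 b (by simp)
      · exact h5 b hb
    · intro b hb
      exact h6 b (by simp [hb])

theorem pw_start {o : Option G.I} {c : Bool} {v : List G.A} {ws : List (List G.LL)}
    (h : List.Forall₂ (fun a w => w ∈ G.res o c a) v ws) :
    G.PW o c [] v ws (v.map (G.u c)) := by
  induction h with
  | nil => exact .nil
  | cons hw _ ih => exact .keep (by simp) hw ih

theorem pw_end {o : Option G.I} {c : Bool} {l : List G.A} (hl : ∀ a, a ∈ l) {v : List G.A}
    {ws : List (List G.LL)} {x : List G.LL} (h : G.PW o c l v ws x) : x = ws.flatten := by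
  induction h with
  | nil => rfl
  | keep ha _ _ _ => exact absurd (hl _) ha
  | done _ _ _ ih => rw [ih]; rfl

theorem full_pass {o : Option G.I} {c : Bool} {v : List G.A} {ws : List (List G.LL)}
    (h : List.Forall₂ (fun a w => w ∈ G.res o c a) v ws) :
    G.FDer (G.k o c :: v.map (G.u c)) (G.k o c :: ws.flatten) := by
  obtain ⟨y, l', h1, h2, h3, _⟩ := G.pw_der G.letters G.nodup_letters (G.pw_start h) (by simp)
  rw [G.pw_end (fun a => h3 a (G.mem_letters a)) h2] at h1
  exact h1

theorem sim_step {i : G.I} {c : Bool} {v v' : List G.A} (h : Rew (G.h i) v v')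
    (o : Option G.I) :
    G.FDer (G.k (some i) c :: v.map (G.u c)) (G.k o (!c) :: v'.map (G.u (!c))) := by
  have h1 : ∃ ws, List.Forall₂ (fun a w => w ∈ G.res (some i) c a) v ws ∧
      ws.flatten = v'.map (G.u (!c)) := by
    induction h with
    | nil => exact ⟨[], .nil, rfl⟩
    | @cons a v w v' hw _ ih =>
      obtain ⟨ws, h1, h2⟩ := ih
      refine ⟨w.map (G.u (!c)) :: ws, .cons ⟨w, hw, rfl⟩ h1, ?_⟩
      rw [List.flatten_cons, h2, List.map_append]
  obtain ⟨ws, h1, h2⟩ := h1
  have h3 := G.full_pass h1
  rw [h2] at h3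
  refine h3.tail (Or.inr ⟨some i, c, ?_, ?_⟩)
  · refine Rew.cons (w := [G.k o (!c)]) ?_ (Rew.id_of ?_)
    · rw [if_pos rfl]
      exact ⟨o, rfl⟩
    · intro d hd
      obtain ⟨a', _, rfl⟩ := List.mem_map.mp hd
      have : G.u (!c) a' ≠ G.k (some i) c := by
        intro h; cases Sum.inl.inj h
      simp
  · intro _ a hmem
    rcases List.mem_cons.mp hmem with h | h
    · cases Sum.inl.inj h
    · obtain ⟨a', _, h⟩ := List.mem_map.mp h
      have := (Prod.mk.inj (Sum.inl.inj (Sum.inl.inj h))).2
      cases c <;> simp at this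

theorem sim_end {c : Bool} (v : List G.A) :
    G.FDer (G.k none c :: v.map (G.u c)) (v.map G.t) := by
  have h1 : List.Forall₂ (fun a w => w ∈ G.res none c a) v (v.map (fun a => [G.t a])) := by
    induction v with
    | nil => exact .nil
    | cons a v ih => exact .cons (Set.mem_singleton _) ih
  have h2 : (v.map (fun a => [G.t a])).flatten = v.map G.t := by
    clear h1
    induction v with
    | nil => rfl
    | cons a v ih => rw [List.map_cons, List.flatten_cons, ih]; rfl
  have h3 := G.full_pass h1
  rw [h2] at h3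
  refine h3.tail (Or.inr ⟨none, c, ?_, ?_⟩)
  · refine Rew.cons (w := []) ?_ (Rew.id_of ?_)
    · rw [if_pos rfl]
      exact Set.mem_singleton _
    · intro d hd
      obtain ⟨a', _, rfl⟩ := List.mem_map.mp hd
      simp
  · intro _ a hmem
    obtain ⟨a', _, h⟩ := List.mem_map.mp hmem
    cases h

theorem sim_der {v v' : List G.A} (h : G.Der v v') :
    ∃ c, ∀ o, ∃ o', G.FDer (G.k o' false :: v.map (G.u false)) (G.k o c :: v'.map (G.u c)) := by
  induction h with
  | refl => exact ⟨false, fun o => ⟨o, Relation.ReflTransGen.refl⟩⟩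
  | tail _ hs ih =>
    obtain ⟨c, hc⟩ := ih
    obtain ⟨i, hi⟩ := hs
    refine ⟨!c, fun o => ?_⟩
    obtain ⟨o', ho'⟩ := hc (some i)
    exact ⟨o', ho'.trans (G.sim_step hi o)⟩

theorem init_step (i : G.I) (o : Option G.I) :
    G.FStep (G.k (some i) true :: G.ax.map (G.u false)) (G.k o false :: G.ax.map (G.u false)) := by
  refine Or.inr ⟨some i, true, ?_, ?_⟩
  · refine Rew.cons (w := [G.k o false]) ?_ (Rew.id_of ?_)
    · rw [if_pos rfl]
      exact ⟨o, rfl⟩
    · intro d hd
      obtain ⟨a', _, rfl⟩ := List.mem_map.mp hd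
      simp
  · intro _ a hmem
    rcases List.mem_cons.mp hmem with h | h
    · cases Sum.inl.inj h
    · obtain ⟨a', _, h⟩ := List.mem_map.mp h
      have := (Prod.mk.inj (Sum.inl.inj (Sum.inl.inj h))).2
      simp at this

theorem toF_lang : G.toF.lang = G.lang := by
  ext w
  constructor
  · rintro ⟨x, hx, hw⟩
    have hx := (G.fder_iff _ _).mp hx
    change List G.A at x
    have hno : ∀ o c x', (List.map Sum.inr x : List G.LL) ≠ G.k o c :: x' := by
      intro o c x' h
      cases x with
      | nil => cases h
      | cons a x => cases (List.cons.inj h).1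
    rcases G.inv_der hx with ⟨i, h⟩ | ⟨v, hv, ⟨o, c, x', h, _⟩ | h⟩
    · exact absurd h (hno _ _ _)
    · exact absurd h (hno _ _ _)
    · have : x = v := List.map_injective_iff.mpr Sum.inr_injective h
      subst this
      exact ⟨x, hv, hw⟩
  · rintro ⟨x, hx, hw⟩
    refine ⟨x, (G.fder_iff _ _).mpr ?_, hw⟩
    obtain ⟨c, hc⟩ := G.sim_der hx
    obtain ⟨o', ho'⟩ := hc none
    exact ((Relation.ReflTransGen.single (G.init_step _ o')).trans ho').trans (G.sim_end x)

/-- **Every ET0L language is generated by an ET0L system with at most two active letters in every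
table.** -/
theorem exists_two : ∃ G' : Sys T, G'.Restr 2 ∧ G'.lang = G.lang :=
  ⟨G.toF.toSys, G.toF.toSys_restr, by rw [FSys.toSys_lang, toF_lang]⟩

end Sys

end Pool.Agent.W88.LSys
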