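import Pool.Agent.W88.ET0LB

set_option autoImplicit false

namespace Pool.Agent.W88.LSys

open Classical

/-! ### Renaming -/

section rename

variable {A α : Type} (e : A → α) {h : A → Set (List A)} {h' : α → Set (List α)}

theorem Rew.map (heq : ∀ a, h' (e a) = (List.map e) '' h a) {x y : List A} (hr : Rew h x y) :
    Rew h' (x.map e) (y.map e) := by
  induction hr with
  | nil => exact .nil
  | @cons c x w y hw _ ih =>
    rw [List.map_append]
    refine Rew.cons ?_ ih
    rw [heq]
    exact ⟨w, hw, rfl⟩

theorem Rew.map_inv (heq : ∀ a, h' (e a) = (List.map e) '' h a) {x : List A} {z : List α}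
    (hr : Rew h' (x.map e) z) : ∃ y, Rew h x y ∧ z = y.map e := by
  induction x generalizing z with
  | nil => cases hr; exact ⟨[], .nil, rfl⟩
  | cons c x ih =>
    rw [List.map_cons] at hr
    cases hr with
    | @cons _ _ w z' hw hr =>
      obtain ⟨y, h1, rfl⟩ := ih hr
      rw [heq] at hw
      obtain ⟨w', hw', rfl⟩ := hw
      exact ⟨w' ++ y, .cons hw' h1, by rw [List.map_append]⟩

end rename

/-- An ET0L system `(Σ, H, ω, Δ)` whose letters are taken from the set `α` of symbols. -/
structure ET0L (α : Type) where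
  /-- the finite alphabet -/
  Sig : Finset α
  /-- the set of tables; a table is a substitution -/
  H : Set (α → Set (List α))
  H_finite : H.Finite
  H_nonempty : H.Nonempty
  /-- every table assigns to every letter of the alphabet a finite nonempty set of words over the
  alphabet -/
  table : ∀ h ∈ H, ∀ c ∈ Sig, (h c).Finite ∧ (h c).Nonempty ∧ ∀ w ∈ h c, ∀ d ∈ w, d ∈ Sig
  /-- the axiom -/
  start : List α
  start_ne : start ≠ []
  start_mem : ∀ c ∈ start, c ∈ Sig
  /-- the terminal alphabet -/
  Term : Finset α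
  Term_sub : Term ⊆ Sig

namespace ET0L

variable {α : Type}

/-- one derivation step -/
def Step (G : ET0L α) (x y : List α) : Prop := ∃ h ∈ G.H, Rew h x y

/-- the generated language -/
def lang (G : ET0L α) : Set (List α) :=
  {w | (∀ c ∈ w, c ∈ G.Term) ∧ Relation.ReflTransGen G.Step G.start w}

/-- at most `k` letters of the alphabet are active in every table -/
def Restricted (G : ET0L α) (k : ℕ) : Prop :=
  ∀ h ∈ G.H, {c | c ∈ G.Sig ∧ h c ≠ {[c]}}.ncard ≤ k

/-- the family of the languages generated by the `k`-restricted systems -/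
def Family (α : Type) (k : ℕ) : Set (Set (List α)) := {L | ∃ G : ET0L α, G.Restricted k ∧ L = G.lang}

theorem family_mono {k l : ℕ} (h : k ≤ l) : Family α k ⊆ Family α l := by
  rintro L ⟨G, hG, rfl⟩
  exact ⟨G, fun t ht => (hG t ht).trans h, rfl⟩

/-! ### From a literal system to an abstract one -/

section toSys

variable (G : ET0L α)

/-- the alphabet as a type -/
abbrev A : Type := {c : α // c ∈ G.Sig}

/-- the tables on the subtype -/
def sh (h : G.H) (a : G.A) : Set (List G.A) := {w | w.map Subtype.val ∈ h.1 a.1}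

theorem sh_eq (h : G.H) (a : G.A) : h.1 a.1 = (List.map Subtype.val) '' G.sh h a := by
  ext w
  constructor
  · intro hw
    have hmem := (G.table h.1 h.2 a.1 a.2).2.2 w hw
    refine ⟨w.attach.map (fun d => ⟨d.1, hmem d.1 d.2⟩), ?_, ?_⟩
    · change List.map _ _ ∈ h.1 a.1
      rw [List.map_map]
      have : (Subtype.val ∘ fun d : {x // x ∈ w} => (⟨d.1, hmem d.1 d.2⟩ : G.A)) =
          Subtype.val := rfl
      rw [this, List.attach_map_subtype_val]
      exact hw
    · rw [List.map_map]
      have : (Subtype.val ∘ fun d : {x // x ∈ w} => (⟨d.1, hmem d.1 d.2⟩ : G.A)) =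
          Subtype.val := rfl
      rw [this, List.attach_map_subtype_val]
  · rintro ⟨v, hv, rfl⟩
    exact hv

/-- the start word on the subtype -/
def sstart : List G.A := G.start.attach.map (fun d => ⟨d.1, G.start_mem d.1 d.2⟩)

theorem sstart_map : G.sstart.map Subtype.val = G.start := by
  unfold sstart
  rw [List.map_map]
  have : (Subtype.val ∘ fun d : {x // x ∈ G.start} => (⟨d.1, G.start_mem d.1 d.2⟩ : G.A)) =
      Subtype.val := rfl
  rw [this, List.attach_map_subtype_val]

/-- the abstract system -/
noncomputable def toSys : Sys α where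
  A := G.A
  finA := inferInstance
  I := G.H
  finI := G.H_finite.to_subtype
  neI := G.H_nonempty.to_subtype
  h := G.sh
  fin_h h a := by
    have := (G.table h.1 h.2 a.1 a.2).1
    rw [sh_eq] at this
    exact Set.Finite.of_finite_image this (List.map_injective_iff.mpr Subtype.val_injective).injOn
  ne_h h a := by
    have := (G.table h.1 h.2 a.1 a.2).2.1
    rw [sh_eq] at this
    exact Set.image_nonempty.mp this
  ax := G.sstart
  ax_ne := by
    intro h
    apply G.start_ne
    rw [← G.sstart_map, h]
    rfl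
  term a := if a.1 ∈ G.Term then some a.1 else none
  inj := by
    intro a b t h1 h2
    split_ifs at h1 h2
    apply Subtype.ext
    rw [Option.some_inj.mp h1, Option.some_inj.mp h2]

theorem der_toSys {x y : List G.A} (h : G.toSys.Der x y) :
    Relation.ReflTransGen G.Step (x.map Subtype.val) (y.map Subtype.val) := by
  induction h with
  | refl => exact Relation.ReflTransGen.refl
  | tail _ hs ih =>
    obtain ⟨i, hi⟩ := hs
    exact ih.tail ⟨i.1, i.2, Rew.map Subtype.val (G.sh_eq i) hi⟩

theorem der_toSys_inv {x : List G.A} {z : List α}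
    (h : Relation.ReflTransGen G.Step (x.map Subtype.val) z) :
    ∃ y : List G.A, G.toSys.Der x y ∧ z = y.map Subtype.val := by
  induction h with
  | refl => exact ⟨x, Relation.ReflTransGen.refl, rfl⟩
  | tail _ hs ih =>
    obtain ⟨y, h1, rfl⟩ := ih
    obtain ⟨t, ht, hr⟩ := hs
    obtain ⟨y', h2, rfl⟩ := Rew.map_inv Subtype.val (G.sh_eq ⟨t, ht⟩) hr
    exact ⟨y', h1.tail ⟨⟨t, ht⟩, h2⟩, rfl⟩

theorem toSys_lang : G.toSys.lang = G.lang := by
  ext w
  constructor
  · rintro ⟨x, hx, hw⟩
    have h1 : ∀ a ∈ (x : List G.A), a.1 ∈ G.Term := by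
      intro a ha
      by_contra hcon
      have h2 : G.toSys.term a ∈ x.map G.toSys.term := List.mem_map_of_mem ha
      rw [hw, List.mem_map] at h2
      obtain ⟨t, _, ht⟩ := h2
      have : G.toSys.term a = none := if_neg hcon
      rw [this] at ht
      cases ht
    have h2 : w = List.map Subtype.val (x : List G.A) := by
      have h4 : ∀ x : List G.A, (x.map Subtype.val).map some = x.map (fun a => some a.1) := by
        intro x
        rw [List.map_map]
        rfl
      have h3 : x.map G.toSys.term = (List.map Subtype.val (x : List G.A)).map some :=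
        (List.map_congr_left (fun a ha => if_pos (h1 a ha))).trans (h4 x).symm
      rw [h3] at hw
      exact (List.map_injective_iff.mpr (Option.some_injective _) hw).symm
    rw [h2]
    refine ⟨?_, ?_⟩
    · intro c hc
      obtain ⟨a, ha, rfl⟩ := List.mem_map.mp hc
      exact h1 a ha
    · have := G.der_toSys hx
      change Relation.ReflTransGen G.Step (G.sstart.map Subtype.val) _ at this
      rw [sstart_map] at this
      exact this
  · rintro ⟨hw, hd⟩
    rw [← G.sstart_map] at hd
    obtain ⟨y, h1, rfl⟩ := G.der_toSys_inv hd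
    refine ⟨y, h1, ?_⟩
    have h4 : ∀ x : List G.A, (x.map Subtype.val).map some = x.map (fun a => some a.1) := by
      intro x
      rw [List.map_map]
      rfl
    exact (List.map_congr_left (fun a ha => if_pos (hw a.1 (List.mem_map_of_mem ha)))).trans
      (h4 y).symm

end toSys

/-! ### From an abstract system to a literal one -/

section ofSys

variable (G : Sys α) (e : G.A → α) (he : Function.Injective e)

/-- the tables on `α` -/
def lh (i : G.I) (c : α) : Set (List α) := {w | ∃ a, e a = c ∧ ∃ v ∈ G.h i a, w = v.map e}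

include he in
theorem lh_eq (i : G.I) (a : G.A) : lh G e i (e a) = (List.map e) '' G.h i a := by
  ext w
  constructor
  · rintro ⟨b, hb, v, hv, rfl⟩
    rw [he hb] at hv
    exact ⟨v, hv, rfl⟩
  · rintro ⟨v, hv, rfl⟩
    exact ⟨a, rfl, v, hv, rfl⟩

/-- the literal system -/
noncomputable def ofSys : ET0L α where
  Sig := haveI := G.finA; (Set.finite_range e).toFinset
  H := Set.range (lh G e)
  H_finite := haveI := G.finI; Set.finite_range _
  H_nonempty := haveI := G.neI; Set.range_nonempty _
  table := by
    rintro _ ⟨i, rfl⟩ c hc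
    rw [Set.Finite.mem_toFinset] at hc
    obtain ⟨a, rfl⟩ := hc
    rw [lh_eq G e he]
    refine ⟨(G.fin_h i a).image _, (G.ne_h i a).image _, ?_⟩
    rintro _ ⟨v, _, rfl⟩ d hd
    rw [Set.Finite.mem_toFinset]
    obtain ⟨b, _, rfl⟩ := List.mem_map.mp hd
    exact ⟨b, rfl⟩
  start := G.ax.map e
  start_ne := by simpa using G.ax_ne
  start_mem := by
    intro c hc
    rw [Set.Finite.mem_toFinset]
    obtain ⟨b, _, rfl⟩ := List.mem_map.mp hc
    exact ⟨b, rfl⟩
  Term := haveI := G.finA; ((Set.toFinite {a | G.term a ≠ none}).image e).toFinset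
  Term_sub := by
    intro c hc
    rw [Set.Finite.mem_toFinset] at hc ⊢
    obtain ⟨a, _, rfl⟩ := hc
    exact ⟨a, rfl⟩

theorem mem_Term (c : α) : c ∈ (ofSys G e he).Term ↔ ∃ a, G.term a ≠ none ∧ e a = c := by
  change c ∈ Set.Finite.toFinset _ ↔ _
  rw [Set.Finite.mem_toFinset]
  rfl

theorem der_ofSys {x y : List G.A} (h : G.Der x y) :
    Relation.ReflTransGen (ofSys G e he).Step (x.map e) (y.map e) := by
  induction h with
  | refl => exact Relation.ReflTransGen.refl
  | tail _ hs ih =>
    obtain ⟨i, hi⟩ := hs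
    exact ih.tail ⟨lh G e i, ⟨i, rfl⟩, Rew.map e (lh_eq G e he i) hi⟩

theorem der_ofSys_inv {x : List G.A} {z : List α}
    (h : Relation.ReflTransGen (ofSys G e he).Step (x.map e) z) :
    ∃ y : List G.A, G.Der x y ∧ z = y.map e := by
  induction h with
  | refl => exact ⟨x, Relation.ReflTransGen.refl, rfl⟩
  | tail _ hs ih =>
    obtain ⟨y, h1, rfl⟩ := ih
    obtain ⟨_, ⟨i, rfl⟩, hr⟩ := hs
    obtain ⟨y', h2, rfl⟩ := Rew.map_inv e (lh_eq G e he i) hr
    exact ⟨y', h1.tail ⟨i, h2⟩, rfl⟩

theorem ofSys_lang (hc : ∀ a t, G.term a = some t → e a = t) : (ofSys G e he).lang = G.lang := by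
  have key : ∀ x : List G.A, (∀ a ∈ x, G.term a ≠ none) →
      x.map G.term = (x.map e).map some := by
    intro x hx
    rw [List.map_map]
    apply List.map_congr_left
    intro a ha
    obtain ⟨t, ht⟩ := Option.ne_none_iff_exists'.mp (hx a ha)
    rw [ht, ← hc a t ht]
    rfl
  ext w
  constructor
  · rintro ⟨hw, hd⟩
    obtain ⟨y, h1, rfl⟩ := der_ofSys_inv G e he hd
    refine ⟨y, h1, key y ?_⟩
    intro a ha
    obtain ⟨b, hb, hbe⟩ := (mem_Term G e he _).mp (hw (e a) (List.mem_map_of_mem ha))
    rw [← he hbe]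
    exact hb
  · rintro ⟨x, hx, hw⟩
    have h1 : ∀ a ∈ x, G.term a ≠ none := by
      intro a ha hcon
      have h2 : G.term a ∈ x.map G.term := List.mem_map_of_mem ha
      rw [hw, List.mem_map] at h2
      obtain ⟨t, _, ht⟩ := h2
      rw [hcon] at ht
      cases ht
    have h2 : w = x.map e := by
      rw [key x h1] at hw
      exact (List.map_injective_iff.mpr (Option.some_injective _) hw).symm
    rw [h2]
    refine ⟨?_, der_ofSys G e he hx⟩
    intro c hcm
    obtain ⟨a, ha, rfl⟩ := List.mem_map.mp hcm
    exact (mem_Term G e he _).mpr ⟨a, h1 a ha, rfl⟩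

theorem ofSys_restr {k : ℕ} (hk : G.Restr k) : (ofSys G e he).Restricted k := by
  rintro _ ⟨i, rfl⟩
  have hsub : {c | c ∈ (ofSys G e he).Sig ∧ lh G e i c ≠ {[c]}} ⊆ e '' {a | G.h i a ≠ {[a]}} := by
    rintro c ⟨hc, hne⟩
    have hc' : c ∈ Set.range e := by
      have := G.finA
      exact (Set.Finite.mem_toFinset (Set.finite_range e)).mp hc
    obtain ⟨a, rfl⟩ := hc'
    refine ⟨a, ?_, rfl⟩
    intro h
    apply hne
    rw [lh_eq G e he, h]
    simp
  have h1 : {c | c ∈ (ofSys G e he).Sig ∧ lh G e i c ≠ {[c]}}.encard ≤ k :=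
    (Set.encard_le_encard hsub).trans ((Set.encard_image_le _ _).trans (hk i))
  have h2 : {c | c ∈ (ofSys G e he).Sig ∧ lh G e i c ≠ {[c]}}.Finite :=
    Set.finite_of_encard_le_coe h1
  rw [← h2.cast_ncard_eq] at h1
  exact_mod_cast h1

end ofSys

/-- a system can be realised with letters in an infinite set of symbols -/
theorem exists_embedding [Infinite α] (G : Sys α) :
    ∃ e : G.A → α, Function.Injective e ∧ ∀ a t, G.term a = some t → e a = t := by
  have := G.finA
  let S : Set α := {t | ∃ a, G.term a = some t}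
  have hS : S.Finite := by
    have : S ⊆ Set.range (fun a : G.A => (G.term a).getD (Classical.arbitrary α)) := by
      rintro t ⟨a, ha⟩
      exact ⟨a, by simp [ha]⟩
    exact (Set.finite_range _).subset this
  have hinf : Infinite ↥(Sᶜ) := hS.infinite_compl.to_subtype
  obtain ⟨n, ⟨eq⟩⟩ := Finite.exists_equiv_fin G.A
  let f : G.A → ↥(Sᶜ) := fun a => Infinite.natEmbedding ↥(Sᶜ) (eq a).val
  have hf : Function.Injective f := by
    intro a b hab
    exact eq.injective (Fin.ext ((Infinite.natEmbedding ↥(Sᶜ)).injective hab))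
  refine ⟨fun a => match G.term a with
    | some t => t
    | none => (f a).1, ?_, ?_⟩
  · intro a b hab
    simp only at hab
    rcases ha : G.term a with _ | t <;> rcases hb : G.term b with _ | s <;>
      rw [ha, hb] at hab <;> simp only at hab
    · exact hf (Subtype.ext hab)
    · exact absurd ⟨b, by rw [hb, hab]⟩ (f a).2
    · exact absurd ⟨a, by rw [ha, ← hab]⟩ (f b).2
    · subst hab
      exact G.inj a b t ha hb
  · intro a t ha
    simp only [ha]

/-- every ET0L language is generated by a 2-restricted system -/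
theorem mem_family_two [Infinite α] (G : ET0L α) : G.lang ∈ Family α 2 := by
  obtain ⟨G', h1, h2⟩ := G.toSys.exists_two
  obtain ⟨e, he, hc⟩ := exists_embedding G'
  exact ⟨ofSys G' e he, ofSys_restr G' e he h1, by rw [ofSys_lang G' e he hc, h2, toSys_lang]⟩

theorem family_eq [Infinite α] {k : ℕ} (hk : 2 ≤ k) : Family α k = {L | ∃ G : ET0L α, L = G.lang} := by
  apply Set.Subset.antisymm
  · rintro L ⟨G, _, rfl⟩
    exact ⟨G, rfl⟩
  · rintro L ⟨G, rfl⟩
    exact family_mono hk G.mem_family_two

end ET0L

end Pool.Agent.W88.LSys
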