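import Pool.Agent.W88.ET0LC

set_option autoImplicit false

namespace Pool.Agent.W88.LSys

open Classical

/-! ### The language `0^n 1^n 2^n` is not generated by a 1-restricted system -/

/-- the word `0^n 1^n 2^n` -/
def abc (n : ℕ) : List (Fin 3) :=
  List.replicate n 0 ++ List.replicate n 1 ++ List.replicate n 2

theorem abc_count (n : ℕ) (s : Fin 3) : (abc n).count s = n := by
  unfold abc
  fin_cases s <;> simp [List.count_replicate]

theorem abc_length (n : ℕ) : (abc n).length = 3 * n := by
  simp [abc]; ring

theorem abc_sorted (n : ℕ) : (abc n).Pairwise (· ≤ ·) := by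
  unfold abc
  rw [List.pairwise_append, List.pairwise_append]
  refine ⟨⟨?_, ?_, ?_⟩, ?_, ?_⟩
  · simp [List.pairwise_replicate]
  · simp [List.pairwise_replicate]
  · intro x hx y hy
    rw [List.eq_of_mem_replicate hx]
    exact Fin.zero_le _
  · simp [List.pairwise_replicate]
  · intro x hx y hy
    rw [List.eq_of_mem_replicate hy]
    exact Fin.le_last x

theorem eq_of_counts {u v : List (Fin 3)} (hu : u.Pairwise (· ≤ ·)) (hv : v.Pairwise (· ≤ ·))
    (h : ∀ s, u.count s = v.count s) : u = v :=
  (List.perm_iff_count.mpr h).eq_of_pairwise' hu hv

/-- a factor of a sorted word with a `0` and a `2` contains all the letters `1` -/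
theorem factor_count {p u q : List (Fin 3)} (h : (p ++ u ++ q).Pairwise (· ≤ ·))
    (h0 : 0 ∈ u) (h2 : 2 ∈ u) : (p ++ u ++ q).count 1 = u.count 1 := by
  rw [List.pairwise_append, List.pairwise_append] at h
  obtain ⟨⟨_, _, h3⟩, _, h4⟩ := h
  have hp : p.count 1 = 0 := by
    rw [List.count_eq_zero]
    intro h1
    exact absurd (h3 1 h1 0 h0) (by decide)
  have hq : q.count 1 = 0 := by
    rw [List.count_eq_zero]
    intro h1
    exact absurd (h4 2 (List.mem_append_right _ h2) 1 h1) (by decide)
  rw [List.count_append, List.count_append, hp, hq]
  omega

/-- the exchange lemma -/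
theorem exchange {P u Q v S : List (Fin 3)} {N N₁ N₂ : ℕ}
    (h : P ++ u ++ Q ++ v ++ S = abc N) (h₁ : P ++ v ++ Q ++ v ++ S = abc N₁)
    (h₂ : P ++ u ++ Q ++ u ++ S = abc N₂) : u = v := by
  have c0 : ∀ s, P.count s + u.count s + Q.count s + v.count s + S.count s = N := by
    intro s
    rw [← abc_count N s, ← h]
    simp only [List.count_append]
  have c1 : ∀ s, P.count s + v.count s + Q.count s + v.count s + S.count s = N₁ := by
    intro s
    rw [← abc_count N₁ s, ← h₁]
    simp only [List.count_append]
  have c2 : ∀ s, P.count s + u.count s + Q.count s + u.count s + S.count s = N₂ := by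
    intro s
    rw [← abc_count N₂ s, ← h₂]
    simp only [List.count_append]
  have twice : ∀ (w : List (Fin 3)) (M : ℕ), P ++ w ++ Q ++ w ++ S = abc M →
      0 ∈ w → 2 ∈ w → False := by
    intro w M hM h0 h2
    have hs := abc_sorted M
    rw [← hM, List.pairwise_append, List.pairwise_append] at hs
    have := hs.1.2.2 2 (by simp [h2]) 0 h0
    exact absurd this (by decide)
  have hs := abc_sorted N
  rw [← h, List.pairwise_append, List.pairwise_append] at hs
  have hv : v.Pairwise (· ≤ ·) := hs.1.2.1
  have hu : u.Pairwise (· ≤ ·) := by
    have := hs.1.1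
    rw [List.pairwise_append, List.pairwise_append] at this
    exact this.1.2.1
  apply eq_of_counts hu hv
  rcases lt_trichotomy N N₁ with hlt | heq | hgt
  · exfalso
    apply twice v N₁ h₁
    · apply List.count_pos_iff.mp
      have := c0 0; have := c1 0; omega
    · apply List.count_pos_iff.mp
      have := c0 2; have := c1 2; omega
  · intro s
    have := c0 s; have := c1 s; omega
  · exfalso
    apply twice u N₂ h₂
    · apply List.count_pos_iff.mp
      have := c0 0; have := c1 0; omega
    · apply List.count_pos_iff.mp
      have := c0 2; have := c1 2; omega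

/-! #### Straight-line programs -/

section prog

variable {A : Type}

/-- values of the letters under a straight-line program -/
noncomputable def Y : List (A × List A) → A → List A
  | [], a => [a]
  | (c, z) :: P, a => if a = c then z.flatMap (Y P) else Y P a

theorem Y_append (P Q : List (A × List A)) (a : A) : Y (P ++ Q) a = (Y P a).flatMap (Y Q) := by
  induction P generalizing a with
  | nil => simp [Y]
  | cons o P ih =>
    obtain ⟨c, z⟩ := o
    rw [List.cons_append]
    unfold Y
    split_ifs with h
    · rw [List.flatMap_assoc]
      congr 1
      funext b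
      exact ih b
    · exact ih a

theorem Y_length {K : ℕ} (hK : 1 ≤ K) (P : List (A × List A)) (hP : ∀ o ∈ P, o.2.length ≤ K)
    (a : A) : (Y P a).length ≤ K ^ P.length := by
  induction P generalizing a with
  | nil => simp [Y]
  | cons o P ih =>
    obtain ⟨c, z⟩ := o
    have ih' := ih (fun o ho => hP o (by simp [ho]))
    have hz : z.length ≤ K := hP (c, z) (by simp)
    unfold Y
    rw [List.length_cons, pow_succ]
    split_ifs with h
    · have key : ∀ l : List A, (l.flatMap (Y P)).length ≤ l.length * K ^ P.length := by
        intro l
        induction l with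
        | nil => simp
        | cons b l ihl =>
          rw [List.flatMap_cons, List.length_append, List.length_cons]
          have := ih' b
          nlinarith
      calc _ ≤ z.length * K ^ P.length := key z
        _ ≤ K * K ^ P.length := Nat.mul_le_mul_right _ hz
        _ = K ^ P.length * K := by ring
    · calc _ ≤ K ^ P.length := ih' a
        _ ≤ K ^ P.length * K := Nat.le_mul_of_pos_right _ hK

theorem flatMap_length_le {K : ℕ} {f : A → List A} (hf : ∀ a, (f a).length ≤ K) (l : List A) :
    (l.flatMap f).length ≤ l.length * K := by
  induction l with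
  | nil => simp
  | cons b l ihl =>
    rw [List.flatMap_cons, List.length_append, List.length_cons]
    have := hf b
    nlinarith

variable (O : Set (A × List A)) (ax : List A) (term : A → Option (Fin 3))

/-- the result of a program, read with `term` -/
noncomputable def res (P : List (A × List A)) : List (Option (Fin 3)) :=
  (ax.flatMap (Y P)).map term

/-- counting through a `flatMap` when the value of one letter is changed -/
theorem count_change (c : A) (f g : A → List A) (hfg : ∀ a, a ≠ c → f a = g a)
    (x : List A) (s : Option (Fin 3)) :
    ((x.flatMap f).map term).count s + x.count c * ((g c).map term).count s =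
      ((x.flatMap g).map term).count s + x.count c * ((f c).map term).count s := by
  induction x with
  | nil => simp
  | cons a x ih =>
    rw [List.flatMap_cons, List.flatMap_cons, List.map_append, List.map_append,
      List.count_append, List.count_append]
    by_cases h : a = c
    · subst h
      rw [List.count_cons_self]
      linarith [ih]
    · rw [List.count_cons_of_ne h, hfg a h]
      linarith [ih]

theorem map_some_of {l : List A} (h : ∀ a ∈ l, term a ≠ none) :
    ∃ w : List (Fin 3), l.map term = w.map some := by
  induction l with
  | nil => exact ⟨[], rfl⟩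
  | cons a l ih =>
    obtain ⟨w, hw⟩ := ih (fun b hb => h b (by simp [hb]))
    obtain ⟨t, ht⟩ := Option.ne_none_iff_exists'.mp (h a (by simp))
    exact ⟨t :: w, by simp [hw, ht]⟩

theorem term_of_map {l : List A} {w : List (Fin 3)} (h : l.map term = w.map some) :
    ∀ a ∈ l, term a ≠ none := by
  intro a ha hn
  have h2 : term a ∈ l.map term := List.mem_map_of_mem ha
  rw [h, List.mem_map] at h2
  obtain ⟨t, _, ht⟩ := h2
  rw [hn] at ht
  cases ht

theorem count_map_some {l : List A} {w : List (Fin 3)} (h : l.map term = w.map some) (s : Fin 3) :
    (l.map term).count (some s) = w.count s := by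
  rw [h, List.count_map_of_injective _ _ (Option.some_injective _)]

/-- a factor of a word with result `w` -/
theorem factor {x : List A} {f : A → List A} {w : List (Fin 3)}
    (h : (x.flatMap f).map term = w.map some) {c : A} (hc : c ∈ x) :
    ∃ p v q : List (Fin 3), w = p ++ v ++ q ∧ (f c).map term = v.map some := by
  obtain ⟨x₁, x₂, rfl⟩ := List.append_of_mem hc
  rw [List.flatMap_append, List.flatMap_cons, List.map_append, List.map_append] at h
  obtain ⟨p, r, rfl, hp, hr⟩ := List.append_eq_map_iff.mp h
  obtain ⟨v, q, rfl, hv, hq⟩ := List.append_eq_map_iff.mp hr.symm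
  exact ⟨p, v, q, by rw [List.append_assoc], hv.symm⟩

/-- the main counting argument -/
theorem no_program [Finite A] {K : ℕ} (hK : 1 ≤ K) (hO : ∀ o ∈ O, o.2.length ≤ K)
    (hsound : ∀ P : List (A × List A), (∀ o ∈ P, o ∈ O) → ∀ w : List (Fin 3),
      res ax term P = w.map some → ∃ n, w = abc n)
    (hcomplete : ∀ n, ∃ P : List (A × List A), (∀ o ∈ P, o ∈ O) ∧
      res ax term P = (abc n).map some) : False := by
  have := Fintype.ofFinite A
  set m := Fintype.card A with hm
  let N := K ^ (m + 1) + ax.length * K ^ m + 1
  have hex : ∃ r, ∃ P : List (A × List A), P.length = r ∧ (∀ o ∈ P, o ∈ O) ∧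
      res ax term P = (abc N).map some := by
    obtain ⟨P, h1, h2⟩ := hcomplete N
    exact ⟨P.length, P, rfl, h1, h2⟩
  obtain ⟨P, hlen, hPO, hPN⟩ := Nat.find_spec hex
  have hmin : ∀ P' : List (A × List A), (∀ o ∈ P', o ∈ O) → P'.length < P.length →
      res ax term P' ≠ (abc N).map some := by
    intro P' h1 h2 h3
    rw [hlen] at h2
    exact Nat.find_min hex h2 ⟨P', rfl, h1, h3⟩
  -- the key property of the suffixes
  have key : ∀ (S P₁ : List (A × List A)), P = P₁ ++ S →
      (S.map Prod.fst).Nodup ∧
      (∀ d ∈ S.map Prod.fst, (∀ e ∈ Y S d, term e ≠ none) ∧ (Y S d).length < N) ∧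
      (∀ d, d ∉ S.map Prod.fst → Y S d = [d]) := by
    intro S
    induction S with
    | nil => intro P₁ _; exact ⟨by simp, by simp, fun d _ => rfl⟩
    | cons o S ih =>
      obtain ⟨c, z⟩ := o
      intro P₁ hP₁
      obtain ⟨i1, i2, i3⟩ := ih (P₁ ++ [(c, z)]) (by rw [hP₁]; simp)
      have hOS : ∀ o ∈ S, o ∈ O := fun o ho => hPO o (by rw [hP₁]; simp [ho])
      have hOc : (c, z) ∈ O := hPO _ (by rw [hP₁]; simp)
      have hOP : ∀ o ∈ P₁, o ∈ O := fun o ho => hPO o (by rw [hP₁]; simp [ho])
      set x := ax.flatMap (Y P₁) with hx
      have hout : (x.flatMap (Y ((c, z) :: S))).map term = (abc N).map some := by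
        rw [← hPN, hP₁, hx, res, List.flatMap_assoc]
        congr 2
        funext a
        rw [Y_append]
      have hYc : Y ((c, z) :: S) c = z.flatMap (Y S) := by simp [Y]
      have hYd : ∀ d, d ≠ c → Y ((c, z) :: S) d = Y S d := by
        intro d hd
        simp [Y, hd]
      have hres' : res ax term (P₁ ++ S) = (x.flatMap (Y S)).map term := by
        rw [hx, res, List.flatMap_assoc]
        congr 2
        funext a
        rw [Y_append]
      have hne : res ax term (P₁ ++ S) ≠ (abc N).map some := by
        apply hmin
        · intro o ho
          rcases List.mem_append.mp ho with h | h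
          · exact hOP o h
          · exact hOS o h
        · rw [hP₁]; simp
      -- the letter is used
      have hcx : c ∈ x := by
        by_contra hcon
        apply hne
        rw [hres', ← hout]
        congr 1
        apply List.flatMap_congr
        intro d hd
        rw [hYd d (fun h => hcon (h ▸ hd))]
      obtain ⟨p, v, q, hpvq, hv⟩ := factor term hout hcx
      have hvterm : ∀ e ∈ Y ((c, z) :: S) c, term e ≠ none := term_of_map term hv
      have hvlen : (Y ((c, z) :: S) c).length < N := by
        have h1 : (Y ((c, z) :: S) c).length ≤ K ^ ((c, z) :: S).length := by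
          apply Y_length hK
          intro o ho
          exact hO o (by
            rcases List.mem_cons.mp ho with h | h
            · rw [h]; exact hOc
            · exact hOS o h)
        have h2 : S.length ≤ m := by
          have := i1.length_le_card
          rwa [List.length_map] at this
        have h3 : K ^ ((c, z) :: S).length ≤ K ^ (m + 1) := by
          apply Nat.pow_le_pow_right hK
          simp only [List.length_cons]
          omega
        have : K ^ (m + 1) < N := by
          have : 0 ≤ ax.length * K ^ m := Nat.zero_le _
          omega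
        omega
      have hcS : c ∉ S.map Prod.fst := by
        intro hcS
        obtain ⟨hut, hul⟩ := i2 c hcS
        -- dropping the operation gives a terminal word
        have hterm' : ∀ e ∈ x.flatMap (Y S), term e ≠ none := by
          intro e he
          obtain ⟨d, hd, he⟩ := List.mem_flatMap.mp he
          by_cases hdc : d = c
          · subst hdc
            exact hut e he
          · apply term_of_map term hout e
            rw [List.mem_flatMap]
            exact ⟨d, hd, by rw [hYd d hdc]; exact he⟩
        obtain ⟨w', hw'⟩ := map_some_of term hterm'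
        obtain ⟨N', hN'⟩ := hsound (P₁ ++ S) (by
          intro o ho
          rcases List.mem_append.mp ho with h | h
          · exact hOP o h
          · exact hOS o h) w' (by rw [hres', hw'])
        have hNN : N' ≠ N := by
          rintro rfl
          apply hne
          rw [hres', hw', hN']
        obtain ⟨p', u, q', hpuq, hu⟩ := factor term hw' hcx
        have hcount : ∀ s : Fin 3, N + x.count c * u.count s = N' + x.count c * v.count s := by
          intro s
          have h1 := count_change term c (Y ((c, z) :: S)) (Y S) hYd x (some s)
          rw [count_map_some term hout, count_map_some term hw', count_map_some term hv,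
            count_map_some term hu, abc_count, hN', abc_count] at h1
          exact h1
        have hcpos : 0 < x.count c := List.count_pos_iff.mpr hcx
        rcases lt_or_gt_of_ne hNN with hlt | hgt
        · -- `v` contains all the letters 1 of `abc N`
          have hvs : ∀ s : Fin 3, s ∈ v := by
            intro s
            by_contra hcon
            have := hcount s
            rw [List.count_eq_zero.mpr hcon] at this
            have : 0 ≤ x.count c * u.count s := Nat.zero_le _
            omega
          have hsrt := abc_sorted N
          rw [hpvq] at hsrt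
          have h1 := factor_count hsrt (hvs 0) (hvs 2)
          rw [← hpvq, abc_count] at h1
          have h2 : v.count 1 ≤ v.length := List.count_le_length
          have h3 : v.length = (Y ((c, z) :: S) c).length := by
            have := congrArg List.length hv
            simpa using this.symm
          omega
        · have hus : ∀ s : Fin 3, s ∈ u := by
            intro s
            by_contra hcon
            have := hcount s
            rw [List.count_eq_zero.mpr hcon] at this
            have : 0 ≤ x.count c * v.count s := Nat.zero_le _
            omega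
          have hsrt := abc_sorted N'
          rw [← hN', hpuq] at hsrt
          have h1 := factor_count hsrt (hus 0) (hus 2)
          rw [← hpuq, hN', abc_count] at h1
          have h2 : u.count 1 ≤ u.length := List.count_le_length
          have h3 : u.length = (Y S c).length := by
            have := congrArg List.length hu
            simpa using this.symm
          omega
      refine ⟨?_, ?_, ?_⟩
      · rw [List.map_cons, List.nodup_cons]
        exact ⟨hcS, i1⟩
      · intro d hd
        rw [List.map_cons, List.mem_cons] at hd
        by_cases hdc : d = c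
        · subst hdc
          exact ⟨hvterm, hvlen⟩
        · rw [hYd d hdc]
          exact i2 d (hd.resolve_left hdc)
      · intro d hd
        rw [List.map_cons, List.mem_cons, not_or] at hd
        rw [hYd d hd.1]
        exact i3 d hd.2
  obtain ⟨k1, _, _⟩ := key P [] rfl
  have h2 : P.length ≤ m := by
    have := k1.length_le_card
    rwa [List.length_map] at this
  have h3 : (ax.flatMap (Y P)).length ≤ ax.length * K ^ m := by
    apply flatMap_length_le
    intro a
    exact (Y_length hK P (fun o ho => hO o (hPO o ho)) a).trans (Nat.pow_le_pow_right hK h2)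
  have h4 : (ax.flatMap (Y P)).length = 3 * N := by
    have := congrArg List.length hPN
    rw [res, List.length_map, List.length_map, abc_length] at this
    exact this
  have : 0 ≤ K ^ (m + 1) := Nat.zero_le _
  omega

end prog

/-! #### Determinisation -/

/-- substitution of one letter -/
noncomputable def sb {A : Type} (c : A) (z : List A) (a : A) : List A := if a = c then z else [a]

theorem Rew.det {A : Type} {h : A → Set (List A)} {f : A → List A} {x : List A}
    (hf : ∀ a ∈ x, f a ∈ h a) : Rew h x (x.flatMap f) := by
  induction x with
  | nil => exact .nil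
  | cons a x ih =>
    rw [List.flatMap_cons]
    exact .cons (hf a (by simp)) (ih (fun b hb => hf b (by simp [hb])))

theorem flatMap_Y_cons {A : Type} (c : A) (z : List A) (P : List (A × List A)) (x : List A) :
    x.flatMap (Y ((c, z) :: P)) = (x.flatMap (sb c z)).flatMap (Y P) := by
  rw [List.flatMap_assoc]
  congr 1
  funext a
  by_cases h : a = c
  · simp [Y, sb, h]
  · simp [Y, sb, h]

theorem flatMap_Y_nil {A : Type} (x : List A) : x.flatMap (Y ([] : List (A × List A))) = x := by
  have : (Y ([] : List (A × List A))) = fun a => [a] := by
    funext a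
    rfl
  rw [this]
  simp

theorem flatMap_sb_of_notMem {A : Type} {c : A} {z : List A} {x : List A} (h : c ∉ x) :
    x.flatMap (sb c z) = x := by
  induction x with
  | nil => rfl
  | cons a x ih =>
    rw [List.mem_cons, not_or] at h
    rw [List.flatMap_cons, ih h.2, sb, if_neg (Ne.symm h.1)]
    rfl

section one

variable (G : Sys (Fin 3)) (act : G.I → G.A) (hact : ∀ i d, d ≠ act i → G.h i d = {[d]})

/-- the operations allowed by the tables -/
def Ops : Set (G.A × List G.A) := {o | ∃ i, o.1 = act i ∧ o.2 ∈ G.h i (act i)}

include hact in
theorem sb_ok {i : G.I} {z : List G.A} (hz : z ∈ G.h i (act i)) (a : G.A) :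
    sb (act i) z a ∈ G.h i a := by
  unfold sb
  split_ifs with h
  · rw [h]; exact hz
  · rw [hact i a h]; rfl

include hact in
theorem der_prog (P : List (G.A × List G.A)) (hP : ∀ o ∈ P, o ∈ Ops G act) (x : List G.A) :
    G.Der x (x.flatMap (Y P)) := by
  induction P generalizing x with
  | nil => rw [flatMap_Y_nil]; exact Relation.ReflTransGen.refl
  | cons o P ih =>
    obtain ⟨c, z⟩ := o
    obtain ⟨i, hc, hz⟩ := hP (c, z) (by simp)
    simp only at hc hz
    subst hc
    rw [flatMap_Y_cons]
    refine Relation.ReflTransGen.head ⟨i, Rew.det (fun a _ => sb_ok G act hact hz a)⟩ ?_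
    exact ih (fun o ho => hP o (by simp [ho])) _

variable (hlang : G.lang = {w | ∃ n, w = abc n})

include hact hlang in
theorem sound_prog (P : List (G.A × List G.A)) (hP : ∀ o ∈ P, o ∈ Ops G act) {x : List G.A}
    (hx : G.Der G.ax x) {w : List (Fin 3)} (hw : (x.flatMap (Y P)).map G.term = w.map some) :
    ∃ n, w = abc n := by
  have : w ∈ G.lang := ⟨_, hx.trans (der_prog G act hact P hP x), hw⟩
  rw [hlang] at this
  exact this

include hact hlang in
theorem unify {i : G.I} {P : List (G.A × List G.A)} (hP : ∀ o ∈ P, o ∈ Ops G act) {N : ℕ}
    {p z : List G.A} (hp : act i ∉ p) (hz : z ∈ G.h i (act i)) (q₂ : List G.A) :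
    ∀ (q₁ q₂' : List G.A), G.Der G.ax (p ++ act i :: (q₁ ++ q₂)) → Rew (G.h i) q₂ q₂' →
      ((p ++ z ++ q₁.flatMap (sb (act i) z) ++ q₂').flatMap (Y P)).map G.term = (abc N).map some →
      ((p ++ z ++ q₁.flatMap (sb (act i) z) ++ q₂.flatMap (sb (act i) z)).flatMap (Y P)).map
        G.term = (abc N).map some := by
  induction q₂ with
  | nil =>
    intro q₁ q₂' _ hr h
    cases hr
    exact h
  | cons d q₂ ih =>
    intro q₁ q₂' hx hr h
    cases hr with
    | @cons _ _ w q₂t hw hr =>
      by_cases hd : d = act i
      · subst hd
        -- the exchange argument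
        have hidp : Rew (G.h i) p p := Rew.id_of (fun a ha => by
          rw [hact i a (fun h => hp (h ▸ ha))]; rfl)
        have hdq : Rew (G.h i) q₁ (q₁.flatMap (sb (act i) z)) :=
          Rew.det (fun a _ => sb_ok G act hact hz a)
        have r1 : Rew (G.h i) (p ++ act i :: (q₁ ++ act i :: q₂))
            (p ++ (w ++ (q₁.flatMap (sb (act i) z) ++ (w ++ q₂t)))) :=
          hidp.append (.cons hw (hdq.append (.cons hw hr)))
        have r2 : Rew (G.h i) (p ++ act i :: (q₁ ++ act i :: q₂))
            (p ++ (z ++ (q₁.flatMap (sb (act i) z) ++ (z ++ q₂t)))) :=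
          hidp.append (.cons hz (hdq.append (.cons hz hr)))
        have h' := h
        simp only [List.flatMap_append, List.map_append, List.append_assoc] at h'
        obtain ⟨P', R1, e1, eP, e2⟩ := List.append_eq_map_iff.mp h'
        obtain ⟨u', R2, e3, eu, e4⟩ := List.append_eq_map_iff.mp e2.symm
        obtain ⟨Q', R3, e5, eQ, e6⟩ := List.append_eq_map_iff.mp e4.symm
        obtain ⟨v', S', e7, ev, eS⟩ := List.append_eq_map_iff.mp e6.symm
        subst e7 e5 e3
        obtain ⟨N₁, hN₁⟩ := sound_prog G act hact hlang P hP (hx.tail ⟨i, r1⟩)
          (w := P' ++ v' ++ Q' ++ v' ++ S') (by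
            simp only [List.flatMap_append, List.map_append, List.append_assoc]
            rw [eP, eQ, ev, eS])
        obtain ⟨N₂, hN₂⟩ := sound_prog G act hact hlang P hP (hx.tail ⟨i, r2⟩)
          (w := P' ++ u' ++ Q' ++ u' ++ S') (by
            simp only [List.flatMap_append, List.map_append, List.append_assoc]
            rw [eP, eQ, eu, eS])
        have huv : u' = v' := exchange (P := P') (Q := Q') (S := S') (by
          rw [e1]; simp only [List.append_assoc]) hN₁ hN₂
        have hgz : (z.flatMap (Y P)).map G.term = (w.flatMap (Y P)).map G.term := by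
          rw [← eu, ← ev, huv]
        have h3 := ih (q₁ ++ [act i]) q₂t (by
          simpa only [List.append_assoc, List.singleton_append] using hx) hr (by
          rw [← h]
          simp only [List.flatMap_append, List.map_append, List.append_assoc,
            List.flatMap_cons, List.flatMap_nil, List.append_nil]
          have : sb (act i) z (act i) = z := if_pos rfl
          rw [this, hgz])
        rw [← h3]
        simp only [List.flatMap_append, List.map_append, List.append_assoc,
            List.flatMap_cons, List.flatMap_nil, List.append_nil]
      · rw [hact i d hd, Set.mem_singleton_iff] at hw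
        subst hw
        have hsb : sb (act i) z d = [d] := if_neg hd
        have h3 := ih (q₁ ++ [d]) q₂t (by
          simpa only [List.append_assoc, List.singleton_append] using hx) hr (by
          rw [← h]
          simp only [List.flatMap_append, List.map_append, List.append_assoc,
            List.flatMap_cons, List.flatMap_nil, List.append_nil, hsb])
        rw [← h3]
        simp only [List.flatMap_append, List.map_append, List.append_assoc,
            List.flatMap_cons, List.flatMap_nil, List.append_nil, hsb]

include hact hlang in
theorem determinise {N : ℕ} {x y : List G.A} (h : G.Der x y)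
    (hy : y.map G.term = (abc N).map some) : G.Der G.ax x →
    ∃ P : List (G.A × List G.A), (∀ o ∈ P, o ∈ Ops G act) ∧
      (x.flatMap (Y P)).map G.term = (abc N).map some := by
  induction h using Relation.ReflTransGen.head_induction_on with
  | refl =>
    intro _
    exact ⟨[], by simp, by rw [flatMap_Y_nil]; exact hy⟩
  | @head x x' hs _ ih =>
    intro hx
    obtain ⟨P, hP, hw⟩ := ih (hx.tail hs)
    obtain ⟨i, hr⟩ := hs
    by_cases hc : act i ∈ x
    · obtain ⟨p, q, rfl, hp⟩ := List.eq_append_cons_of_mem hc
      obtain ⟨p', r, h1, h2, rfl⟩ := hr.append_inv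
      have hpp : p' = p := h1.eq_of_id (fun a ha => hact i a (fun h => hp (h ▸ ha)))
      subst hpp
      cases h2 with
      | @cons _ _ z q' hz hq =>
        have h3 := unify G act hact hlang hP hp hz q [] q' hx hq (by
          rw [← hw]
          simp only [List.flatMap_nil, List.append_nil, List.append_assoc])
        refine ⟨(act i, z) :: P, ?_, ?_⟩
        · intro o ho
          rcases List.mem_cons.mp ho with rfl | ho
          · exact ⟨i, rfl, hz⟩
          · exact hP o ho
        · rw [← h3, flatMap_Y_cons]
          congr 2
          rw [List.flatMap_append, List.flatMap_cons, flatMap_sb_of_notMem hp]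
          have : sb (act i) z (act i) = z := if_pos rfl
          rw [this]
          simp
    · have : x' = x := hr.eq_of_id (fun a ha => hact i a (fun h => hc (h ▸ ha)))
      rw [this] at hw
      exact ⟨P, hP, hw⟩

end one

/-- a 1-restricted system does not generate `{0^n 1^n 2^n}` -/
theorem not_one (G : Sys (Fin 3)) (hG : G.Restr 1) : G.lang ≠ {w | ∃ n, w = abc n} := by
  intro hlang
  have hne : Nonempty G.A := by
    obtain ⟨a, l, _⟩ := List.exists_cons_of_ne_nil G.ax_ne
    exact ⟨a⟩
  have hact : ∀ i, ∃ c, ∀ d, d ≠ c → G.h i d = {[d]} := by
    intro i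
    rcases Set.encard_le_one_iff_subsingleton.mp (hG i) |>.eq_empty_or_singleton with h | ⟨c, h⟩
    · refine ⟨Classical.arbitrary _, fun d _ => ?_⟩
      by_contra hcon
      have : d ∈ {a | G.h i a ≠ {[a]}} := hcon
      rw [h] at this
      exact this
    · refine ⟨c, fun d hd => ?_⟩
      by_contra hcon
      have : d ∈ {a | G.h i a ≠ {[a]}} := hcon
      rw [h] at this
      exact hd this
  choose act hact using hact
  have := G.finA
  have := G.finI
  have hfin : (Ops G act).Finite := by
    have : Ops G act ⊆ ⋃ i, (fun z => (act i, z)) '' G.h i (act i) := by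
      rintro ⟨c, z⟩ ⟨i, hc, hz⟩
      rw [Set.mem_iUnion]
      exact ⟨i, z, hz, by rw [← hc]⟩
    exact (Set.finite_iUnion (fun i => (G.fin_h i _).image _)).subset this
  obtain ⟨K, hK⟩ := (hfin.image (fun o => o.2.length)).bddAbove
  refine no_program (Ops G act) G.ax G.term (K := K + 1) (by omega) ?_ ?_ ?_
  · intro o ho
    have := hK ⟨o, ho, rfl⟩
    simp only at this
    omega
  · intro P hP w hw
    exact sound_prog G act hact hlang P hP Relation.ReflTransGen.refl hw
  · intro n
    have : abc n ∈ G.lang := by rw [hlang]; exact ⟨n, rfl⟩
    obtain ⟨y, hy, hw⟩ := this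
    obtain ⟨P, hP, h⟩ := determinise G act hact hlang hy hw Relation.ReflTransGen.refl
    exact ⟨P, hP, h⟩

end Pool.Agent.W88.LSys
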