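import Pool.Agent.W88.ET0LD

set_option autoImplicit false

namespace Pool.Agent.W88.LSys

open Classical

/-! ### A 2-restricted system for `0^n 1^n 2^n` and the strictness of the first inclusion -/

theorem Rew.det_iff {A : Type} {h : A → Set (List A)} {f : A → List A} (hf : ∀ c, h c = {f c})
    {x y : List A} : Rew h x y ↔ y = x.flatMap f := by
  constructor
  · intro hr
    induction hr with
    | nil => rfl
    | @cons c x w y hw _ ih =>
      rw [hf] at hw
      rw [List.flatMap_cons, ih, Set.mem_singleton_iff.mp hw]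
  · rintro rfl
    induction x with
    | nil => exact .nil
    | cons c x ih =>
      rw [List.flatMap_cons]
      refine Rew.cons ?_ ih
      rw [hf]
      rfl

/-- the right-hand sides of the two tables: `true` lets grow, `false` finishes -/
def gf (t : Bool) (a : Fin 3 × Bool) : List (Fin 3 × Bool) :=
  if a.2 then [a] else if t then [(a.1, true), (a.1, false)] else []

/-- the terminal letters -/
def termF {α : Type} (ι : Fin 3 → α) (a : Fin 3 × Bool) : Option α :=
  if a.2 then some (ι a.1) else none

/-- the system with the tables `X_s → t_s X_s` and `X_s → ε` -/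
def abcSys {α : Type} (ι : Fin 3 → α) (hι : Function.Injective ι) : Sys α where
  A := Fin 3 × Bool
  finA := inferInstance
  I := Bool
  finI := inferInstance
  neI := inferInstance
  h t a := {gf t a}
  fin_h _ _ := Set.finite_singleton _
  ne_h _ _ := Set.singleton_nonempty _
  ax := [(0, false), (1, false), (2, false)]
  ax_ne := by simp
  term := termF ι
  inj := by
    rintro ⟨a, b⟩ ⟨a', b'⟩ t h1 h2
    cases b <;> cases b' <;> simp [termF] at h1 h2
    rw [← h2] at h1
    rw [hι h1]

section abcSys

variable {α : Type} (ι : Fin 3 → α) (hι : Function.Injective ι)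

/-- the sentential form with the three nonterminals -/
def wN (n : ℕ) : List (Fin 3 × Bool) :=
  List.replicate n (0, true) ++ [(0, false)] ++ (List.replicate n (1, true) ++ [(1, false)]) ++
    (List.replicate n (2, true) ++ [(2, false)])

/-- the terminal sentential form -/
def wT (n : ℕ) : List (Fin 3 × Bool) := (abc n).map (fun s => (s, true))

theorem flatMap_rep (t : Bool) (n : ℕ) (s : Fin 3) :
    (List.replicate n (s, true)).flatMap (gf t) = List.replicate n (s, true) := by
  induction n with
  | zero => rfl
  | succ n ih =>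
    rw [List.replicate_succ, List.flatMap_cons, ih]
    rfl

theorem flatMap_wN_true (n : ℕ) : (wN n).flatMap (gf true) = wN (n + 1) := by
  have h (s : Fin 3) : List.replicate n (s, true) ++ [(s, true), (s, false)] =
      List.replicate (n + 1) (s, true) ++ [(s, false)] := by
    rw [List.replicate_succ', List.append_assoc]
    rfl
  unfold wN
  simp only [List.flatMap_append, flatMap_rep, List.flatMap_cons, List.flatMap_nil,
    List.append_nil]
  simp only [gf]
  simp only [Bool.false_eq_true, if_false, if_true, h]

theorem flatMap_wN_false (n : ℕ) : (wN n).flatMap (gf false) = wT n := by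
  unfold wN wT abc
  simp only [List.flatMap_append, flatMap_rep, List.flatMap_cons, List.flatMap_nil,
    List.append_nil, List.map_append, List.map_replicate]
  simp only [gf]
  simp

theorem flatMap_wT (t : Bool) (n : ℕ) : (wT n).flatMap (gf t) = wT n := by
  unfold wT abc
  simp only [List.flatMap_append, flatMap_rep, List.map_append, List.map_replicate]

theorem der_abc {x : List (Fin 3 × Bool)} (h : (abcSys ι hι).Der (abcSys ι hι).ax x) :
    ∃ n, x = wN n ∨ x = wT n := by
  induction h with
  | refl => exact ⟨0, Or.inl rfl⟩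
  | tail _ hs ih =>
    obtain ⟨t, ht⟩ := hs
    replace ht := (Rew.det_iff (A := Fin 3 × Bool) (h := fun a => {gf t a}) (f := gf t)
      (fun _ => rfl)).mp ht
    obtain ⟨n, h1 | h1⟩ := ih
    · cases t
      · exact ⟨n, Or.inr (by rw [ht, h1, flatMap_wN_false])⟩
      · exact ⟨n + 1, Or.inl (by rw [ht, h1, flatMap_wN_true])⟩
    · exact ⟨n, Or.inr ((ht.trans (congrArg _ h1)).trans (flatMap_wT t n))⟩

theorem der_wN (n : ℕ) : (abcSys ι hι).Der (abcSys ι hι).ax (wN n) := by
  induction n with
  | zero => exact Relation.ReflTransGen.refl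
  | succ n ih =>
    refine ih.tail ⟨true, ?_⟩
    exact (Rew.det_iff (f := gf true) (fun _ => rfl)).mpr (flatMap_wN_true n).symm

theorem der_wT (n : ℕ) : (abcSys ι hι).Der (abcSys ι hι).ax (wT n) :=
  (der_wN ι hι n).tail ⟨false, (Rew.det_iff (f := gf false) (fun _ => rfl)).mpr
    (flatMap_wN_false n).symm⟩

theorem map_wT (n : ℕ) : (wT n).map (termF ι) = ((abc n).map ι).map some := by
  unfold wT
  rw [List.map_map, List.map_map]
  rfl

theorem abcSys_lang : (abcSys ι hι).lang = {w | ∃ n, w = (abc n).map ι} := by
  ext w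
  constructor
  · rintro ⟨x, hx, hw⟩
    obtain ⟨n, rfl | rfl⟩ := der_abc ι hι hx
    · exfalso
      change (wN n).map (termF ι) = _ at hw
      have h1 : (none : Option α) ∈ (wN n).map (termF ι) := by
        refine List.mem_map.mpr ⟨(0, false), ?_, rfl⟩
        unfold wN
        simp
      rw [hw, List.mem_map] at h1
      obtain ⟨_, _, h2⟩ := h1
      cases h2
    · refine ⟨n, ?_⟩
      have h1 := (map_wT ι n).symm.trans hw
      exact (List.map_injective_iff.mpr (Option.some_injective _) h1).symm
  · rintro ⟨n, rfl⟩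
    exact ⟨wT n, der_wT ι hι n, map_wT ι n⟩

end abcSys

/-! ### From a 1-restricted literal system to one over `Fin 3` -/

/-- the inverse of an injection -/
noncomputable def pinv {α : Type} (ι : Fin 3 → α) (t : α) : Option (Fin 3) :=
  if h : ∃ s, ι s = t then some h.choose else none

theorem pinv_eq {α : Type} {ι : Fin 3 → α} (hι : Function.Injective ι) (t : α) (s : Fin 3) :
    pinv ι t = some s ↔ ι s = t := by
  unfold pinv
  constructor
  · intro h
    split_ifs at h with h1
    rw [← Option.some_inj.mp h]
    exact h1.choose_spec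
  · intro h
    rw [dif_pos ⟨s, h⟩]
    congr 1
    apply hι
    rw [h]
    exact (⟨s, h⟩ : ∃ s, ι s = t).choose_spec

/-- keep only the terminal letters in the image of `ι` -/
noncomputable def Sys.relabel {α : Type} (G : Sys α) (ι : Fin 3 → α) : Sys (Fin 3) where
  A := G.A
  finA := G.finA
  I := G.I
  finI := G.finI
  neI := G.neI
  h := G.h
  fin_h := G.fin_h
  ne_h := G.ne_h
  ax := G.ax
  ax_ne := G.ax_ne
  term a := (G.term a).bind (pinv ι)
  inj := by
    intro a b s ha hb
    rw [Option.bind_eq_some_iff] at ha hb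
    obtain ⟨t, ht, h1⟩ := ha
    obtain ⟨t', ht', h2⟩ := hb
    unfold pinv at h1 h2
    split_ifs at h1 h2 with h3 h4
    have e1 : ι s = t := by
      rw [← Option.some_inj.mp h1]
      exact h3.choose_spec
    have e2 : ι s = t' := by
      rw [← Option.some_inj.mp h2]
      exact h4.choose_spec
    exact G.inj a b (ι s) (by rw [ht, e1]) (by rw [ht', e2])

theorem Sys.relabel_term {α : Type} (G : Sys α) {ι : Fin 3 → α} (hι : Function.Injective ι)
    (x : List G.A) (w : List (Fin 3)) :
    x.map (fun a => (G.term a).bind (pinv ι)) = w.map some ↔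
      x.map G.term = (w.map ι).map some := by
  induction x generalizing w with
  | nil => cases w <;> simp
  | cons a x ih =>
    cases w with
    | nil => simp
    | cons s w =>
      simp only [List.map_cons, List.cons.injEq]
      rw [ih]
      refine and_congr_left fun _ => ?_
      rw [Option.bind_eq_some_iff]
      constructor
      · rintro ⟨t, ht, h⟩
        rw [ht, (pinv_eq hι t s).mp h]
      · intro h
        exact ⟨ι s, h, (pinv_eq hι _ s).mpr rfl⟩

theorem Sys.relabel_lang {α : Type} (G : Sys α) {ι : Fin 3 → α} (hι : Function.Injective ι) :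
    (G.relabel ι).lang = {w | w.map ι ∈ G.lang} := by
  ext w
  constructor
  · rintro ⟨x, hx, hw⟩
    exact ⟨x, hx, (G.relabel_term hι x w).mp hw⟩
  · rintro ⟨x, hx, hw⟩
    exact ⟨x, hx, (G.relabel_term hι x w).mpr hw⟩

namespace ET0L

variable {α : Type}

theorem toSys_restr (G : ET0L α) {k : ℕ} (hG : G.Restricted k) : G.toSys.Restr k := by
  intro i
  have hsub : Subtype.val '' {a : G.A | G.sh i a ≠ {[a]}} ⊆ {c | c ∈ G.Sig ∧ i.1 c ≠ {[c]}} := by
    rintro _ ⟨a, ha, rfl⟩
    refine ⟨a.2, ?_⟩
    intro h
    apply ha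
    ext w
    change List.map Subtype.val w ∈ i.1 a.1 ↔ _
    rw [h, Set.mem_singleton_iff, Set.mem_singleton_iff]
    constructor
    · intro h1
      exact List.map_injective_iff.mpr Subtype.val_injective h1
    · rintro rfl
      rfl
  have hfin : {c | c ∈ G.Sig ∧ i.1 c ≠ {[c]}}.Finite :=
    G.Sig.finite_toSet.subset (fun c hc => hc.1)
  have h1 := hG i.1 i.2
  have h2 : {c | c ∈ G.Sig ∧ i.1 c ≠ {[c]}}.encard ≤ k := by
    rw [← hfin.cast_ncard_eq]
    exact_mod_cast h1
  change {a : G.A | G.sh i a ≠ {[a]}}.encard ≤ k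
  rw [← Subtype.val_injective.encard_image]
  exact (Set.encard_le_encard hsub).trans h2

theorem family_one_ne [Infinite α] : Family α 1 ≠ Family α 2 := by
  intro heq
  obtain ⟨ι, hι⟩ : ∃ ι : Fin 3 → α, Function.Injective ι :=
    ⟨fun s => Infinite.natEmbedding α s.val,
      fun a b h => Fin.ext ((Infinite.natEmbedding α).injective h)⟩
  obtain ⟨e, he, hc⟩ := exists_embedding (abcSys ι hι)
  have h1 := mem_family_two (ofSys (abcSys ι hι) e he)
  rw [ofSys_lang _ e he hc, abcSys_lang, ← heq] at h1
  obtain ⟨G, hG, hL⟩ := h1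
  refine not_one (G.toSys.relabel ι) (G.toSys_restr hG) ?_
  rw [Sys.relabel_lang _ hι, toSys_lang, ← hL]
  ext w
  constructor
  · rintro ⟨n, hn⟩
    exact ⟨n, List.map_injective_iff.mpr hι hn⟩
  · rintro ⟨n, rfl⟩
    exact ⟨n, rfl⟩

/-- the threshold is `2` -/
theorem threshold [Infinite α] :
    IsLeast {l : ℕ | 1 ≤ l ∧ ∀ k, l ≤ k → Family α k = Family α (k + 1)} 2 := by
  refine ⟨⟨by omega, fun k hk => ?_⟩, ?_⟩
  · rw [family_eq hk, family_eq (by omega : 2 ≤ k + 1)]
  · rintro l ⟨hl, h⟩
    by_contra hlt
    have : l = 1 := by omega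
    subst this
    exact family_one_ne (h 1 le_rfl)

end ET0L

end Pool.Agent.W88.LSys
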