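import Pool.Agent.W960.HC.Defs

set_option autoImplicit false

open Set Topology Filter MeasureTheory

namespace Pool.Agent.W88.HC

open Pool.Agent.W960.HC

theorem contDiff_kp {n : WithTop ℕ∞} : ContDiff ℝ n kp := by
  unfold kp
  fun_prop

theorem hasDerivAt_kp (X : ℝ) : HasDerivAt kp (-(2 * X ^ 3 * Real.exp (-X ^ 2))) X := by
  unfold kp
  have h1 : HasDerivAt (fun X : ℝ => -X ^ 2) (-(2 * X)) X := by
    have := (hasDerivAt_pow 2 X).neg
    refine this.congr_deriv ?_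
    norm_num
  have h2 : HasDerivAt (fun X : ℝ => 1 + X ^ 2) (2 * X) X := by
    have := (hasDerivAt_pow 2 X).const_add 1
    refine this.congr_deriv ?_
    norm_num
  have h3 := h1.exp.mul h2
  refine h3.congr_deriv ?_
  ring

theorem kp_lt_one {X : ℝ} (hX : 0 < X) : kp X < 1 := by
  unfold kp
  have h1 : X ^ 2 + 1 < Real.exp (X ^ 2) := Real.add_one_lt_exp (by positivity)
  have h2 : Real.exp (-X ^ 2) * Real.exp (X ^ 2) = 1 := by
    rw [← Real.exp_add]; simp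
  have h3 : 0 < Real.exp (-X ^ 2) := Real.exp_pos _
  nlinarith

theorem et_pos {X : ℝ} (hX : 0 < X) : 0 < et X := by
  unfold et
  exact Real.sqrt_pos.2 (by linarith [kp_lt_one hX])

theorem et_sq {X : ℝ} (hX : 0 < X) : et X ^ 2 = 1 - kp X := by
  unfold et
  exact Real.sq_sqrt (by linarith [kp_lt_one hX])

theorem continuous_et : Continuous et := by
  unfold et
  exact Real.continuous_sqrt.comp (continuous_const.sub (contDiff_kp (n := 0)).continuous)

theorem contDiffAt_et {X : ℝ} (hX : 0 < X) {n : WithTop ℕ∞} : ContDiffAt ℝ n et X := by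
  unfold et
  exact (contDiffAt_const.sub contDiff_kp.contDiffAt).sqrt (by linarith [kp_lt_one hX])

/-- energy identity along the flow -/
theorem energy {a c R : ℝ} {Z : ℝ → ℝ × ℝ → ℝ → ℝ × ℝ} {W : ℝ → ℝ × ℝ → ℝ → ℝ}
    (h : Flw a c R Z W) {p : ℝ × ℝ} {ε T : ℝ} (hε : |ε| < 1)
    (hb : ∀ t ∈ Icc 0 T, ‖Z t p ε‖ < R) :
    ∀ t ∈ Icc 0 T, kap (Z t p ε) = kap p - 2 * ε * W t p ε := by
  intro t ht
  have hder : ∀ t ∈ Icc 0 T, HasDerivAt (fun t => kap (Z t p ε) + 2 * ε * W t p ε) 0 t := by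
    intro t ht
    have hZ := h.der p ε t (hb t ht) hε
    have hW := h.derW p ε t (hb t ht) hε
    have hZ1 : HasDerivAt (fun t => (Z t p ε).1) (fld a c ε (Z t p ε)).1 t := hZ.fst
    have hZ2 : HasDerivAt (fun t => (Z t p ε).2) (fld a c ε (Z t p ε)).2 t := hZ.snd
    have e1 := ((hZ1.pow 2).neg).exp
    have e2 := (((hZ1.pow 2).const_add 1).sub (hZ2.pow 2))
    have e3 := (e1.mul e2).add (hW.const_mul (2 * ε))
    refine e3.congr_deriv ?_
    simp only [fld, G, Pi.neg_apply, Pi.pow_apply, Pi.sub_apply]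
    push_cast
    ring
  have hcont : ContinuousOn (fun t => kap (Z t p ε) + 2 * ε * W t p ε) (Icc 0 T) :=
    fun t ht => (hder t ht).continuousAt.continuousWithinAt
  have hconst := constant_of_has_deriv_right_zero hcont
    (fun t ht => (hder t ⟨ht.1, ht.2.le⟩).hasDerivWithinAt) t ht
  simp only [h.zero, h.wzero] at hconst
  linarith


theorem kap_axis {y : ℝ} : kap (0, y) = 1 - y ^ 2 := by
  simp [kap]

theorem branch {a c R X₀ m : ℝ} (hX₀ : 0 < X₀) {Z : ℝ → ℝ × ℝ → ℝ → ℝ × ℝ} {W : ℝ → ℝ × ℝ → ℝ → ℝ}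
    (h : Flw a c R Z W) {τ : ℝ × ℝ → ℝ} {δ : ℝ} (hh : Half a c R X₀ Z W τ δ)
    (h0 : Mel a c X₀ = 0) (hm : HasDerivAt (Mel a c) m X₀) (hm0 : m ≠ 0) {s : ℝ} (hs : 0 < s) :
    ∃ ε₀ > 0, ∀ ε ∈ Ioo 0 ε₀, ∃ X r : ℝ, 0 < r ∧ X₀ - δ < X - r ∧ X + r < X₀ + δ ∧ ε < δ ∧
      W (τ (X, ε)) (0, et X) ε = 0 ∧ Z (τ (X, ε)) (0, et X) ε = (0, -et X) ∧
      (∀ t ∈ Icc 0 (τ (X, ε)), |kap (Z t (0, et X) ε) - kp X₀| < s) ∧
      (∀ X' ∈ Ioo (X - r) (X + r), X' ≠ X →
        Z (τ (X', ε)) (0, et X') ε ≠ (0, -et X')) ∧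
      (∀ X' ∈ Ioo (X - r) (X + r), ∀ X'' ∈ Ioo (X - r) (X + r), X' < X'' →
        (Z (τ (X'', ε)) (0, et X'') ε).2 < (Z (τ (X', ε)) (0, et X') ε).2) := by
  classical
  have hδ := hh.hδ
  have hδ0 := hh.hδ0
  have hδ1 := hh.hδ1
  set D : Set (ℝ × ℝ) := Ioo (X₀ - δ) (X₀ + δ) ×ˢ Ioo (-δ) δ with hD
  have hDo : IsOpen D := isOpen_Ioo.prod isOpen_Ioo
  set w : ℝ × ℝ → ℝ := fun q => W (τ q) (0, et q.1) q.2 with hw
  have hwC : ContDiffOn ℝ 1 w D := by
    have h1 : ContDiff ℝ 1 (fun q : ℝ × (ℝ × ℝ) × ℝ => W q.1 q.2.1 q.2.2) :=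
      h.smW.of_le (by norm_num)
    have h2 : ContDiffOn ℝ 1 (fun q : ℝ × ℝ => (τ q, (((0:ℝ), et q.1), q.2))) D := by
      refine hh.smooth.prodMk (ContDiffOn.prodMk (contDiffOn_const.prodMk ?_) contDiffOn_snd)
      intro q hq
      exact ((contDiffAt_et (by have := hq.1.1; linarith)).comp q contDiffAt_fst).contDiffWithinAt
    exact h1.comp_contDiffOn h2
  set dw : ℝ × ℝ → ℝ := fun q => fderiv ℝ w q (1, 0) with hdw
  have hdwC : ContinuousOn dw D :=
    (hwC.continuousOn_fderiv_of_isOpen hDo le_rfl).clm_apply continuousOn_const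
  have hder : ∀ X ε, (X, ε) ∈ D → HasDerivAt (fun X => w (X, ε)) (dw (X, ε)) X := by
    intro X ε hq
    have h1 : DifferentiableAt ℝ w (X, ε) :=
      (hwC.contDiffAt (hDo.mem_nhds hq)).differentiableAt (by norm_num)
    have h2 : HasDerivAt (fun X : ℝ => (X, ε)) ((1:ℝ), (0:ℝ)) X :=
      (hasDerivAt_id X).prodMk (hasDerivAt_const X ε)
    exact h1.hasFDerivAt.comp_hasDerivAt X h2
  have hmem0 : (X₀, (0:ℝ)) ∈ D := ⟨⟨by linarith, by linarith⟩, ⟨by linarith, hδ⟩⟩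
  have hd0 : dw (X₀, 0) = 2 * m := by
    have h1 := hder X₀ 0 hmem0
    have h2 : HasDerivAt (fun X => w (X, 0)) (2 * m) X₀ := by
      refine (hm.const_mul 2).congr_of_eventuallyEq ?_
      filter_upwards [Ioo_mem_nhds (a := X₀ - δ) (b := X₀ + δ) (by linarith) (by linarith)]
        with X hX
      exact hh.mel X hX
    exact h1.unique h2
  have hw0 : w (X₀, 0) = 0 := by
    have := hh.mel X₀ hmem0.1
    simp only [hw]
    rw [this, h0, mul_zero]
  have hmpos : 0 < |m| := abs_pos.2 hm0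
  obtain ⟨r₀, hr₀, hball⟩ : ∃ r₀ > 0, ∀ X ε, |X - X₀| < r₀ → |ε| < r₀ →
      (X, ε) ∈ D ∧ |dw (X, ε) - 2 * m| < |m| ∧ |kp X - kp X₀| < s / 2 := by
    have e1 : ∀ᶠ q in 𝓝 (X₀, (0:ℝ)), q ∈ D := hDo.mem_nhds hmem0
    have e2 : ∀ᶠ q in 𝓝 (X₀, (0:ℝ)), |dw q - 2 * m| < |m| := by
      have hc : ContinuousAt dw (X₀, 0) := hdwC.continuousAt (hDo.mem_nhds hmem0)
      have := (Metric.tendsto_nhds.1 hc.tendsto) |m| hmpos
      filter_upwards [this] with q hq
      rwa [Real.dist_eq, hd0] at hq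
    have e3 : ∀ᶠ q : ℝ × ℝ in 𝓝 (X₀, (0:ℝ)), |kp q.1 - kp X₀| < s / 2 := by
      have hc : ContinuousAt (fun q : ℝ × ℝ => kp q.1) (X₀, 0) :=
        ((contDiff_kp (n := 0)).continuous.comp continuous_fst).continuousAt
      have := (Metric.tendsto_nhds.1 hc.tendsto) (s / 2) (by linarith)
      filter_upwards [this] with q hq
      rwa [Real.dist_eq] at hq
    obtain ⟨r₀, hr₀, hsub⟩ := Metric.eventually_nhds_iff.1 (e1.and (e2.and e3))
    refine ⟨r₀, hr₀, fun X ε hX hε => ?_⟩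
    have hd : dist (X, ε) (X₀, (0:ℝ)) < r₀ := by
      rw [Prod.dist_eq]
      exact max_lt (by rw [Real.dist_eq]; exact hX) (by rw [Real.dist_eq]; simpa using hε)
    obtain ⟨h1, h2, h3⟩ := hsub hd
    exact ⟨h1, h2, h3⟩
  set r₁ : ℝ := r₀ / 2 with hr₁
  set r₂ : ℝ := r₀ / 4 with hr₂
  have hr₁p : 0 < r₁ := by positivity
  have hr₂p : 0 < r₂ := by positivity
  have hboxabs : ∀ X ∈ Icc (X₀ - r₁) (X₀ + r₁), |X - X₀| < r₀ := by
    intro X hX
    rw [abs_lt]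
    constructor <;> [linarith [hX.1]; linarith [hX.2]]
  have hDX : ∀ X ∈ Icc (X₀ - r₁) (X₀ + r₁), ∀ ε, |ε| < r₀ → (X, ε) ∈ D := fun X hX ε hε =>
    (hball X ε (hboxabs X hX) hε).1
  have hr₁δ : r₁ < δ := by
    have := (hDX (X₀ + r₁) ⟨by linarith, le_rfl⟩ 0 (by simpa using hr₀)).1.2
    simp only at this
    linarith
  have hmono : ∀ ε, |ε| < r₀ → StrictMonoOn (fun X => m * w (X, ε)) (Icc (X₀ - r₁) (X₀ + r₁)) := by
    intro ε hε
    refine strictMonoOn_of_deriv_pos (convex_Icc _ _) ?_ ?_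
    · intro X hX
      exact ((hder X ε (hDX X hX ε hε)).const_mul m).continuousAt.continuousWithinAt
    · intro X hX
      rw [interior_Icc] at hX
      have hX' : X ∈ Icc (X₀ - r₁) (X₀ + r₁) := Ioo_subset_Icc_self hX
      rw [((hder X ε (hDX X hX' ε hε)).const_mul m).deriv]
      have h1 := (hball X ε (hboxabs X hX') hε).2.1
      have h2 : |m * (dw (X, ε) - 2 * m)| < m ^ 2 := by
        rw [abs_mul, ← sq_abs m, sq]
        exact mul_lt_mul_of_pos_left h1 hmpos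
      have h3 := (abs_lt.1 h2).1
      nlinarith
  have hdwb : ∀ X ∈ Icc (X₀ - r₁) (X₀ + r₁), ∀ ε, |ε| < r₀ → |dw (X, ε)| ≤ 3 * |m| := by
    intro X hX ε hε
    have h1 := (hball X ε (hboxabs X hX) hε).2.1
    have h2 : |dw (X, ε)| ≤ |dw (X, ε) - 2 * m| + |2 * m| := by
      have := abs_add_le (dw (X, ε) - 2 * m) (2 * m)
      simpa using this
    rw [abs_mul, abs_two] at h2
    linarith
  -- bounds
  have hKc : IsCompact (Icc (X₀ - r₁) (X₀ + r₁) ×ˢ Icc (-r₁) r₁) := isCompact_Icc.prod isCompact_Icc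
  have hε1 : ∀ ε ∈ Icc (-r₁) r₁, |ε| < r₀ := by
    intro ε hε
    rw [abs_lt]
    constructor <;> [linarith [hε.1]; linarith [hε.2]]
  obtain ⟨T, hT⟩ := hKc.exists_bound_of_continuousOn (f := τ)
    (hh.smooth.continuousOn.mono fun q hq => hDX q.1 hq.1 q.2 (hε1 q.2 hq.2))
  have hWc : Continuous (fun q : ℝ × ℝ × ℝ => W q.1 (0, et q.2.1) q.2.2) := by
    have h1 : Continuous (fun q : ℝ × ℝ × ℝ => (q.1, (((0:ℝ), et q.2.1), q.2.2))) := by
      refine continuous_fst.prodMk (Continuous.prodMk (continuous_const.prodMk ?_) ?_)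
      · exact continuous_et.comp (continuous_fst.comp continuous_snd)
      · exact continuous_snd.comp continuous_snd
    exact h.smW.continuous.comp h1
  obtain ⟨B, hB⟩ := ((isCompact_Icc (a := (0:ℝ)) (b := T)).prod hKc).exists_bound_of_continuousOn
    (f := fun q : ℝ × ℝ × ℝ => W q.1 (0, et q.2.1) q.2.2) hWc.continuousOn
  obtain ⟨xm, hxm, hmin⟩ := (isCompact_Icc (a := X₀ - r₁) (b := X₀ + r₁)).exists_isMinOn
    ⟨X₀, by linarith, by linarith⟩
    (f := fun X : ℝ => 2 * X ^ 3 * Real.exp (-X ^ 2)) (by fun_prop)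
  have hxmp : 0 < xm := by linarith [hxm.1]
  set c₁ : ℝ := 2 * xm ^ 3 * Real.exp (-xm ^ 2) with hc₁
  have hc₁p : 0 < c₁ := by positivity
  have hc₁le : ∀ X ∈ Icc (X₀ - r₁) (X₀ + r₁), c₁ ≤ 2 * X ^ 3 * Real.exp (-X ^ 2) := fun X hX =>
    hmin hX
  obtain ⟨ε₁, hε₁, hIVT⟩ : ∃ ε₁ > 0, ∀ ε, |ε| < ε₁ →
      m * w (X₀ - r₂, ε) < 0 ∧ 0 < m * w (X₀ + r₂, ε) := by
    have hz : |(0:ℝ)| < r₀ := by simpa using hr₀
    have hX1 : X₀ - r₂ ∈ Icc (X₀ - r₁) (X₀ + r₁) := ⟨by linarith, by linarith⟩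
    have hX2 : X₀ + r₂ ∈ Icc (X₀ - r₁) (X₀ + r₁) := ⟨by linarith, by linarith⟩
    have hX0 : X₀ ∈ Icc (X₀ - r₁) (X₀ + r₁) := ⟨by linarith, by linarith⟩
    have g1 : m * w (X₀ - r₂, 0) < 0 := by
      have := hmono 0 hz hX1 hX0 (by linarith)
      simpa [hw0] using this
    have g2 : 0 < m * w (X₀ + r₂, 0) := by
      have := hmono 0 hz hX0 hX2 (by linarith)
      simpa [hw0] using this
    have cont : ∀ X ∈ Icc (X₀ - r₁) (X₀ + r₁), ContinuousAt (fun ε => m * w (X, ε)) 0 := by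
      intro X hX
      have h1 : ContinuousAt w (X, 0) :=
        hwC.continuousOn.continuousAt (hDo.mem_nhds (hDX X hX 0 hz))
      have h2 : ContinuousAt (fun ε : ℝ => (X, ε)) 0 := by fun_prop
      exact continuousAt_const.mul (ContinuousAt.comp (f := fun ε : ℝ => (X, ε)) (g := w) h1 h2)
    have l1 := (cont _ hX1).eventually_lt_const g1
    have l2 := (cont _ hX2).eventually_const_lt g2
    obtain ⟨ε₁, hε₁, hsub⟩ := Metric.eventually_nhds_iff.1 (l1.and l2)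
    refine ⟨ε₁, hε₁, fun ε hε => ?_⟩
    exact hsub (by rw [Real.dist_eq]; simpa using hε)
  -- the squares of the endpoints
  have hkap0 : ∀ X, 0 < X → kap (0, et X) = kp X := by
    intro X hX
    rw [kap_axis, et_sq hX]
    ring
  have hsq : ∀ X ε, (X, ε) ∈ D →
      (Z (τ (X, ε)) (0, et X) ε).2 ^ 2 = 1 - kp X + 2 * ε * w (X, ε) := by
    intro X ε hq
    have hXp : 0 < X := by have := hq.1.1; simp only at this; linarith
    have hεa : |ε| < 1 := by
      have h1 := hq.2.1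
      have h2 := hq.2.2
      simp only at h1 h2
      rw [abs_lt]
      constructor <;> linarith
    have hE := energy h (p := (0, et X)) (T := τ (X, ε)) hεa (hh.ball X hq.1 ε hq.2) (τ (X, ε))
      ⟨(hh.pos X hq.1 ε hq.2).le, le_rfl⟩
    rw [hkap0 X hXp] at hE
    have hhit := hh.hit X hq.1 ε hq.2
    have hk : kap (Z (τ (X, ε)) (0, et X) ε) = 1 - (Z (τ (X, ε)) (0, et X) ε).2 ^ 2 := by
      have : Z (τ (X, ε)) (0, et X) ε = (0, (Z (τ (X, ε)) (0, et X) ε).2) := Prod.ext hhit rfl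
      rw [this, kap_axis]
    rw [hk] at hE
    simp only [hw]
    linarith
  refine ⟨min (min r₁ ε₁) (min (s / (4 * (|B| + 1))) (c₁ / (8 * |m| + 1))), by positivity, ?_⟩
  intro ε hε
  have hεp : 0 < ε := hε.1
  have hεr₁ : ε < r₁ := lt_of_lt_of_le hε.2 ((min_le_left _ _).trans (min_le_left _ _))
  have hεε₁ : ε < ε₁ := lt_of_lt_of_le hε.2 ((min_le_left _ _).trans (min_le_right _ _))
  have hεs : ε < s / (4 * (|B| + 1)) :=
    lt_of_lt_of_le hε.2 ((min_le_right _ _).trans (min_le_left _ _))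
  have hεc : ε < c₁ / (8 * |m| + 1) :=
    lt_of_lt_of_le hε.2 ((min_le_right _ _).trans (min_le_right _ _))
  have hεabs : |ε| = ε := abs_of_pos hεp
  have hεr₀ : |ε| < r₀ := by rw [hεabs]; linarith
  have hεmem : ε ∈ Icc (-r₁) r₁ := ⟨by linarith, hεr₁.le⟩
  obtain ⟨g1, g2⟩ := hIVT ε (by rw [hεabs]; exact hεε₁)
  have hcontw : ContinuousOn (fun X => m * w (X, ε)) (Icc (X₀ - r₂) (X₀ + r₂)) := by
    intro X hX
    have hX' : X ∈ Icc (X₀ - r₁) (X₀ + r₁) := ⟨by linarith [hX.1], by linarith [hX.2]⟩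
    exact ((hder X ε (hDX X hX' ε hεr₀)).const_mul m).continuousAt.continuousWithinAt
  obtain ⟨X, hXI, hX0⟩ := intermediate_value_Ioo (by linarith) hcontw ⟨g1, g2⟩
  have hwX : w (X, ε) = 0 := by
    rcases mul_eq_zero.1 hX0 with h1 | h1
    · exact absurd h1 hm0
    · exact h1
  have hXJ : X ∈ Icc (X₀ - r₁) (X₀ + r₁) := ⟨by linarith [hXI.1], by linarith [hXI.2]⟩
  have hnear : ∀ X' ∈ Ioo (X - r₂) (X + r₂), X' ∈ Icc (X₀ - r₁) (X₀ + r₁) := fun X' hX' =>
    ⟨by linarith [hX'.1, hXI.1], by linarith [hX'.2, hXI.2]⟩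
  have hXp : 0 < X := by linarith [hXI.1]
  have hqX := hDX X hXJ ε hεr₀
  refine ⟨X, r₂, hr₂p, by linarith [hXI.1], by linarith [hXI.2], by linarith, hwX, ?_, ?_, ?_, ?_⟩
  · have h1 := hsq X ε hqX
    rw [hwX, mul_zero, add_zero, ← et_sq hXp] at h1
    have hneg := hh.neg X hqX.1 ε hqX.2
    refine Prod.ext (hh.hit X hqX.1 ε hqX.2) ?_
    show (Z (τ (X, ε)) (0, et X) ε).2 = -et X
    have h2 := sq_eq_sq_iff_eq_or_eq_neg.1 h1
    rcases h2 with h3 | h3
    · have := et_pos hXp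
      linarith
    · exact h3
  · intro t ht
    have hεa : |ε| < 1 := by rw [hεabs]; linarith
    have hE := energy h (p := (0, et X)) (T := τ (X, ε)) hεa (hh.ball X hqX.1 ε hqX.2) t ht
    rw [hkap0 X hXp] at hE
    have hτT : τ (X, ε) ≤ T := (le_abs_self _).trans (hT (X, ε) ⟨hXJ, hεmem⟩)
    have hWb := hB (t, X, ε) ⟨⟨ht.1, ht.2.trans hτT⟩, hXJ, hεmem⟩
    simp only [Real.norm_eq_abs] at hWb
    have hk := (hball X ε (hboxabs X hXJ) hεr₀).2.2
    have h1 : |2 * ε * W t (0, et X) ε| < s / 2 := by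
      rw [abs_mul, abs_mul, abs_two, hεabs]
      have h2 : ε * (4 * (|B| + 1)) < s := (lt_div_iff₀ (by positivity)).1 hεs
      have h3 : |W t (0, et X) ε| ≤ |B| := hWb.trans (le_abs_self B)
      have h4 : 2 * ε * |W t (0, et X) ε| ≤ 2 * ε * |B| :=
        mul_le_mul_of_nonneg_left h3 (by linarith)
      nlinarith [abs_nonneg B]
    rw [hE]
    have h5 : kp X - 2 * ε * W t (0, et X) ε - kp X₀ =
        (kp X - kp X₀) - 2 * ε * W t (0, et X) ε := by ring
    rw [h5]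
    calc |(kp X - kp X₀) - 2 * ε * W t (0, et X) ε|
        ≤ |kp X - kp X₀| + |2 * ε * W t (0, et X) ε| := abs_sub _ _
      _ < s := by linarith
  · intro X' hX' hne hcon
    have hX'J := hnear X' hX'
    have hqX' := hDX X' hX'J ε hεr₀
    have hX'p : 0 < X' := by linarith [hX'J.1]
    have h1 := hsq X' ε hqX'
    rw [hcon] at h1
    have h2 : et X' ^ 2 = 1 - kp X' := et_sq hX'p
    have h3 : 2 * ε * w (X', ε) = 0 := by
      have : (-et X') ^ 2 = et X' ^ 2 := by ring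
      simp only at h1
      linarith
    have h4 : w (X', ε) = 0 := by
      rcases mul_eq_zero.1 h3 with h5 | h5
      · linarith
      · exact h5
    apply hne
    refine (hmono ε hεr₀).injOn hX'J hXJ ?_
    simp only [h4, hwX]
  · intro X' hX' X'' hX'' hlt
    have hX'J := hnear X' hX'
    have hX''J := hnear X'' hX''
    have hqX' := hDX X' hX'J ε hεr₀
    have hqX'' := hDX X'' hX''J ε hεr₀
    have hΦ : StrictMonoOn (fun X => 1 - kp X + 2 * ε * w (X, ε)) (Icc (X₀ - r₁) (X₀ + r₁)) := by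
      have hd : ∀ X ∈ Icc (X₀ - r₁) (X₀ + r₁), HasDerivAt (fun X => 1 - kp X + 2 * ε * w (X, ε))
          (2 * X ^ 3 * Real.exp (-X ^ 2) + 2 * ε * dw (X, ε)) X := by
        intro X hX
        have h1 := ((hasDerivAt_kp X).const_sub 1).add
          ((hder X ε (hDX X hX ε hεr₀)).const_mul (2 * ε))
        refine h1.congr_deriv ?_
        ring
      refine strictMonoOn_of_deriv_pos (convex_Icc _ _) ?_ ?_
      · intro X hX
        exact (hd X hX).continuousAt.continuousWithinAt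
      · intro X hX
        rw [interior_Icc] at hX
        have hX1 : X ∈ Icc (X₀ - r₁) (X₀ + r₁) := Ioo_subset_Icc_self hX
        rw [(hd X hX1).deriv]
        have h1 := hc₁le X hX1
        have h2 := hdwb X hX1 ε hεr₀
        have h3 : ε * (8 * |m| + 1) < c₁ := (lt_div_iff₀ (by positivity)).1 hεc
        have h4 := (abs_le.1 h2).1
        have h5 : 2 * ε * dw (X, ε) ≥ 2 * ε * (-(3 * |m|)) :=
          mul_le_mul_of_nonneg_left h4 (by linarith)
        nlinarith [abs_nonneg m]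
    have h1 := hΦ hX'J hX''J hlt
    simp only at h1
    rw [← hsq X' ε hqX', ← hsq X'' ε hqX''] at h1
    have n1 := hh.neg X' hqX'.1 ε hqX'.2
    have n2 := hh.neg X'' hqX''.1 ε hqX''.2
    by_contra hcon
    rw [not_lt] at hcon
    nlinarith

end Pool.Agent.W88.HC
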