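import Mathlib

set_option autoImplicit false

namespace Pool.Agent.W88.Lelek

open Set Metric unitInterval Topology Filter

/-! An explicit Lelek fan in the plane. -/

/-- weights -/
noncomputable def wt (i : ℕ) : ℝ := ((i : ℝ) + 1) / ((i : ℝ) + 2)

lemma wt_pos (i : ℕ) : 0 < wt i := by unfold wt; positivity
lemma wt_le (i : ℕ) : wt i ≤ 1 := by
  unfold wt
  rw [div_le_one (by positivity)]
  linarith

/-- partial products -/
noncomputable def P (c : ℕ → Bool) (n : ℕ) : ℝ := ∏ i ∈ Finset.range n, (if c i then wt i else 1)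

lemma P_zero (c : ℕ → Bool) : P c 0 = 1 := by simp [P]
lemma P_succ (c : ℕ → Bool) (n : ℕ) : P c (n + 1) = P c n * (if c n then wt n else 1) := by
  unfold P; rw [Finset.prod_range_succ]

lemma P_pos (c : ℕ → Bool) (n : ℕ) : 0 < P c n := by
  unfold P
  refine Finset.prod_pos fun i _ => ?_
  split_ifs
  · exact wt_pos i
  · norm_num

lemma P_antitone (c : ℕ → Bool) : Antitone (P c) := by
  refine antitone_nat_of_succ_le fun n => ?_
  rw [P_succ]
  have := P_pos c n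
  have h1 := wt_le n
  split_ifs
  · nlinarith
  · linarith

lemma P_le_one (c : ℕ → Bool) (n : ℕ) : P c n ≤ 1 := by
  rw [← P_zero c]; exact P_antitone c (Nat.zero_le n)

lemma P_congr {c d : ℕ → Bool} {n : ℕ} (h : ∀ i < n, c i = d i) : P c n = P d n := by
  unfold P
  refine Finset.prod_congr rfl fun i hi => ?_
  rw [h i (Finset.mem_range.1 hi)]

lemma P_continuous (n : ℕ) : Continuous fun c => P c n := by
  unfold P
  refine continuous_finsetProd _ fun i _ => ?_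
  have : (fun c : ℕ → Bool => (if c i then wt i else (1 : ℝ))) =
      (fun b : Bool => (if b then wt i else (1 : ℝ))) ∘ (fun c : ℕ → Bool => c i) := rfl
  rw [this]
  exact continuous_of_discreteTopology.comp (continuous_apply i)

/-- the Cantor function, an embedding of the Cantor space in the line -/
noncomputable def phi (c : ℕ → Bool) : ℝ := Cardinal.cantorFunction (1 / 3) c

lemma phi_injective : Function.Injective phi :=
  Cardinal.cantorFunction_injective (by norm_num) (by norm_num)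

lemma phi_continuous : Continuous phi := by
  unfold phi Cardinal.cantorFunction
  refine continuous_tsum (u := fun n : ℕ => ((1 : ℝ) / 3) ^ n) ?_ ?_ ?_
  · intro n
    unfold Cardinal.cantorFunctionAux
    have : (fun c : ℕ → Bool => cond (c n) (((1 : ℝ) / 3) ^ n) 0) =
        (fun b : Bool => cond b (((1 : ℝ) / 3) ^ n) 0) ∘ (fun c : ℕ → Bool => c n) := rfl
    rw [this]
    exact continuous_of_discreteTopology.comp (continuous_apply n)
  · exact summable_geometric_of_lt_one (by norm_num) (by norm_num)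
  · intro n c
    unfold Cardinal.cantorFunctionAux
    cases c n
    · simp
    · simp

lemma phi_embedding : IsEmbedding phi :=
  (phi_continuous.isClosedEmbedding phi_injective).isEmbedding

lemma phi_td : IsTotallyDisconnected (range phi) :=
  phi_embedding.isTotallyDisconnected_range.2 inferInstance

/-- parameter space -/
def K : Set ((ℕ → Bool) × ℝ) := {p | 0 ≤ p.2 ∧ ∀ n, p.2 ≤ P p.1 n}

lemma K_closed : IsClosed K := by
  have : K = {p | 0 ≤ p.2} ∩ ⋂ n, {p : (ℕ → Bool) × ℝ | p.2 ≤ P p.1 n} := by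
    ext p; simp only [K, mem_inter_iff, mem_ofPred_eq, mem_iInter]
  rw [this]
  refine (isClosed_le continuous_const continuous_snd).inter (isClosed_iInter fun n => ?_)
  exact isClosed_le continuous_snd ((P_continuous n).comp continuous_fst)

lemma K_compact : IsCompact K := by
  refine IsCompact.of_isClosed_subset (s := univ ×ˢ Icc (0 : ℝ) 1)
    (isCompact_univ.prod isCompact_Icc) K_closed ?_
  rintro p ⟨h1, h2⟩
  refine ⟨mem_univ _, h1, ?_⟩
  have := h2 0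
  rwa [P_zero] at this

/-- the parametrisation -/
noncomputable def F (p : (ℕ → Bool) × ℝ) : ℝ × ℝ := (p.2, p.2 * phi p.1)

lemma F_continuous : Continuous F :=
  continuous_snd.prodMk (continuous_snd.mul (phi_continuous.comp continuous_fst))

/-- the fan as a subset of the plane -/
def S : Set (ℝ × ℝ) := F '' K

/-- the Lelek fan -/
abbrev X : Type := S

instance : CompactSpace X := isCompact_iff_compactSpace.1 (K_compact.image F_continuous)

/-- the point with parameters `c, t` -/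
noncomputable def mk (c : ℕ → Bool) (t : ℝ) (h0 : 0 ≤ t) (h1 : ∀ n, t ≤ P c n) : X :=
  ⟨(t, t * phi c), ⟨(c, t), ⟨h0, h1⟩, rfl⟩⟩

lemma param (x : X) : ∃ c t, 0 ≤ t ∧ (∀ n, t ≤ P c n) ∧ x.1.1 = t ∧ x.1.2 = t * phi c := by
  obtain ⟨x, ⟨⟨c, t⟩, ⟨h0, h1⟩, rfl⟩⟩ := x
  exact ⟨c, t, h0, h1, rfl, rfl⟩

/-- the top -/
noncomputable def v : X := mk (fun _ => false) 0 le_rfl (fun n => (P_pos _ n).le)

lemma v_fst : v.1.1 = 0 := rfl
lemma v_snd : v.1.2 = 0 := by change (0 : ℝ) * _ = 0; rw [zero_mul]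

lemma r_nonneg (x : X) : 0 ≤ x.1.1 := by
  obtain ⟨c, t, h0, _, h2, _⟩ := param x
  rw [h2]; exact h0

lemma eq_v {x : X} (h : x.1.1 = 0) : x = v := by
  obtain ⟨c, t, h0, _, h2, h3⟩ := param x
  apply Subtype.ext
  apply Prod.ext
  · rw [h, v_fst]
  · rw [v_snd, h3, ← h2, h, zero_mul]

lemma r_pos {x : X} (h : x ≠ v) : 0 < x.1.1 :=
  lt_of_le_of_ne (r_nonneg x) (fun h' => h (eq_v h'.symm))

lemma ne_v {x : X} (h : 0 < x.1.1) : x ≠ v := by
  rintro rfl
  rw [v_fst] at h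
  exact lt_irrefl _ h

/-- the slope -/
noncomputable def sl (x : X) : ℝ := x.1.2 / x.1.1

lemma sl_eq {x : X} (h : x ≠ v) : ∃ c, (∀ n, x.1.1 ≤ P c n) ∧ sl x = phi c ∧
    x.1.2 = x.1.1 * phi c := by
  obtain ⟨c, t, h0, h1, h2, h3⟩ := param x
  have := r_pos h
  refine ⟨c, fun n => by rw [h2]; exact h1 n, ?_, ?_⟩
  · unfold sl
    rw [h3, ← h2]
    field_simp
  · rw [h3, h2]

lemma ext_leg {x y : X} (hx : x ≠ v) (hy : y ≠ v) (hs : sl x = sl y) (hr : x.1.1 = y.1.1) :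
    x = y := by
  obtain ⟨c, _, h2, h3⟩ := sl_eq hx
  obtain ⟨d, _, h5, h6⟩ := sl_eq hy
  have : c = d := phi_injective (by rw [← h2, ← h5, hs])
  subst this
  apply Subtype.ext
  apply Prod.ext hr
  rw [h3, h6, hr]

lemma sl_continuousOn : ContinuousOn sl {x | x ≠ v} := by
  unfold sl
  refine ContinuousOn.div (by fun_prop) (by fun_prop) ?_
  intro x hx
  exact (r_pos hx).ne'

lemma conn_slope {A : Set X} (hA : IsPreconnected A) (hv : v ∉ A) :
    ∀ x ∈ A, ∀ y ∈ A, sl x = sl y := by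
  have hne : ∀ x ∈ A, x ≠ v := fun x hx h => hv (h ▸ hx)
  have h1 : IsPreconnected (sl '' A) :=
    hA.image sl (sl_continuousOn.mono hne)
  have h2 : sl '' A ⊆ range phi := by
    rintro _ ⟨x, hx, rfl⟩
    obtain ⟨c, _, h, _⟩ := sl_eq (hne x hx)
    exact ⟨c, h.symm⟩
  have h3 := phi_td _ h2 h1
  intro x hx y hy
  exact h3 (mem_image_of_mem _ hx) (mem_image_of_mem _ hy)

/-- scaling -/
noncomputable def sm (l : I) (x : X) : X := ⟨((l : ℝ) * x.1.1, (l : ℝ) * x.1.2), by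
  obtain ⟨c, t, h0, h1, h2, h3⟩ := param x
  refine ⟨(c, l * t), ⟨mul_nonneg l.2.1 h0, fun n => ?_⟩, ?_⟩
  · have := h1 n
    have := l.2.2
    have := l.2.1
    change (l : ℝ) * t ≤ P c n
    nlinarith
  · unfold F
    rw [h2, h3, mul_assoc]⟩

lemma sm_fst (l : I) (x : X) : (sm l x).1.1 = l * x.1.1 := rfl
lemma sm_snd (l : I) (x : X) : (sm l x).1.2 = l * x.1.2 := rfl

lemma sm_continuous : Continuous fun p : I × X => sm p.1 p.2 := by
  unfold sm
  refine Continuous.subtype_mk ?_ _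
  fun_prop

lemma sm_zero (x : X) : sm 0 x = v := eq_v (by rw [sm_fst]; simp)
lemma sm_one (x : X) : sm 1 x = x := by
  apply Subtype.ext
  apply Prod.ext
  · rw [sm_fst]; simp
  · rw [sm_snd]; simp
lemma sm_v (l : I) : sm l v = v := eq_v (by rw [sm_fst, v_fst, mul_zero])

lemma sm_ne {l : I} {x : X} (hl : 0 < l) (hx : x ≠ v) : sm l x ≠ v := by
  apply ne_v
  rw [sm_fst]
  exact mul_pos hl (r_pos hx)

lemma sl_sm {l : I} {x : X} (hl : 0 < l) (hx : x ≠ v) : sl (sm l x) = sl x := by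
  have h1 := r_pos hx
  have h2 : (0 : ℝ) < l := hl
  unfold sl
  rw [sm_fst, sm_snd, mul_div_mul_left _ _ h2.ne']

/-- a point on the leg of `x` below `x` is a multiple of `x` -/
lemma eq_sm {x y : X} (hx : x ≠ v) (hy : y ≠ v) (hs : sl y = sl x) (hr : y.1.1 ≤ x.1.1) :
    ∃ l : I, 0 < l ∧ y = sm l x ∧ (l : ℝ) = y.1.1 / x.1.1 := by
  have h1 := r_pos hx
  have h2 := r_pos hy
  have hl : (0 : ℝ) < y.1.1 / x.1.1 := div_pos h2 h1
  refine ⟨⟨y.1.1 / x.1.1, hl.le, ?_⟩, hl, ?_, rfl⟩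
  · rw [div_le_one h1]; exact hr
  · refine ext_leg hy (sm_ne hl hx) ?_ ?_
    · rw [sl_sm hl hx, hs]
    · rw [sm_fst]
      change y.1.1 = y.1.1 / x.1.1 * x.1.1
      field_simp

/-- the segment from the top to `x` -/
def seg (x : X) : Set X := range fun l : I => sm l x

lemma dist_sm (l : I) (x y : X) : dist (sm l x) (sm l y) ≤ dist x y := by
  rw [Subtype.dist_eq, Subtype.dist_eq, Prod.dist_eq, Prod.dist_eq]
  have hl0 : (0 : ℝ) ≤ l := l.2.1
  have hl1 : (l : ℝ) ≤ 1 := l.2.2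
  apply max_le_max
  · rw [sm_fst, sm_fst, Real.dist_eq, Real.dist_eq, ← mul_sub, abs_mul, abs_of_nonneg hl0]
    exact mul_le_of_le_one_left (abs_nonneg _) hl1
  · rw [sm_snd, sm_snd, Real.dist_eq, Real.dist_eq, ← mul_sub, abs_mul, abs_of_nonneg hl0]
    exact mul_le_of_le_one_left (abs_nonneg _) hl1

lemma hausdorff_seg (x y : X) : hausdorffDist (seg x) (seg y) ≤ dist x y := by
  refine hausdorffDist_le_of_mem_dist dist_nonneg ?_ ?_
  · rintro _ ⟨l, rfl⟩
    exact ⟨_, ⟨l, rfl⟩, dist_sm l x y⟩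
  · rintro _ ⟨l, rfl⟩
    exact ⟨_, ⟨l, rfl⟩, by rw [dist_comm x y]; exact dist_sm l y x⟩

/-! ### arcs -/

/-- An injective path leaving the top. -/
lemma arc_leg {γ : I → X} (hc : Continuous γ) (hi : Function.Injective γ) (h0 : γ 0 = v) :
    range γ = seg (γ 1) := by
  have hne : ∀ s : I, 0 < s → γ s ≠ v := fun s hs h => by
    rw [← h0] at h
    exact hs.ne' (hi h)
  have h1 : γ 1 ≠ v := hne 1 zero_lt_one
  have hsl : ∀ s : I, 0 < s → sl (γ s) = sl (γ 1) := by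
    intro s hs
    have hpre : IsPreconnected (γ '' Ioc 0 1) :=
      isPreconnected_Ioc.image γ hc.continuousOn
    refine conn_slope hpre ?_ _ (mem_image_of_mem _ ⟨hs, s.2.2⟩) _
      (mem_image_of_mem _ ⟨zero_lt_one, le_rfl⟩)
    rintro ⟨u, hu, huv⟩
    exact hne u hu.1 huv
  have hrc : Continuous fun s => (γ s).1.1 := by fun_prop
  have hri : Function.Injective fun s => (γ s).1.1 := by
    intro s t hst
    have hst' : (γ s).1.1 = (γ t).1.1 := hst
    by_cases hs : s = 0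
    · by_cases ht : t = 0
      · rw [hs, ht]
      · exfalso
        have ht0 : 0 < t := lt_of_le_of_ne t.2.1 (Ne.symm ht)
        have := r_pos (hne t ht0)
        rw [← hst', hs, h0, v_fst] at this
        exact lt_irrefl _ this
    · have hs0 : 0 < s := lt_of_le_of_ne s.2.1 (Ne.symm hs)
      by_cases ht : t = 0
      · exfalso
        have := r_pos (hne s hs0)
        rw [hst', ht, h0, v_fst] at this
        exact lt_irrefl _ this
      · have ht0 : 0 < t := lt_of_le_of_ne t.2.1 (Ne.symm ht)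
        exact hi (ext_leg (hne s hs0) (hne t ht0) (by rw [hsl s hs0, hsl t ht0]) hst')
  have hmono : StrictMono fun s => (γ s).1.1 := by
    refine hrc.strictMono_of_inj_boundedOrder ?_ hri
    change (γ 0).1.1 ≤ _
    rw [h0, v_fst]; exact r_nonneg _
  apply Subset.antisymm
  · rintro _ ⟨s, rfl⟩
    by_cases hs : s = 0
    · rw [hs, h0]
      exact ⟨0, sm_zero _⟩
    · have hs0 : 0 < s := lt_of_le_of_ne s.2.1 (Ne.symm hs)
      obtain ⟨l, _, hl, _⟩ := eq_sm h1 (hne s hs0) (hsl s hs0) (hmono.monotone s.2.2)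
      exact ⟨l, hl.symm⟩
  · rintro _ ⟨l, rfl⟩
    by_cases hl : l = 0
    · exact ⟨0, by rw [h0, hl]; exact (sm_zero _).symm⟩
    · have hl0 : 0 < l := lt_of_le_of_ne l.2.1 (Ne.symm hl)
      have hsub := intermediate_value_univ (0 : I) 1 hrc
      have hmem : (l : ℝ) * (γ 1).1.1 ∈ Icc ((γ 0).1.1) ((γ 1).1.1) := by
        rw [h0, v_fst]
        have := r_nonneg (γ 1)
        exact ⟨mul_nonneg l.2.1 this, mul_le_of_le_one_left this l.2.2⟩
      obtain ⟨s, hs⟩ := hsub hmem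
      have hs' : (γ s).1.1 = l * (γ 1).1.1 := hs
      have hsne : γ s ≠ v := by
        apply ne_v
        rw [hs']
        exact mul_pos hl0 (r_pos h1)
      have hs0 : 0 < s := by
        rcases s.2.1.lt_or_eq with h | h
        · exact h
        · exfalso
          have : s = 0 := Subtype.ext h.symm
          rw [this] at hsne
          exact hsne h0
      exact ⟨s, ext_leg hsne (sm_ne hl0 h1) (by rw [hsl s hs0, sl_sm hl0 h1]) hs'⟩

/-- local form of an injective path near a time at which it avoids the top -/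
lemma arc_mono {γ : I → X} (hc : Continuous γ) (hi : Function.Injective γ) {a b : I} (hab : a ≤ b)
    (hv : ∀ s ∈ Icc a b, γ s ≠ v) :
    (∀ s ∈ Icc a b, ∀ t ∈ Icc a b, sl (γ s) = sl (γ t)) ∧
    (StrictMonoOn (fun s => (γ s).1.1) (Icc a b) ∨
      StrictAntiOn (fun s => (γ s).1.1) (Icc a b)) := by
  have hpre : IsPreconnected (γ '' Icc a b) := isPreconnected_Icc.image γ hc.continuousOn
  have hsl : ∀ s ∈ Icc a b, ∀ t ∈ Icc a b, sl (γ s) = sl (γ t) := by
    intro s hs t ht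
    refine conn_slope hpre ?_ _ (mem_image_of_mem _ hs) _ (mem_image_of_mem _ ht)
    rintro ⟨u, hu, huv⟩
    exact hv u hu huv
  refine ⟨hsl, ?_⟩
  have hrc : Continuous fun s => (γ s).1.1 := by fun_prop
  refine hrc.continuousOn.strictMonoOn_of_injOn_Icc' hab ?_
  intro s hs t ht hst
  exact hi (ext_leg (hv s hs) (hv t ht) (hsl s hs t ht) hst)

/-- a tip: the last point of a leg -/
def IsTip (x : X) : Prop := x ≠ v ∧ ∀ y : X, y ≠ v → sl y = sl x → y.1.1 ≤ x.1.1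

lemma tip_end {e : X} (he : IsTip e) {γ : I → X} (hc : Continuous γ) (hi : Function.Injective γ)
    (hmem : e ∈ range γ) : e = γ 0 ∨ e = γ 1 := by
  by_contra hcon
  push Not at hcon
  obtain ⟨s, hs⟩ := hmem
  have hs0 : 0 < s := by
    rcases s.2.1.lt_or_eq with h | h
    · exact h
    · exfalso
      apply hcon.1
      rw [← hs]
      congr 1
      exact Subtype.ext h.symm
  have hs1 : s < 1 := by
    rcases s.2.2.lt_or_eq with h | h
    · exact h
    · exfalso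
      apply hcon.2
      rw [← hs]
      congr 1
      exact Subtype.ext h
  have hopen : IsOpen {u : I | γ u ≠ v} := isOpen_ne_fun hc continuous_const
  have hnhds : {u : I | γ u ≠ v} ∈ 𝓝 s := hopen.mem_nhds (by change γ s ≠ v; rw [hs]; exact he.1)
  obtain ⟨a, b, hsab, _, hab⟩ := exists_Icc_mem_subset_of_mem_nhds hnhds
  have hIoo : Ioo (max a 0) (min b 1) ⊆ Icc a b := fun x hx =>
    ⟨(le_max_left _ _).trans hx.1.le, hx.2.le.trans (min_le_left _ _)⟩
  have hnhd2 : Icc a b ∈ 𝓝 s := by assumption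
  -- points on both sides
  obtain ⟨u, hu, hus⟩ : ∃ u ∈ Icc a b, u < s := by
    have h1 : ∀ᶠ u in 𝓝[<] s, u ∈ Icc a b := nhdsWithin_le_nhds hnhd2
    have h2 : ∀ᶠ u in 𝓝[<] s, u < s := self_mem_nhdsWithin
    have : (𝓝[<] s).NeBot := nhdsLT_neBot_of_exists_lt ⟨0, hs0⟩
    obtain ⟨u, hu⟩ := (h1.and h2).exists
    exact ⟨u, hu⟩
  obtain ⟨w, hw, hsw⟩ : ∃ w ∈ Icc a b, s < w := by
    have h1 : ∀ᶠ u in 𝓝[>] s, u ∈ Icc a b := nhdsWithin_le_nhds hnhd2
    have h2 : ∀ᶠ u in 𝓝[>] s, s < u := self_mem_nhdsWithin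
    have : (𝓝[>] s).NeBot := nhdsGT_neBot_of_exists_gt ⟨1, hs1⟩
    obtain ⟨u, hu⟩ := (h1.and h2).exists
    exact ⟨u, hu⟩
  have hsm : s ∈ Icc a b := ⟨hu.1.trans hus.le, hsw.le.trans hw.2⟩
  obtain ⟨h1, h2⟩ := arc_mono hc hi (hu.1.trans (hus.le.trans (hsw.le.trans hw.2)))
    (fun t ht => hab ht)
  rcases h2 with h2 | h2
  · have h3 := h2 hsm hw hsw
    have h4 := he.2 (γ w) (hab hw) (by rw [← hs]; exact h1 w hw s hsm)
    rw [← hs] at h4
    exact absurd h3 (not_lt.2 h4)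
  · have h3 := h2 hu hsm hus
    have h4 := he.2 (γ u) (hab hu) (by rw [← hs]; exact h1 u hu s hsm)
    rw [← hs] at h4
    exact absurd h3 (not_lt.2 h4)

/-! ### unicoherence -/

lemma star {A : Set X} (hA : IsClosed A) (hc : IsPreconnected A) (hv : v ∈ A) {x : X} (hx : x ∈ A)
    (l : I) : sm l x ∈ A := by
  by_contra hcon
  have hxv : x ≠ v := by
    rintro rfl
    rw [sm_v] at hcon
    exact hcon hv
  have hl0 : 0 < l := by
    rcases l.2.1.lt_or_eq with h | h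
    · exact h
    · exfalso
      have : l = 0 := Subtype.ext h.symm
      rw [this, sm_zero] at hcon
      exact hcon hv
  obtain ⟨c, hc1, hc2, hc3⟩ := sl_eq hxv
  have hrx := r_pos hxv
  have hy0 : 0 < (sm l x).1.1 := by rw [sm_fst]; exact mul_pos hl0 hrx
  have hyx : (sm l x).1.1 ≤ x.1.1 := by
    rw [sm_fst]; exact mul_le_of_le_one_left hrx.le l.2.2
  obtain ⟨ty, hty⟩ : ∃ ty, ty = (sm l x).1.1 := ⟨_, rfl⟩
  rw [← hty] at hy0 hyx
  -- the set of the parameters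
  let B : Set ((ℕ → Bool) × ℝ) := K ∩ F ⁻¹' (Subtype.val '' A)
  have hAc : IsCompact (Subtype.val '' A : Set (ℝ × ℝ)) := hA.isCompact.image continuous_subtype_val
  have hBc : IsClosed B := K_closed.inter (hAc.isClosed.preimage F_continuous)
  have hBcomp : IsCompact B := K_compact.inter_right (hAc.isClosed.preimage F_continuous)
  have hcy : (c, ty) ∉ B := by
    rintro ⟨_, ⟨z, hz, hzF⟩⟩
    apply hcon
    have : z = sm l x := by
      apply Subtype.ext
      rw [hzF]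
      unfold F
      apply Prod.ext
      · exact hty
      · rw [sm_snd, hc3]
        change ty * phi c = _
        rw [hty, sm_fst, mul_assoc]
    rw [← this]; exact hz
  have hopen : Bᶜ ∈ 𝓝 (c, ty) := hBc.isOpen_compl.mem_nhds hcy
  rw [nhds_prod_eq, mem_prod_iff] at hopen
  obtain ⟨U, hU, V, hV, hUV⟩ := hopen
  obtain ⟨U', hU'U, hU'o, hcU'⟩ := mem_nhds_iff.1 hU
  obtain ⟨W, hW, hcW, hWU⟩ := compact_exists_isClopen_in_isOpen hU'o hcU'
  have htV : ty ∈ V := mem_of_mem_nhds hV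
  let A1 : Set (ℝ × ℝ) := F '' (B ∩ (W ×ˢ Ici ty))
  let A2 : Set (ℝ × ℝ) := F '' (B ∩ ((Wᶜ ×ˢ univ) ∪ (univ ×ˢ Iic ty)))
  have hA1 : IsClosed A1 :=
    ((hBcomp.inter_right (hW.isClosed.prod isClosed_Ici)).image F_continuous).isClosed
  have hA2 : IsClosed A2 :=
    ((hBcomp.inter_right ((hW.compl.isClosed.prod isClosed_univ).union
      (isClosed_univ.prod isClosed_Iic))).image F_continuous).isClosed
  have hcov : A ⊆ (Subtype.val ⁻¹' A1) ∪ (Subtype.val ⁻¹' A2) := by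
    intro z hz
    obtain ⟨d, t, h0, h1, h2, h3⟩ := param z
    have hF : F (d, t) = z.1 := by
      unfold F
      exact Prod.ext h2.symm h3.symm
    have hFA : F (d, t) ∈ (Subtype.val '' A : Set (ℝ × ℝ)) := by
      rw [hF]; exact mem_image_of_mem _ hz
    have hB : (d, t) ∈ B := ⟨⟨h0, h1⟩, hFA⟩
    by_cases hd : d ∈ W ∧ ty ≤ t
    · left
      exact ⟨(d, t), ⟨hB, hd.1, hd.2⟩, hF⟩
    · right
      refine ⟨(d, t), ⟨hB, ?_⟩, hF⟩
      by_cases hdW : d ∈ W
      · right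
        exact ⟨mem_univ _, (not_le.1 fun h => hd ⟨hdW, h⟩).le⟩
      · left
        exact ⟨hdW, mem_univ _⟩
  have hmem : ∀ z ∈ A, ∀ d t, 0 ≤ t → (∀ n, t ≤ P d n) → F (d, t) = z.1 → (d, t) ∈ B := by
    intro z hz d t h0 h1 hF
    have hFA : F (d, t) ∈ (Subtype.val '' A : Set (ℝ × ℝ)) := by
      rw [hF]; exact mem_image_of_mem _ hz
    exact ⟨⟨h0, h1⟩, hFA⟩
  have hx1 : (A ∩ (Subtype.val ⁻¹' A1)).Nonempty := by
    have hF : F (c, x.1.1) = x.1 := by
      unfold F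
      exact Prod.ext rfl hc3.symm
    exact ⟨x, hx, (c, x.1.1), ⟨hmem x hx c _ hrx.le hc1 hF, hcW, hyx⟩, hF⟩
  have hv2 : (A ∩ (Subtype.val ⁻¹' A2)).Nonempty := by
    have hF : F (fun _ => false, 0) = v.1 := rfl
    exact ⟨v, hv, (fun _ => false, 0), ⟨hmem v hv _ _ le_rfl (fun n => (P_pos _ n).le) hF,
      Or.inr ⟨mem_univ _, hy0.le⟩⟩, hF⟩
  obtain ⟨z, hz, ⟨⟨d1, t1⟩, ⟨hB1, hd1, ht1⟩, hF1⟩, ⟨⟨d2, t2⟩, ⟨hB2, h2⟩, hF2⟩⟩ :=
    isPreconnected_closed_iff.1 hc _ _ (hA1.preimage continuous_subtype_val)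
      (hA2.preimage continuous_subtype_val) hcov hx1 hv2
  have ht1' : ty ≤ t1 := ht1
  have e1 : t1 = t2 := by
    have := hF1.trans hF2.symm
    exact congrArg Prod.fst this
  have e2 : t1 * phi d1 = t2 * phi d2 := by
    have := hF1.trans hF2.symm
    exact congrArg Prod.snd this
  have ht1p : 0 < t1 := lt_of_lt_of_le hy0 ht1'
  have e3 : d1 = d2 := by
    rw [← e1] at e2
    exact phi_injective (mul_left_cancel₀ ht1p.ne' e2)
  rcases h2 with h2 | h2
  · exact h2.1 (e3 ▸ hd1)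
  · have h2' : t2 ≤ ty := h2.2
    have e4 : t1 = ty := le_antisymm (e1 ▸ h2') ht1'
    have : (d1, t1) ∈ Bᶜ := by
      rw [e4]
      exact hUV ⟨hU'U (hWU hd1), htV⟩
    exact this hB1

lemma seg_preconnected {x : X} (a b : I) : IsPreconnected ((fun l : I => sm l x) '' Icc a b) :=
  isPreconnected_Icc.image _
    (sm_continuous.comp (continuous_id.prodMk continuous_const)).continuousOn

lemma between {A : Set X} (hA : IsClosed A) (hc : IsPreconnected A) {x y z : X} (hx : x ∈ A)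
    (hy : y ∈ A) (hyv : y ≠ v) (hzv : z ≠ v) (h2 : sl z = sl y)
    (h3 : x.1.1 ≤ z.1.1) (h4 : z.1.1 ≤ y.1.1) : z ∈ A := by
  by_cases hv : v ∈ A
  · obtain ⟨l, _, hl, _⟩ := eq_sm hyv hzv h2 h4
    rw [hl]
    exact star hA hc hv hy l
  · have hne : ∀ w ∈ A, w ≠ v := fun w hw h => hv (h ▸ hw)
    have hpre : IsPreconnected ((fun w : X => w.1.1) '' A) :=
      hc.image _ (by fun_prop : Continuous fun w : X => w.1.1).continuousOn
    have hmem : z.1.1 ∈ (fun w : X => w.1.1) '' A :=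
      hpre.ordConnected.out (mem_image_of_mem _ hx) (mem_image_of_mem _ hy) ⟨h3, h4⟩
    obtain ⟨w, hw, hwz⟩ := hmem
    have : w = z := ext_leg (hne w hw) hzv ((conn_slope hc hv w hw y hy).trans h2.symm) hwz
    rw [← this]; exact hw

theorem unicoherent (A B : Set X) (hA : IsClosed A) (hAc : IsPreconnected A) (hB : IsClosed B)
    (hBc : IsPreconnected B) : IsPreconnected (A ∩ B) := by
  by_cases hv : v ∈ A ∩ B
  · refine isPreconnected_of_forall v (fun y hy => ⟨seg y, ?_, ⟨0, sm_zero y⟩, ⟨1, sm_one y⟩, ?_⟩)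
    · rintro _ ⟨l, rfl⟩
      exact ⟨star hA hAc hv.1 hy.1 l, star hB hBc hv.2 hy.2 l⟩
    · exact isPreconnected_range (sm_continuous.comp (continuous_id.prodMk continuous_const))
  · have hsl : ∀ x ∈ A ∩ B, ∀ y ∈ A ∩ B, sl x = sl y := by
      intro x hx y hy
      by_cases hvA : v ∈ A
      · exact conn_slope hBc (fun h => hv ⟨hvA, h⟩) x hx.2 y hy.2
      · exact conn_slope hAc hvA x hx.1 y hy.1
    have hne : ∀ x ∈ A ∩ B, x ≠ v := fun x hx h => hv (h ▸ hx)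
    have key : ∀ x ∈ A ∩ B, ∀ y ∈ A ∩ B, x.1.1 ≤ y.1.1 →
        ∃ t ⊆ A ∩ B, x ∈ t ∧ y ∈ t ∧ IsPreconnected t := by
      intro x hx y hy hxy
      obtain ⟨l, hl0, hl, hl2⟩ := eq_sm (hne y hy) (hne x hx) (hsl x hx y hy) hxy
      refine ⟨(fun l : I => sm l y) '' Icc l 1, ?_, ⟨l, ⟨le_rfl, l.2.2⟩, hl.symm⟩,
        ⟨1, ⟨l.2.2, le_rfl⟩, sm_one y⟩, seg_preconnected _ _⟩
      rintro _ ⟨m, hm, rfl⟩
      have hm0 : 0 < m := lt_of_lt_of_le hl0 hm.1
      have hry := r_pos (hne y hy)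
      have hlm : (l : ℝ) ≤ m := hm.1
      have h3 : x.1.1 ≤ (sm m y).1.1 := by
        rw [hl, sm_fst, sm_fst]
        exact mul_le_mul_of_nonneg_right hlm hry.le
      have h4 : (sm m y).1.1 ≤ y.1.1 := by
        rw [sm_fst]
        exact mul_le_of_le_one_left hry.le m.2.2
      exact ⟨between hA hAc hx.1 hy.1 (hne y hy) (sm_ne hm0 (hne y hy))
          (sl_sm hm0 (hne y hy)) h3 h4,
        between hB hBc hx.2 hy.2 (hne y hy) (sm_ne hm0 (hne y hy))
          (sl_sm hm0 (hne y hy)) h3 h4⟩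
    refine isPreconnected_of_forall_pair (fun x hx y hy => ?_)
    rcases le_total x.1.1 y.1.1 with h | h
    · exact key x hx y hy h
    · obtain ⟨t, h1, h2, h3, h4⟩ := key y hy x hx h
      exact ⟨t, h1, h3, h2, h4⟩

/-! ### ramification -/

lemma nhd_zero {γ : I → X} (hc : Continuous γ) (h0 : γ 0 ≠ v) : ∃ b : I, 0 < b ∧
    ∀ s ∈ Icc 0 b, γ s ≠ v := by
  have hopen : IsOpen {u : I | γ u ≠ v} := isOpen_ne_fun hc continuous_const
  have hnhds : {u : I | γ u ≠ v} ∈ 𝓝 (0 : I) := hopen.mem_nhds h0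
  obtain ⟨b, hb, hb2⟩ := (mem_nhdsGE_iff_exists_mem_Ioc_Ico_subset (zero_lt_one (α := I))).1
    (mem_nhdsWithin_of_mem_nhds hnhds)
  have hb0 : (0 : ℝ) < b := hb.1
  refine ⟨⟨(b : ℝ) / 2, by linarith, by linarith [b.2.2]⟩, ?_, ?_⟩
  · change (0 : ℝ) < b / 2
    linarith
  · intro s hs
    apply hb2
    refine ⟨hs.1, ?_⟩
    have : (s : ℝ) ≤ b / 2 := hs.2
    change (s : ℝ) < b
    linarith

/-- two paths from `w ≠ v` that leave in the same direction meet again -/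
lemma meet {γ δ : I → X} (hγ : Continuous γ) (hδ : Continuous δ) {w : X}
    (hγ0 : γ 0 = w) (hδ0 : δ 0 = w) {a b : I} (ha : 0 < a) (hb : 0 < b)
    (hγs : ∀ s ∈ Icc 0 a, ∀ t ∈ Icc 0 a, sl (γ s) = sl (γ t))
    (hδs : ∀ s ∈ Icc 0 b, ∀ t ∈ Icc 0 b, sl (δ s) = sl (δ t))
    (hγv : ∀ s ∈ Icc 0 a, γ s ≠ v) (hδv : ∀ s ∈ Icc 0 b, δ s ≠ v)
    (hd : (w.1.1 < (γ a).1.1 ∧ w.1.1 < (δ b).1.1) ∨ ((γ a).1.1 < w.1.1 ∧ (δ b).1.1 < w.1.1)) :
    ∃ z ≠ w, z ∈ range γ ∧ z ∈ range δ := by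
  have hγr : Continuous fun s => (γ s).1.1 := by fun_prop
  have hδr : Continuous fun s => (δ s).1.1 := by fun_prop
  -- common value
  obtain ⟨r, hr1, hr2, hr3⟩ : ∃ r, r ≠ w.1.1 ∧ r ∈ uIcc (γ 0).1.1 (γ a).1.1 ∧
      r ∈ uIcc (δ 0).1.1 (δ b).1.1 := by
    rw [hγ0, hδ0]
    rcases hd with ⟨h1, h2⟩ | ⟨h1, h2⟩
    · refine ⟨min (γ a).1.1 (δ b).1.1, (lt_min h1 h2).ne', ?_, ?_⟩
      · rw [uIcc_of_le h1.le]
        exact ⟨(lt_min h1 h2).le, min_le_left _ _⟩
      · rw [uIcc_of_le h2.le]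
        exact ⟨(lt_min h1 h2).le, min_le_right _ _⟩
    · refine ⟨max (γ a).1.1 (δ b).1.1, (max_lt h1 h2).ne, ?_, ?_⟩
      · rw [uIcc_of_ge h1.le]
        exact ⟨le_max_left _ _, (max_lt h1 h2).le⟩
      · rw [uIcc_of_ge h2.le]
        exact ⟨le_max_right _ _, (max_lt h1 h2).le⟩
  obtain ⟨s, hs, hs'⟩ := intermediate_value_uIcc (a := (0 : I)) (b := a) hγr.continuousOn hr2
  obtain ⟨t, ht, ht'⟩ := intermediate_value_uIcc (a := (0 : I)) (b := b) hδr.continuousOn hr3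
  rw [uIcc_of_le ha.le] at hs
  rw [uIcc_of_le hb.le] at ht
  have h0a : (0 : I) ∈ Icc 0 a := ⟨le_rfl, ha.le⟩
  have h0b : (0 : I) ∈ Icc 0 b := ⟨le_rfl, hb.le⟩
  have hs1 : (γ s).1.1 = r := hs'
  have ht1 : (δ t).1.1 = r := ht'
  have heq : γ s = δ t := by
    refine ext_leg (hγv s hs) (hδv t ht) ?_ (hs1.trans ht1.symm)
    rw [hγs s hs 0 h0a, hδs t ht 0 h0b, hγ0, hδ0]
  refine ⟨γ s, ?_, ⟨s, rfl⟩, ⟨t, heq.symm⟩⟩
  intro h
  rw [h] at hs1
  exact hr1 hs1.symm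

lemma ram_unique {w : X} (γ : Fin 3 → I → X)
    (h1 : ∀ i, Continuous (γ i) ∧ Function.Injective (γ i) ∧ γ i 0 = w)
    (h2 : ∀ i j, i ≠ j → range (γ i) ∩ range (γ j) = {w}) : w = v := by
  by_contra hw
  have h3 : ∀ i, ∃ b : I, 0 < b ∧ (∀ s ∈ Icc 0 b, γ i s ≠ v) :=
    fun i => nhd_zero (h1 i).1 (by rw [(h1 i).2.2]; exact hw)
  choose b hb0 hb using h3
  have h4 := fun i => arc_mono (h1 i).1 (h1 i).2.1 (hb0 i).le (hb i)
  have h5 : ∀ i, w.1.1 < (γ i (b i)).1.1 ∨ (γ i (b i)).1.1 < w.1.1 := by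
    intro i
    have h0b : (0 : I) ∈ Icc 0 (b i) := ⟨le_rfl, (hb0 i).le⟩
    have hbb : b i ∈ Icc 0 (b i) := ⟨(hb0 i).le, le_rfl⟩
    rcases (h4 i).2 with h | h
    · left
      have := h h0b hbb (hb0 i)
      simp only [(h1 i).2.2] at this
      exact this
    · right
      have := h h0b hbb (hb0 i)
      simp only [(h1 i).2.2] at this
      exact this
  have h6 : ∃ i j : Fin 3, i ≠ j ∧ ((w.1.1 < (γ i (b i)).1.1 ∧ w.1.1 < (γ j (b j)).1.1) ∨
      ((γ i (b i)).1.1 < w.1.1 ∧ (γ j (b j)).1.1 < w.1.1)) := by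
    rcases h5 0 with a0 | a0 <;> rcases h5 1 with a1 | a1 <;> rcases h5 2 with a2 | a2
    · exact ⟨0, 1, by decide, Or.inl ⟨a0, a1⟩⟩
    · exact ⟨0, 1, by decide, Or.inl ⟨a0, a1⟩⟩
    · exact ⟨0, 2, by decide, Or.inl ⟨a0, a2⟩⟩
    · exact ⟨1, 2, by decide, Or.inr ⟨a1, a2⟩⟩
    · exact ⟨1, 2, by decide, Or.inl ⟨a1, a2⟩⟩
    · exact ⟨0, 2, by decide, Or.inr ⟨a0, a2⟩⟩
    · exact ⟨0, 1, by decide, Or.inr ⟨a0, a1⟩⟩
    · exact ⟨0, 1, by decide, Or.inr ⟨a0, a1⟩⟩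
  obtain ⟨i, j, hij, hd⟩ := h6
  obtain ⟨z, hz, hzi, hzj⟩ := meet (h1 i).1 (h1 j).1 (h1 i).2.2 (h1 j).2.2 (hb0 i) (hb0 j)
    (h4 i).1 (h4 j).1 (hb i) (hb j) hd
  have : z ∈ ({w} : Set X) := by rw [← h2 i j hij]; exact ⟨hzi, hzj⟩
  exact hz this

end Pool.Agent.W88.Lelek
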